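import Pool.Agent.Lib_MP_bfd926_fm.MDefs

/-!
# The theta series and `U₂`, I

Write `S j m` for the set in `cnt`. Since `y` is odd, `u * y - x * v = 2 ^ (j + 1) * s` and
`y ^ 2 * (u ^ 2 + l * v ^ 2) = (u y) ^ 2 + (2 ^ (n + 2) - x ^ 2) * v ^ 2 ≡ (u y - x v) * (u y + x v)
= 2 ^ (j + 2) * s * (2 ^ j * s + x * v)` modulo `2 ^ (n + 2)`. If `u ^ 2 + l * v ^ 2 = 2 ^ (j + 3) * m` and
`j + 1 ≤ n` then `s * (2 ^ j * s + x * v)` is even. For `j ≥ 1`: `s` or `v` is even. So `S j (2 m)` is the union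
of `{s even} = S (j + 1) m` and `{v even}` (then `u` is even too, `(u, v) = 2 (u', v')` with `(u', v')` in
`S (j - 1) m`: `2 ^ j ∣ u' y - x v'`, `u' ^ 2 + l * v' ^ 2 = 2 ^ (j + 1) * m`), and the intersection is
`2 • S j (m / 2)` (`2 ^ (j + 1) ∣ u' y - x v'` implies that `u' ^ 2 + l * v' ^ 2` is divisible by `2 ^ (j + 2)`, so the
intersection is empty for odd `m`). Conversely `2 • S (j - 1) m` and `S (j + 1) m` are contained in `S j (2 m)`. All
sets are finite (`l ≥ 1`). `Set.ncard_union_add_ncard_inter`, `Set.ncard_image_of_injective`.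
-/

namespace MT2

theorem cnt_finite (l : ℕ) (hl : 1 ≤ l) (x y : ℤ) (j m : ℕ) :
    {p : ℤ × ℤ | (2 : ℤ) ^ (j + 1) ∣ p.1 * y - x * p.2 ∧
      p.1 ^ 2 + l * p.2 ^ 2 = 2 ^ (j + 2) * m}.Finite := by
  have hN : (0 : ℤ) ≤ 2 ^ (j + 2) * m := by positivity
  refine Set.Finite.subset ((Set.finite_Icc (-(2 ^ (j + 2) * m : ℤ)) (2 ^ (j + 2) * m)).prod
    (Set.finite_Icc (-(2 ^ (j + 2) * m : ℤ)) (2 ^ (j + 2) * m))) ?_
  rintro ⟨u, v⟩ ⟨-, h⟩
  simp only at h
  have hl' : (1 : ℤ) ≤ l := by exact_mod_cast hl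
  have hv : v ^ 2 ≤ l * v ^ 2 := by nlinarith [sq_nonneg v]
  have hu0 := sq_nonneg u
  have hv0 := sq_nonneg v
  have h1 : |u| ≤ u ^ 2 := by
    rw [← sq_abs]
    rcases eq_or_ne u 0 with h0 | h0
    · simp [h0]
    · have := Int.one_le_abs h0
      nlinarith
  have h2 : |v| ≤ v ^ 2 := by
    rw [← sq_abs]
    rcases eq_or_ne v 0 with h0 | h0
    · simp [h0]
    · have := Int.one_le_abs h0
      nlinarith
  have h3 : |u| ≤ 2 ^ (j + 2) * m := by linarith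
  have h4 : |v| ≤ 2 ^ (j + 2) * m := by linarith
  exact ⟨Set.mem_Icc.2 (abs_le.1 h3), Set.mem_Icc.2 (abs_le.1 h4)⟩

/-- the solution set -/
private def fca_S (l : ℕ) (x y : ℤ) (j m : ℕ) : Set (ℤ × ℤ) :=
  {p : ℤ × ℤ | (2 : ℤ) ^ (j + 1) ∣ p.1 * y - x * p.2 ∧
    p.1 ^ 2 + l * p.2 ^ 2 = 2 ^ (j + 2) * m}

private def fca_d (p : ℤ × ℤ) : ℤ × ℤ := (2 * p.1, 2 * p.2)

private theorem fca_inj : Function.Injective fca_d := by
  rintro ⟨a, b⟩ ⟨c, d⟩ h
  simp only [fca_d, Prod.mk.injEq] at h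
  obtain ⟨h1, h2⟩ := h
  ext
  · simp only; omega
  · simp only; omega

private theorem fca_B_sub (l : ℕ) (x y : ℤ) (k m : ℕ) :
    fca_S l x y (k + 2) m ⊆ fca_S l x y (k + 1) (2 * m) := by
  rintro ⟨u, v⟩ ⟨h1, h2⟩
  simp only at h1 h2
  refine ⟨?_, ?_⟩
  · exact dvd_trans (pow_dvd_pow 2 (by omega)) h1
  · simp only
    rw [h2]
    push_cast
    ring

private theorem fca_C_sub (l : ℕ) (x y : ℤ) (k m : ℕ) :
    fca_d '' fca_S l x y k m ⊆ fca_S l x y (k + 1) (2 * m) := by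
  rintro _ ⟨⟨u, v⟩, ⟨h1, h2⟩, rfl⟩
  simp only at h1 h2
  refine ⟨?_, ?_⟩
  · obtain ⟨s, hs⟩ := h1
    refine ⟨s, ?_⟩
    simp only [fca_d]
    calc 2 * u * y - x * (2 * v) = 2 * (u * y - x * v) := by ring
      _ = _ := by rw [hs]; ring
  · simp only [fca_d]
    calc (2 * u) ^ 2 + (l : ℤ) * (2 * v) ^ 2 = 4 * (u ^ 2 + l * v ^ 2) := by ring
      _ = _ := by rw [h2]; push_cast; ring

private theorem fca_key (l : ℕ) (n : ℕ) (x y : ℤ) (h : x ^ 2 + l * y ^ 2 = 2 ^ (n + 2)) (u v : ℤ) :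
    y ^ 2 * (u ^ 2 + l * v ^ 2) = (u * y - x * v) * ((u * y - x * v) + 2 * (x * v))
      + 2 ^ (n + 2) * v ^ 2 := by
  rw [← h]
  ring

private theorem fca_A_sub (l : ℕ) (n : ℕ) (x y : ℤ) (hx : Odd x) (hy : Odd y)
    (h : x ^ 2 + l * y ^ 2 = 2 ^ (n + 2)) (k : ℕ) (hkn : k + 2 ≤ n) (m : ℕ) :
    fca_S l x y (k + 1) (2 * m) ⊆ fca_S l x y (k + 2) m ∪ fca_d '' fca_S l x y k m := by
  rintro ⟨u, v⟩ ⟨h1, h2⟩
  simp only at h1 h2
  obtain ⟨s, hs⟩ := h1
  obtain ⟨i, rfl⟩ := Nat.exists_eq_add_of_le hkn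
  have hk := fca_key l _ x y h u v
  rw [h2, hs] at hk
  push_cast at hk
  have h3 : (2 : ℤ) ^ (k + 3) * (2 * (y ^ 2 * m)) =
      2 ^ (k + 3) * (s * (2 ^ (k + 1) * s + x * v) + 2 * (2 ^ i * v ^ 2)) := by
    have e1 : (2 : ℤ) ^ (k + 3) * (2 * (y ^ 2 * m)) = y ^ 2 * (2 ^ (k + 1 + 2) * (2 * m)) := by ring
    rw [e1, hk]
    ring
  have h4 := mul_left_cancel₀ (pow_ne_zero _ (by norm_num : (2 : ℤ) ≠ 0)) h3
  have h5 : Even (s * (x * v)) := by
    have e2 : s * (x * v) = 2 * (y ^ 2 * m - 2 ^ k * s ^ 2 - 2 ^ i * v ^ 2) := by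
      have : s * (x * v) = 2 * (y ^ 2 * m) - 2 * (2 ^ i * v ^ 2) - s * (2 ^ (k + 1) * s) := by
        linear_combination -h4
      rw [this]
      ring
    rw [e2]
    exact even_two_mul _
  have h6 : Even s ∨ Even v := by
    rw [Int.even_mul, Int.even_mul] at h5
    rcases h5 with h5 | h5 | h5
    · exact Or.inl h5
    · exact absurd h5 (Int.not_even_iff_odd.2 hx)
    · exact Or.inr h5
  rcases h6 with h6 | h6
  · left
    obtain ⟨t, ht⟩ := h6
    refine ⟨⟨t, ?_⟩, ?_⟩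
    · simp only
      rw [hs, ht]
      ring
    · simp only
      rw [h2]
      push_cast
      ring
  · right
    obtain ⟨v', hv'⟩ := h6
    have h7 : Even (u * y) := by
      have e3 : u * y = 2 * (2 ^ (k + 1) * s + x * v') := by
        have : u * y = 2 ^ (k + 1 + 1) * s + x * v := by linear_combination hs
        rw [this, hv']
        ring
      rw [e3]
      exact even_two_mul _
    rw [Int.even_mul] at h7
    rcases h7 with h7 | h7
    · obtain ⟨u', hu'⟩ := h7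
      refine ⟨(u', v'), ⟨⟨s, ?_⟩, ?_⟩, ?_⟩
      · simp only
        have : (2 : ℤ) * (u' * y - x * v') = 2 * (2 ^ (k + 1) * s) := by
          rw [hu', hv'] at hs
          linear_combination hs
        exact mul_left_cancel₀ (by norm_num) this
      · simp only
        have : (4 : ℤ) * (u' ^ 2 + l * v' ^ 2) = 4 * (2 ^ (k + 2) * m) := by
          rw [hu', hv'] at h2
          push_cast at h2
          linear_combination h2
        exact mul_left_cancel₀ (by norm_num) this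
      · simp only [fca_d, hu', hv', Prod.mk.injEq]
        constructor <;> ring
    · exact absurd h7 (Int.not_even_iff_odd.2 hy)

private theorem fca_inter (l : ℕ) (n : ℕ) (x y : ℤ) (hy : Odd y)
    (h : x ^ 2 + l * y ^ 2 = 2 ^ (n + 2)) (k : ℕ) (hkn : k + 2 ≤ n) (m : ℕ) :
    fca_S l x y (k + 2) m ∩ fca_d '' fca_S l x y k m =
      if 2 ∣ m then fca_d '' fca_S l x y (k + 1) (m / 2) else ∅ := by
  have key : ∀ u v : ℤ, fca_d (u, v) ∈ fca_S l x y (k + 2) m → (u, v) ∈ fca_S l x y k m →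
      (2 : ℤ) ^ (k + 2) ∣ u * y - x * v ∧ 2 ∣ m := by
    rintro u v ⟨h1, -⟩ ⟨-, h2⟩
    simp only [fca_d] at h1 h2
    have h3 : (2 : ℤ) ^ (k + 2) ∣ u * y - x * v := by
      obtain ⟨s, hs⟩ := h1
      refine ⟨s, ?_⟩
      have : (2 : ℤ) * (u * y - x * v) = 2 * (2 ^ (k + 2) * s) := by
        linear_combination hs
      exact mul_left_cancel₀ (by norm_num) this
    refine ⟨h3, ?_⟩
    obtain ⟨s, hs⟩ := h3
    obtain ⟨i, rfl⟩ := Nat.exists_eq_add_of_le hkn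
    have hk := fca_key l _ x y h u v
    rw [h2, hs] at hk
    have h4 : (2 : ℤ) ^ (k + 2) * (y ^ 2 * m) =
        2 ^ (k + 2) * (2 * (s * (2 ^ (k + 1) * s + x * v) + 2 ^ (i + 1) * v ^ 2)) := by
      have e1 : (2 : ℤ) ^ (k + 2) * (y ^ 2 * m) = y ^ 2 * (2 ^ (k + 2) * m) := by ring
      rw [e1, hk]
      ring
    have h5 := mul_left_cancel₀ (pow_ne_zero _ (by norm_num : (2 : ℤ) ≠ 0)) h4
    have h6 : Even (y ^ 2 * (m : ℤ)) := by
      rw [h5]
      exact even_two_mul _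
    rw [Int.even_mul] at h6
    rcases h6 with h6 | h6
    · exact absurd h6 (Int.not_even_iff_odd.2 (hy.pow))
    · have : Even m := by exact_mod_cast h6
      exact this.two_dvd
  split_ifs with h2m
  · obtain ⟨m', rfl⟩ := h2m
    rw [Nat.mul_div_cancel_left _ (by norm_num : 0 < 2)]
    ext p
    constructor
    · rintro ⟨hp1, ⟨⟨u, v⟩, hp2, rfl⟩⟩
      obtain ⟨h3, -⟩ := key u v hp1 hp2
      refine ⟨(u, v), ⟨?_, ?_⟩, rfl⟩
      · exact h3
      · have := hp2.2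
        simp only at this ⊢
        rw [this]
        push_cast
        ring
    · rintro ⟨⟨u, v⟩, ⟨h1, h2⟩, rfl⟩
      simp only at h1 h2
      refine ⟨⟨?_, ?_⟩, ⟨(u, v), ⟨?_, ?_⟩, rfl⟩⟩
      · obtain ⟨s, hs⟩ := h1
        refine ⟨s, ?_⟩
        simp only [fca_d]
        calc 2 * u * y - x * (2 * v) = 2 * (u * y - x * v) := by ring
          _ = _ := by rw [hs]; ring
      · simp only [fca_d]
        calc (2 * u) ^ 2 + (l : ℤ) * (2 * v) ^ 2 = 4 * (u ^ 2 + l * v ^ 2) := by ring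
          _ = _ := by rw [h2]; push_cast; ring
      · exact dvd_trans (pow_dvd_pow 2 (by omega)) h1
      · simp only
        rw [h2]
        push_cast
        ring
  · rw [Set.eq_empty_iff_forall_notMem]
    rintro p ⟨hp1, ⟨⟨u, v⟩, hp2, rfl⟩⟩
    exact h2m (key u v hp1 hp2).2

theorem cnt_step (l : ℕ) (hl : Odd l) (n : ℕ) (x y : ℤ) (hx : Odd x) (hy : Odd y)
    (h : x ^ 2 + l * y ^ 2 = 2 ^ (n + 2)) (j : ℕ) (hj : 1 ≤ j) (hjn : j + 1 ≤ n) (m : ℕ) :
    cnt l x y j (2 * m) + (if 2 ∣ m then cnt l x y j (m / 2) else 0) =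
      cnt l x y (j + 1) m + cnt l x y (j - 1) m := by
  obtain ⟨k, rfl⟩ : ∃ k, j = k + 1 := ⟨j - 1, by omega⟩
  have hl1 : 1 ≤ l := hl.pos
  have hcnt : ∀ i r : ℕ, cnt l x y i r = (fca_S l x y i r).ncard := fun i r => rfl
  have hfin : ∀ i r : ℕ, (fca_S l x y i r).Finite := fun i r => cnt_finite l hl1 x y i r
  have hA : fca_S l x y (k + 1) (2 * m) = fca_S l x y (k + 2) m ∪ fca_d '' fca_S l x y k m :=
    Set.Subset.antisymm (fca_A_sub l n x y hx hy h k hjn m)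
      (Set.union_subset (fca_B_sub l x y k m) (fca_C_sub l x y k m))
  have hI := fca_inter l n x y hy h k hjn m
  have hU := Set.ncard_union_add_ncard_inter (fca_S l x y (k + 2) m) (fca_d '' fca_S l x y k m)
    (hfin _ _) ((hfin _ _).image _)
  rw [← hA, hI] at hU
  simp only [hcnt, Nat.add_sub_cancel]
  rw [Set.ncard_image_of_injective _ fca_inj] at hU
  rw [← hU]
  congr 1
  split_ifs with h2m
  · rw [Set.ncard_image_of_injective _ fca_inj]
  · rw [Set.ncard_empty]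

end MT2
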