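import Pool.Agent.Lib_MP_bfd926_fm.FCntA

/-!
# The theta series and `U₂`, II

`cnt_zero_step`: as `cnt_step`, now `s * (s + x * v)` is even (`j = 0`, `u * y - x * v = 2 * s`). If `s` is even then
`(u, v) ∈ S 1 m`. If `s + x * v` is even then `u * y + x * v = 2 * (s + x * v)` is divisible by `4`, so
`(u, -v) ∈ S 1 m`. Both hold iff `s` and `v` are even; then `u` is even and `(u, v) = 2 (u', v')`,
`(u', v') ∈ S 0 (m / 2)`; conversely `2 • S 0 (m / 2)` is contained in both.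

`cnt_top`: the map `(u, v) ↦ ((x * u - l * y * v) / 2, (x * v + y * u) / 2)` is a bijection from `S 0 m` to `S n m`:
`u' ^ 2 + l * v' ^ 2 = 2 ^ n * (u ^ 2 + l * v ^ 2)`, `u' * y - x * v' = - 2 ^ (n + 1) * v`; the inverse map is
`(u', v') ↦ ((x * u' + l * y * v') / 2 ^ (n + 1), (x * v' - y * u') / 2 ^ (n + 1))`
(`y * (x * u' + l * y * v') = x * (y * u' - x * v') + 2 ^ (n + 2) * v'`, `y` odd, and for the parity condition
`u * y - x * v = 2 * v' - 2 * x * v`).

`cnt_small`: `u ^ 2 + l * v ^ 2 ≤ 16 < l` forces `v = 0`.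
-/

namespace MT2

/-- the solution set -/
private def fcb_S (l : ℕ) (x y : ℤ) (j m : ℕ) : Set (ℤ × ℤ) :=
  {p : ℤ × ℤ | (2 : ℤ) ^ (j + 1) ∣ p.1 * y - x * p.2 ∧
    p.1 ^ 2 + l * p.2 ^ 2 = 2 ^ (j + 2) * m}

private def fcb_d (p : ℤ × ℤ) : ℤ × ℤ := (2 * p.1, 2 * p.2)

private def fcb_f (p : ℤ × ℤ) : ℤ × ℤ := (p.1, -p.2)

private theorem fcb_d_inj : Function.Injective fcb_d := by
  rintro ⟨a, b⟩ ⟨c, d⟩ h
  simp only [fcb_d, Prod.mk.injEq] at h
  obtain ⟨h1, h2⟩ := h
  ext
  · simp only; omega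
  · simp only; omega

private theorem fcb_f_inj : Function.Injective fcb_f := by
  rintro ⟨a, b⟩ ⟨c, d⟩ h
  simp only [fcb_f, Prod.mk.injEq] at h
  obtain ⟨h1, h2⟩ := h
  ext
  · simp only; omega
  · simp only; omega

private theorem fcb_key (l : ℕ) (n : ℕ) (x y : ℤ) (h : x ^ 2 + l * y ^ 2 = 2 ^ (n + 2)) (u v : ℤ) :
    y ^ 2 * (u ^ 2 + l * v ^ 2) = (u * y - x * v) * ((u * y - x * v) + 2 * (x * v))
      + 2 ^ (n + 2) * v ^ 2 := by
  rw [← h]
  ring

private theorem fcb_union (l : ℕ) (n : ℕ) (x y : ℤ)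
    (h : x ^ 2 + l * y ^ 2 = 2 ^ (n + 2)) (hn : 1 ≤ n) (m : ℕ) :
    fcb_S l x y 0 (2 * m) = fcb_S l x y 1 m ∪ fcb_f '' fcb_S l x y 1 m := by
  obtain ⟨i, rfl⟩ := Nat.exists_eq_add_of_le hn
  apply Set.Subset.antisymm
  · rintro ⟨u, v⟩ ⟨h1, h2⟩
    simp only at h1 h2
    obtain ⟨s, hs⟩ := h1
    have hk := fcb_key l _ x y h u v
    rw [h2, hs] at hk
    push_cast at hk
    have h3 : (4 : ℤ) * (2 * (y ^ 2 * m)) = 4 * (s * (s + x * v) + 2 * (2 ^ i * v ^ 2)) := by
      linear_combination hk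
    have h4 := mul_left_cancel₀ (by norm_num : (4 : ℤ) ≠ 0) h3
    have h5 : Even (s * (s + x * v)) := by
      have e2 : s * (s + x * v) = 2 * (y ^ 2 * m - 2 ^ i * v ^ 2) := by linear_combination -h4
      rw [e2]
      exact even_two_mul _
    rw [Int.even_mul] at h5
    rcases h5 with ⟨t, ht⟩ | ⟨t, ht⟩
    · left
      refine ⟨⟨t, ?_⟩, ?_⟩
      · simp only
        rw [hs, ht]
        ring
      · simp only
        rw [h2]
        push_cast
        ring
    · right
      refine ⟨(u, -v), ⟨⟨t, ?_⟩, ?_⟩, ?_⟩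
      · simp only
        linear_combination hs + 2 * ht
      · simp only
        push_cast at h2
        linear_combination h2
      · simp only [fcb_f, neg_neg]
  · apply Set.union_subset
    · rintro ⟨u, v⟩ ⟨⟨s, hs⟩, h2⟩
      simp only at hs h2
      refine ⟨⟨2 * s, ?_⟩, ?_⟩
      · simp only
        linear_combination hs
      · simp only
        push_cast
        linear_combination h2
    · rintro _ ⟨⟨u, v⟩, ⟨⟨s, hs⟩, h2⟩, rfl⟩
      simp only at hs h2
      refine ⟨⟨2 * s + x * v, ?_⟩, ?_⟩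
      · simp only [fcb_f]
        linear_combination hs
      · simp only [fcb_f]
        push_cast
        linear_combination h2

private theorem fcb_inter (l : ℕ) (n : ℕ) (x y : ℤ) (hx : Odd x) (hy : Odd y)
    (h : x ^ 2 + l * y ^ 2 = 2 ^ (n + 2)) (m : ℕ) :
    fcb_S l x y 1 m ∩ fcb_f '' fcb_S l x y 1 m =
      if 2 ∣ m then fcb_d '' fcb_S l x y 0 (m / 2) else ∅ := by
  have key : ∀ p ∈ fcb_S l x y 1 m ∩ fcb_f '' fcb_S l x y 1 m,
      ∃ u v s : ℤ, p = fcb_d (u, v) ∧ u * y - x * v = 2 * s ∧ u ^ 2 + l * v ^ 2 = 2 * m ∧ 2 ∣ m := by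
    rintro ⟨u, v⟩ ⟨⟨h1, h2⟩, ⟨⟨u', v'⟩, ⟨h3, -⟩, he⟩⟩
    simp only [fcb_f, Prod.mk.injEq] at he
    obtain ⟨rfl, rfl⟩ := he
    simp only at h1 h2 h3
    obtain ⟨a, ha⟩ := h1
    obtain ⟨b, hb⟩ := h3
    have e1 : x * v' = 2 * (a - b) := by
      have : (2 : ℤ) * (x * v') = 2 * (2 * (a - b)) := by linear_combination ha - hb
      exact mul_left_cancel₀ (by norm_num) this
    have e2 : u' * y = 2 * (a + b) := by
      have : (2 : ℤ) * (u' * y) = 2 * (2 * (a + b)) := by linear_combination ha + hb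
      exact mul_left_cancel₀ (by norm_num) this
    have hv : Even v' := by
      have : Even (x * v') := by rw [e1]; exact even_two_mul _
      rw [Int.even_mul] at this
      exact this.resolve_left (Int.not_even_iff_odd.2 hx)
    have hu : Even u' := by
      have : Even (u' * y) := by rw [e2]; exact even_two_mul _
      rw [Int.even_mul] at this
      exact this.resolve_right (Int.not_even_iff_odd.2 hy)
    obtain ⟨c, hc⟩ := hv
    obtain ⟨d, hd⟩ := hu
    have h5 : d * y - x * (-c) = 2 * a := by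
      have : (2 : ℤ) * (d * y - x * (-c)) = 2 * (2 * a) := by
        rw [hc, hd] at ha
        linear_combination ha
      exact mul_left_cancel₀ (by norm_num) this
    have h6 : d ^ 2 + (l : ℤ) * (-c) ^ 2 = 2 * m := by
      have : (4 : ℤ) * (d ^ 2 + (l : ℤ) * (-c) ^ 2) = 4 * (2 * m) := by
        rw [hc, hd] at h2
        linear_combination h2
      exact mul_left_cancel₀ (by norm_num) this
    refine ⟨d, -c, a, ?_, h5, h6, ?_⟩
    · simp only [fcb_d, Prod.mk.injEq]
      constructor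
      · rw [hd]; ring
      · rw [hc]; ring
    · have hk := fcb_key l _ x y h d (-c)
      rw [h6, h5] at hk
      have h7 : (2 : ℤ) * (y ^ 2 * m) = 2 * (2 * (a * (a + x * (-c)) + 2 ^ n * c ^ 2)) := by
        have e1 : (2 : ℤ) * (y ^ 2 * m) = y ^ 2 * (2 * m) := by ring
        rw [e1, hk]
        ring
      have h8 := mul_left_cancel₀ (by norm_num : (2 : ℤ) ≠ 0) h7
      have h9 : Even (y ^ 2 * (m : ℤ)) := by
        rw [h8]
        exact even_two_mul _
      rw [Int.even_mul] at h9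
      rcases h9 with h9 | h9
      · exact absurd h9 (Int.not_even_iff_odd.2 (hy.pow))
      · have : Even m := by exact_mod_cast h9
        exact this.two_dvd
  split_ifs with h2m
  · obtain ⟨m', rfl⟩ := h2m
    rw [Nat.mul_div_cancel_left _ (by norm_num : 0 < 2)]
    apply Set.Subset.antisymm
    · intro p hp
      obtain ⟨u, v, s, rfl, h1, h2, -⟩ := key p hp
      refine ⟨(u, v), ⟨⟨s, ?_⟩, ?_⟩, rfl⟩
      · simp only
        rw [h1]
        ring
      · simp only
        rw [h2]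
        push_cast
        ring
    · rintro _ ⟨⟨u, v⟩, ⟨⟨s, hs⟩, h2⟩, rfl⟩
      simp only at hs h2
      have h3 : (2 : ℤ) ^ (1 + 1) ∣ 2 * u * y - x * (2 * v) := ⟨s, by linear_combination 2 * hs⟩
      have h4 : (2 : ℤ) ^ (1 + 1) ∣ 2 * u * y - x * (2 * -v) :=
        ⟨s + x * v, by linear_combination 2 * hs⟩
      have h5 : (2 * u) ^ 2 + (l : ℤ) * (2 * v) ^ 2 = 2 ^ (1 + 2) * ((2 * m' : ℕ) : ℤ) := by
        push_cast
        linear_combination 4 * h2
      refine ⟨⟨h3, h5⟩, ⟨(2 * u, 2 * -v), ⟨h4, ?_⟩, ?_⟩⟩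
      · simp only
        rw [← h5]
        ring
      · simp only [fcb_f, fcb_d, Prod.mk.injEq]
        constructor
        · trivial
        · ring
  · rw [Set.eq_empty_iff_forall_notMem]
    intro p hp
    obtain ⟨-, -, -, -, -, -, h1⟩ := key p hp
    exact h2m h1

theorem cnt_zero_step (l : ℕ) (hl : Odd l) (n : ℕ) (x y : ℤ) (hx : Odd x) (hy : Odd y)
    (h : x ^ 2 + l * y ^ 2 = 2 ^ (n + 2)) (hn : 1 ≤ n) (m : ℕ) :
    cnt l x y 0 (2 * m) + (if 2 ∣ m then cnt l x y 0 (m / 2) else 0) = 2 * cnt l x y 1 m := by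
  have hl1 : 1 ≤ l := hl.pos
  have hcnt : ∀ i r : ℕ, cnt l x y i r = (fcb_S l x y i r).ncard := fun i r => rfl
  have hfin : ∀ i r : ℕ, (fcb_S l x y i r).Finite := fun i r => cnt_finite l hl1 x y i r
  have hA := fcb_union l n x y h hn m
  have hI := fcb_inter l n x y hx hy h m
  have hU := Set.ncard_union_add_ncard_inter (fcb_S l x y 1 m) (fcb_f '' fcb_S l x y 1 m)
    (hfin _ _) ((hfin _ _).image _)
  rw [← hA, hI] at hU
  simp only [hcnt]
  rw [Set.ncard_image_of_injective _ fcb_f_inj, ← two_mul] at hU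
  rw [← hU]
  congr 1
  split_ifs with h2m
  · rw [Set.ncard_image_of_injective _ fcb_d_inj]
  · rw [Set.ncard_empty]

theorem cnt_top (l : ℕ) (hl : Odd l) (n : ℕ) (x y : ℤ) (hx : Odd x) (hy : Odd y)
    (h : x ^ 2 + l * y ^ 2 = 2 ^ (n + 2)) (m : ℕ) : cnt l x y n m = cnt l x y 0 m := by
  have hcnt : ∀ i r : ℕ, cnt l x y i r = (fcb_S l x y i r).ncard := fun i r => rfl
  have hl' : Odd (l : ℤ) := by exact_mod_cast hl
  rw [hcnt, hcnt]
  symm
  have hpar : ∀ u v : ℤ, (2 : ℤ) ^ (0 + 1) ∣ u * y - x * v →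
      (∃ a, x * u - l * y * v = 2 * a) ∧ ∃ b, x * v + y * u = 2 * b := by
    intro u v huv
    have h1 : Even (u * y - x * v) := by
      obtain ⟨s, hs⟩ := huv
      rw [hs]
      simp
    have hiff : Even u ↔ Even v := by
      rw [Int.even_sub, Int.even_mul, Int.even_mul] at h1
      have hx' := Int.not_even_iff_odd.2 hx
      have hy' := Int.not_even_iff_odd.2 hy
      tauto
    constructor
    · have : Even (x * u - l * y * v) := by
        rw [Int.even_sub, Int.even_mul, Int.even_mul, Int.even_mul]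
        have hx' := Int.not_even_iff_odd.2 hx
        have hy' := Int.not_even_iff_odd.2 hy
        have hl'' := Int.not_even_iff_odd.2 hl'
        tauto
      obtain ⟨a, ha⟩ := this.two_dvd
      exact ⟨a, ha⟩
    · have : Even (x * v + y * u) := by
        rw [Int.even_add, Int.even_mul, Int.even_mul]
        have hx' := Int.not_even_iff_odd.2 hx
        have hy' := Int.not_even_iff_odd.2 hy
        tauto
      obtain ⟨b, hb⟩ := this.two_dvd
      exact ⟨b, hb⟩
  have hpow : (2 : ℤ) ^ (n + 2) ≠ 0 := pow_ne_zero _ (by norm_num)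
  have hpow1 : (2 : ℤ) ^ (n + 1) ≠ 0 := pow_ne_zero _ (by norm_num)
  refine Set.ncard_congr (fun p _ => ((x * p.1 - l * y * p.2) / 2, (x * p.2 + y * p.1) / 2)) ?_ ?_ ?_
  · rintro ⟨u, v⟩ ⟨h1, h2⟩
    simp only at h1 h2 ⊢
    obtain ⟨⟨a, ha⟩, ⟨b, hb⟩⟩ := hpar u v h1
    rw [ha, hb, Int.mul_ediv_cancel_left _ (by norm_num), Int.mul_ediv_cancel_left _ (by norm_num)]
    refine ⟨⟨-v, ?_⟩, ?_⟩
    · simp only
      have : (2 : ℤ) * (a * y - x * b) = 2 * (2 ^ (n + 1) * -v) := by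
        have e1 : (2 : ℤ) * (a * y - x * b) = (2 * a) * y - x * (2 * b) := by ring
        rw [e1, ← ha, ← hb]
        have e2 : (2 : ℤ) * (2 ^ (n + 1) * -v) = -(2 ^ (n + 2) * v) := by ring
        rw [e2, ← h]
        ring
      exact mul_left_cancel₀ (by norm_num) this
    · simp only
      have : (4 : ℤ) * (a ^ 2 + l * b ^ 2) = 4 * (2 ^ (n + 2) * m) := by
        have e1 : (4 : ℤ) * (a ^ 2 + l * b ^ 2) = (2 * a) ^ 2 + l * (2 * b) ^ 2 := by ring
        rw [e1, ← ha, ← hb]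
        have e2 : (4 : ℤ) * (2 ^ (n + 2) * m) = (x ^ 2 + l * y ^ 2) * (u ^ 2 + l * v ^ 2) := by
          rw [h, h2]
          ring
        rw [e2]
        ring
      exact mul_left_cancel₀ (by norm_num) this
  · rintro ⟨u, v⟩ ⟨u₂, v₂⟩ ⟨h1, -⟩ ⟨h2, -⟩ he
    simp only [Prod.mk.injEq] at h1 h2 he
    obtain ⟨⟨a, ha⟩, ⟨b, hb⟩⟩ := hpar u v h1
    obtain ⟨⟨a₂, ha₂⟩, ⟨b₂, hb₂⟩⟩ := hpar u₂ v₂ h2
    rw [ha, hb, ha₂, hb₂, Int.mul_ediv_cancel_left _ (by norm_num),
      Int.mul_ediv_cancel_left _ (by norm_num), Int.mul_ediv_cancel_left _ (by norm_num),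
      Int.mul_ediv_cancel_left _ (by norm_num)] at he
    obtain ⟨rfl, rfl⟩ := he
    have e1 : (2 : ℤ) ^ (n + 2) * u = 2 ^ (n + 2) * u₂ := by
      rw [← h]
      linear_combination x * (ha - ha₂) + l * y * (hb - hb₂)
    have e2 : (2 : ℤ) ^ (n + 2) * v = 2 ^ (n + 2) * v₂ := by
      rw [← h]
      linear_combination x * (hb - hb₂) - y * (ha - ha₂)
    rw [mul_left_cancel₀ hpow e1, mul_left_cancel₀ hpow e2]
  · rintro ⟨u', v'⟩ ⟨h1, h2⟩
    simp only at h1 h2
    obtain ⟨s, hs⟩ := h1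
    have hcop : IsCoprime ((2 : ℤ) ^ (n + 1)) y := by
      apply IsCoprime.pow_left
      rw [Int.isCoprime_iff_gcd_eq_one]
      exact Int.isCoprime_iff_gcd_eq_one.1 (by
        obtain ⟨c, hc⟩ := hy
        exact ⟨-c, 1, by rw [hc]; ring⟩)
    have hd : (2 : ℤ) ^ (n + 1) ∣ x * u' + l * y * v' := by
      apply hcop.dvd_of_dvd_mul_left
      refine ⟨x * s + 2 * v', ?_⟩
      have e1 : y * (x * u' + l * y * v') = x * (u' * y - x * v') + (x ^ 2 + l * y ^ 2) * v' := by
        ring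
      rw [e1, hs, h]
      ring
    obtain ⟨u, hu⟩ := hd
    have hv : x * v' - y * u' = 2 ^ (n + 1) * -s := by linear_combination -hs
    have hA : x * u - l * y * (-s) = 2 * u' := by
      have : (2 : ℤ) ^ (n + 1) * (x * u - l * y * (-s)) = 2 ^ (n + 1) * (2 * u') := by
        have e1 : (2 : ℤ) ^ (n + 1) * (x * u - l * y * (-s)) =
            x * (2 ^ (n + 1) * u) - l * y * (2 ^ (n + 1) * -s) := by ring
        have e2 : (2 : ℤ) ^ (n + 1) * (2 * u') = (x ^ 2 + l * y ^ 2) * u' := by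
          rw [h]
          ring
        rw [e1, e2, ← hu, ← hv]
        ring
      exact mul_left_cancel₀ hpow1 this
    have hB : x * (-s) + y * u = 2 * v' := by
      have : (2 : ℤ) ^ (n + 1) * (x * (-s) + y * u) = 2 ^ (n + 1) * (2 * v') := by
        have e1 : (2 : ℤ) ^ (n + 1) * (x * (-s) + y * u) =
            x * (2 ^ (n + 1) * -s) + y * (2 ^ (n + 1) * u) := by ring
        have e2 : (2 : ℤ) ^ (n + 1) * (2 * v') = (x ^ 2 + l * y ^ 2) * v' := by
          rw [h]
          ring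
        rw [e1, e2, ← hu, ← hv]
        ring
      exact mul_left_cancel₀ hpow1 this
    refine ⟨(u, -s), ⟨⟨v' - x * -s, ?_⟩, ?_⟩, ?_⟩
    · simp only
      linear_combination hB
    · simp only
      have : (2 : ℤ) ^ (n + 2) * (u ^ 2 + l * (-s) ^ 2) = 2 ^ (n + 2) * (2 ^ (0 + 2) * m) := by
        have e1 : (2 : ℤ) ^ (n + 2) * (u ^ 2 + l * (-s) ^ 2) =
            (x * u - l * y * (-s)) ^ 2 + l * (x * (-s) + y * u) ^ 2 := by
          rw [← h]
          ring
        rw [e1, hA, hB]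
        linear_combination 4 * h2
      exact mul_left_cancel₀ hpow this
    · simp only [Prod.mk.injEq]
      rw [hA, hB]
      constructor
      · exact Int.mul_ediv_cancel_left _ (by norm_num)
      · exact Int.mul_ediv_cancel_left _ (by norm_num)

private theorem fcb_v0 (l : ℕ) (hl : 17 ≤ l) (u v N : ℤ) (hN : N ≤ 16)
    (h : u ^ 2 + l * v ^ 2 = N) : v = 0 := by
  by_contra h0
  have h1 : 1 ≤ v ^ 2 := by
    have := Int.one_le_abs h0
    rw [← sq_abs]
    nlinarith
  have h2 : (17 : ℤ) ≤ l := by exact_mod_cast hl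
  nlinarith [sq_nonneg u]

theorem cnt_small (l : ℕ) (hl : 17 ≤ l) (x y : ℤ) (hy : Odd y) :
    cnt l x y 0 0 = 1 ∧ cnt l x y 1 0 = 1 ∧ cnt l x y 0 1 = 2 ∧ cnt l x y 1 1 = 0 ∧
      cnt l x y 0 2 = 0 ∧ cnt l x y 1 2 = 2 := by
  have hcnt : ∀ i r : ℕ, cnt l x y i r = (fcb_S l x y i r).ncard := fun i r => rfl
  simp only [hcnt]
  have hzero : ∀ j : ℕ, fcb_S l x y j 0 = {((0 : ℤ), (0 : ℤ))} := by
    intro j
    ext ⟨u, v⟩
    rw [Set.mem_singleton_iff, Prod.mk.injEq]
    constructor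
    · rintro ⟨-, h2⟩
      simp only [Nat.cast_zero, mul_zero] at h2
      have hv := fcb_v0 l hl u v 0 (by norm_num) h2
      subst hv
      refine ⟨?_, rfl⟩
      have : u ^ 2 = 0 := by linear_combination h2
      exact pow_eq_zero_iff (by norm_num) |>.1 this
    · rintro ⟨rfl, rfl⟩
      exact ⟨by simp, by simp⟩
  refine ⟨?_, ?_, ?_, ?_, ?_, ?_⟩
  · rw [hzero, Set.ncard_singleton]
  · rw [hzero, Set.ncard_singleton]
  · have : fcb_S l x y 0 1 = {((2 : ℤ), (0 : ℤ)), (-2, 0)} := by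
      ext ⟨u, v⟩
      rw [Set.mem_insert_iff, Set.mem_singleton_iff, Prod.mk.injEq, Prod.mk.injEq]
      constructor
      · rintro ⟨-, h2⟩
        simp only [Nat.cast_one, mul_one] at h2
        have hv := fcb_v0 l hl u v _ (by norm_num) h2
        subst hv
        have h3 : (u - 2) * (u + 2) = 0 := by linear_combination h2
        rcases mul_eq_zero.1 h3 with h4 | h4
        · left; exact ⟨by omega, rfl⟩
        · right; exact ⟨by omega, rfl⟩
      · rintro (⟨rfl, rfl⟩ | ⟨rfl, rfl⟩)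
        · exact ⟨⟨y, by ring⟩, by norm_num⟩
        · exact ⟨⟨-y, by ring⟩, by norm_num⟩
    rw [this, Set.ncard_pair]
    simp
  · have : fcb_S l x y 1 1 = ∅ := by
      rw [Set.eq_empty_iff_forall_notMem]
      rintro ⟨u, v⟩ ⟨-, h2⟩
      simp only [Nat.cast_one, mul_one] at h2
      have hv := fcb_v0 l hl u v _ (by norm_num) h2
      subst hv
      have h3 : u ^ 2 = 8 := by linear_combination h2
      have h4 : u ≤ 2 := by nlinarith
      have h5 : -2 ≤ u := by nlinarith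
      interval_cases u <;> omega
    rw [this, Set.ncard_empty]
  · have : fcb_S l x y 0 2 = ∅ := by
      rw [Set.eq_empty_iff_forall_notMem]
      rintro ⟨u, v⟩ ⟨-, h2⟩
      simp only [Nat.cast_ofNat] at h2
      have hv := fcb_v0 l hl u v _ (by norm_num) h2
      subst hv
      have h3 : u ^ 2 = 8 := by linear_combination h2
      have h4 : u ≤ 2 := by nlinarith
      have h5 : -2 ≤ u := by nlinarith
      interval_cases u <;> omega
    rw [this, Set.ncard_empty]
  · have : fcb_S l x y 1 2 = {((4 : ℤ), (0 : ℤ)), (-4, 0)} := by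
      ext ⟨u, v⟩
      rw [Set.mem_insert_iff, Set.mem_singleton_iff, Prod.mk.injEq, Prod.mk.injEq]
      constructor
      · rintro ⟨-, h2⟩
        simp only [Nat.cast_ofNat] at h2
        have hv := fcb_v0 l hl u v _ (by norm_num) h2
        subst hv
        have h3 : (u - 4) * (u + 4) = 0 := by linear_combination h2
        rcases mul_eq_zero.1 h3 with h4 | h4
        · left; exact ⟨by omega, rfl⟩
        · right; exact ⟨by omega, rfl⟩
      · rintro (⟨rfl, rfl⟩ | ⟨rfl, rfl⟩)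
        · exact ⟨⟨y, by ring⟩, by norm_num⟩
        · exact ⟨⟨-y, by ring⟩, by norm_num⟩
    rw [this, Set.ncard_pair]
    simp

end MT2
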