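import Pool.Agent.Lib_MP_bfd926_fm.FVl

/-!
# The degrees of the roots

`deg_le`: let `K` be an algebraic closure of `F = ZMod l`, `g` an irreducible factor of
`(VL F n).comp (C c⁻¹ * X) - 2`, `μ ∈ K` a root of `g`. Then `ν = μ / c` satisfies `(VL K n).eval ν = 2`, so
`ν = z + z⁻¹`, `z ^ n = 1` (`vl_root`, `vl_map`). If `z = 1` then `μ = 2 c` and `g` is associated to `X - C (2 c)`.
Otherwise `z` has order `n`. Let `d = g.natDegree ≥ 1` (the degree of `F(μ) = F(ν)` over `F`); then `ν ^ (l ^ d) = ν`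
(`FiniteField.pow_card_pow`, or the field `F(ν)` has `l ^ d` elements), and `ν ^ (l ^ d) = z ^ (l ^ d) + z ^ (-l ^ d)`
(Frobenius), so `z ^ (l ^ d) = z` or `z ^ (l ^ d) = z⁻¹` (`(u - z) (u - z⁻¹) = 0` for `u = z ^ (l ^ d)`), i.e.
`n ∣ l ^ d - 1` or `n ∣ l ^ d + 1`. So `d ≥ B`.

`exists_factor`: let `m` be the monic generator of the ideal of all `p ∈ F[X]` with `p(T) v = 0`
(`v ≠ 0`, so `m` is not a unit; `F[X]` is a principal ideal domain). `m` divides `G = (VL F n).comp (C c⁻¹ * X) - 2`.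
If `m` has an irreducible factor which is not associated to `X - C (2 c)` it has degree `≥ B` by `deg_le`. Otherwise
`m = (X - C (2 c)) ^ e`, `e ≥ 1`; as the derivative of `G` at `2 c` is `c⁻¹ * n ^ 2 ≠ 0` (`vl_der`) the square of
`X - C (2 c)` does not divide `G`, so `e = 1` and `T v = 2 c v`, a contradiction.
-/

open Polynomial

namespace MT2

private theorem fdeg_map (R S : Type) [CommRing R] [CommRing S] (f : R →+* S) (n : ℕ) :
    (VL R n).map f = VL S n := by
  rw [← vl_map R n, ← vl_map S n, Polynomial.map_map]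
  congr 1
  exact RingHom.ext_int _ _

private theorem fdeg_pow (l : ℕ) [Fact l.Prime] (g : (ZMod l)[X]) [Fact (Irreducible g)] :
    (AdjoinRoot.root g) ^ (l ^ g.natDegree) = AdjoinRoot.root g := by
  have hg : Irreducible g := Fact.out
  have : Module.Finite (ZMod l) (AdjoinRoot g) :=
    (AdjoinRoot.powerBasis hg.ne_zero).finite
  have : Finite (AdjoinRoot g) := Module.finite_of_finite (ZMod l)
  have := Fintype.ofFinite (AdjoinRoot g)
  have h1 : Fintype.card (AdjoinRoot g) = l ^ g.natDegree := by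
    rw [Module.card_eq_pow_finrank (K := ZMod l) (V := AdjoinRoot g), ZMod.card,
      (AdjoinRoot.powerBasis hg.ne_zero).finrank, AdjoinRoot.powerBasis_dim]
  rw [← h1]
  exact FiniteField.pow_card _

theorem deg_le (l : ℕ) [Fact l.Prime] (n B : ℕ) (hn : n.Prime) (c : ZMod l) (hc : c ≠ 0)
    (hB : ∀ i, 0 < i → i < B → ¬ (n : ℤ) ∣ (l : ℤ) ^ i - 1 ∧ ¬ (n : ℤ) ∣ (l : ℤ) ^ i + 1)
    (g : (ZMod l)[X]) (hg : Irreducible g)
    (hd : g ∣ (VL (ZMod l) n).comp (C c⁻¹ * X) - 2) :
    Associated g (X - C (2 * c)) ∨ B ≤ g.natDegree := by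
  have : Fact (Irreducible g) := ⟨hg⟩
  let K := AlgebraicClosure (AdjoinRoot g)
  let φ : ZMod l →+* K := (algebraMap (AdjoinRoot g) K).comp (AdjoinRoot.of g)
  have : CharP K l := charP_of_injective_ringHom φ.injective l
  set μ : K := algebraMap (AdjoinRoot g) K (AdjoinRoot.root g) with hμ
  have hgμ : g.eval₂ φ μ = 0 := by
    have := AdjoinRoot.eval₂_root g
    have h2 := congrArg (algebraMap (AdjoinRoot g) K) this
    rw [Polynomial.hom_eval₂, map_zero] at h2
    exact h2
  obtain ⟨q, hq⟩ := hd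
  have h3 : (VL K n).eval (φ c⁻¹ * μ) = 2 := by
    have h4 : ((VL (ZMod l) n).comp (C c⁻¹ * X) - 2).eval₂ φ μ = 0 := by
      rw [hq, Polynomial.eval₂_mul, hgμ, zero_mul]
    rw [Polynomial.eval₂_sub, Polynomial.eval₂_comp] at h4
    have h5 : (C c⁻¹ * X : (ZMod l)[X]).eval₂ φ μ = φ c⁻¹ * μ := by
      simp
    rw [h5] at h4
    have h6 : (2 : (ZMod l)[X]).eval₂ φ μ = 2 := by
      have : (2 : (ZMod l)[X]) = C 2 := (map_ofNat C 2).symm
      rw [this, Polynomial.eval₂_C, map_ofNat]
    rw [h6, ← Polynomial.eval_map, fdeg_map] at h4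
    linear_combination h4
  obtain ⟨z, hz0, hzn, hz⟩ := vl_root h3
  by_cases hz1 : z = 1
  · left
    have h7 : φ c⁻¹ * μ = 2 := by
      rw [hz, hz1]
      norm_num
    have hφc : φ c ≠ 0 := by
      rw [Ne, map_eq_zero]
      exact hc
    have h8 : μ = φ (2 * c) := by
      rw [map_mul, map_ofNat]
      rw [map_inv₀] at h7
      have h7' := (inv_mul_eq_iff_eq_mul₀ hφc).1 h7
      linear_combination h7'
    have h9 : g.eval (2 * c) = 0 := by
      have : φ (g.eval (2 * c)) = 0 := by
        rw [← Polynomial.eval₂_hom, ← h8]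
        exact hgμ
      exact (map_eq_zero φ).1 this
    have h10 : (X - C (2 * c)) ∣ g := Polynomial.dvd_iff_isRoot.2 h9
    exact ((Polynomial.irreducible_X_sub_C (2 * c)).associated_of_dvd hg h10).symm
  · right
    by_contra hlt
    push Not at hlt
    have : Fact n.Prime := ⟨hn⟩
    have hord : orderOf z = n := orderOf_eq_prime hzn hz1
    have hdpos : 0 < g.natDegree := hg.natDegree_pos
    obtain ⟨hA, hB'⟩ := hB _ hdpos hlt
    set d := g.natDegree with hdd
    have hμp : μ ^ (l ^ d) = μ := by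
      rw [hμ, ← map_pow, fdeg_pow]
    have hcp : (φ c⁻¹) ^ (l ^ d) = φ c⁻¹ := by
      rw [← map_pow, ZMod.pow_card_pow]
    have h11 : (z + z⁻¹) ^ (l ^ d) = z + z⁻¹ := by
      rw [← hz, mul_pow, hμp, hcp]
    rw [add_pow_char_pow, inv_pow] at h11
    set u := z ^ (l ^ d) with hu
    have hu0 : u ≠ 0 := pow_ne_zero _ hz0
    have h12 : (u - z) * (u * z - 1) = 0 := by
      linear_combination (u * z) * h11 + u * (mul_inv_cancel₀ hz0) - z * (mul_inv_cancel₀ hu0)
    have hunit : ∀ k : ℤ, z ^ k = 1 → (n : ℤ) ∣ k := by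
      intro k hk
      have h13 : (Units.mk0 z hz0) ^ k = 1 := by
        ext
        simpa using hk
      have h14 := orderOf_dvd_iff_zpow_eq_one.2 h13
      rw [← orderOf_units, Units.val_mk0, hord] at h14
      exact h14
    rcases mul_eq_zero.1 h12 with h | h
    · apply hA
      apply hunit
      have : z ^ ((l : ℤ) ^ d - 1) = u * z⁻¹ := by
        rw [zpow_sub₀ hz0, zpow_one, div_eq_mul_inv, hu]
        congr 1
        rw [← zpow_natCast]
        push_cast
        rfl
      rw [this, sub_eq_zero.1 h, mul_inv_cancel₀ hz0]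
    · apply hB'
      apply hunit
      have : z ^ ((l : ℤ) ^ d + 1) = u * z := by
        rw [zpow_add₀ hz0, zpow_one, hu]
        congr 1
        rw [← zpow_natCast]
        push_cast
        rfl
      rw [this]
      exact sub_eq_zero.1 h

/-- The ideal of all polynomials `p` with `p(T) v = 0`. -/
private def fdegIdeal {F : Type} [Field F] {V : Type} [AddCommGroup V] [Module F V] (T : Module.End F V)
    (v : V) : Ideal F[X] where
  carrier := {p | aeval T p v = 0}
  add_mem' := by
    intro a b ha hb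
    simp only [Set.mem_ofPred_eq] at *
    rw [map_add, LinearMap.add_apply, ha, hb, add_zero]
  zero_mem' := by simp
  smul_mem' := by
    intro a b hb
    simp only [Set.mem_ofPred_eq, smul_eq_mul] at *
    rw [map_mul, Module.End.mul_apply, hb, map_zero]

theorem exists_factor (l : ℕ) [Fact l.Prime] (n B : ℕ) (hn : n.Prime) (hln : ¬ l ∣ n)
    (c : ZMod l) (hc : c ≠ 0)
    (hB : ∀ i, 0 < i → i < B → ¬ (n : ℤ) ∣ (l : ℤ) ^ i - 1 ∧ ¬ (n : ℤ) ∣ (l : ℤ) ^ i + 1)
    {V : Type} [AddCommGroup V] [Module (ZMod l) V] (T : Module.End (ZMod l) V) (v : V)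
    (hv : aeval T ((VL (ZMod l) n).comp (C c⁻¹ * X) - 2) v = 0) (hv2 : T v ≠ (2 * c) • v) :
    ∃ g : (ZMod l)[X], Irreducible g ∧ B ≤ g.natDegree ∧
      ∀ P : (ZMod l)[X], aeval T P v = 0 → g ∣ P := by
  set G : (ZMod l)[X] := (VL (ZMod l) n).comp (C c⁻¹ * X) - 2 with hG
  set I := fdegIdeal T v with hI
  have hmemI : ∀ p : (ZMod l)[X], p ∈ I ↔ aeval T p v = 0 := fun p => Iff.rfl
  set m := Submodule.IsPrincipal.generator I with hm
  have hmI : m ∈ I := Submodule.IsPrincipal.generator_mem I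
  have hmd : ∀ p, p ∈ I → m ∣ p := fun p hp => (Submodule.IsPrincipal.mem_iff_generator_dvd I).1 hp
  have hder : (derivative G).eval (2 * c) ≠ 0 := by
    have h1 : (derivative G).eval (2 * c) = (n : ZMod l) ^ 2 * c⁻¹ := by
      rw [hG, derivative_sub, derivative_comp]
      have h2 : derivative (2 : (ZMod l)[X]) = 0 := by
        have : (2 : (ZMod l)[X]) = C 2 := (map_ofNat C 2).symm
        rw [this, derivative_C]
      rw [h2, sub_zero, eval_mul, eval_comp]
      have h3 : (C c⁻¹ * X : (ZMod l)[X]).eval (2 * c) = 2 := by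
        simp only [eval_mul, eval_C, eval_X]
        field_simp
      rw [h3, vl_der]
      simp only [derivative_mul, derivative_C, derivative_X, zero_mul, zero_add, mul_one, eval_C]
      ring
    rw [h1]
    refine mul_ne_zero (pow_ne_zero _ ?_) (inv_ne_zero hc)
    rw [Ne, ZMod.natCast_eq_zero_iff]
    exact hln
  have hG0 : G ≠ 0 := by
    intro h
    apply hder
    rw [h]
    simp
  have hmG : m ∣ G := hmd G hv
  have hm0 : m ≠ 0 := by
    intro h
    rw [h, zero_dvd_iff] at hmG
    exact hG0 hmG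
  have hsmall : ¬ (X - C (2 * c)) ∈ I := by
    intro h
    rw [hmemI] at h
    apply hv2
    rw [map_sub, aeval_X, aeval_C, LinearMap.sub_apply, Module.algebraMap_end_apply] at h
    exact sub_eq_zero.1 h
  have hmu : ¬ IsUnit m := by
    intro h
    apply hsmall
    exact I.mem_of_dvd (h.dvd) hmI
  by_cases hall : ∀ g : (ZMod l)[X], Irreducible g → g ∣ m → Associated g (X - C (2 * c))
  · exfalso
    obtain ⟨g0, hg0, hg0m⟩ := WfDvdMonoid.exists_irreducible_factor hmu hm0
    have h1 : (X - C (2 * c)) ∣ m := ((hall g0 hg0 hg0m).dvd_iff_dvd_left).1 hg0m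
    obtain ⟨q, hq⟩ := h1
    have hq0 : q ≠ 0 := by
      rintro rfl
      rw [mul_zero] at hq
      exact hm0 hq
    by_cases hqu : IsUnit q
    · apply hsmall
      obtain ⟨w, hw⟩ := hqu.exists_right_inv
      have : (X - C (2 * c)) = w * m := by
        rw [hq]
        linear_combination (-(X - C (2 * c))) * hw
      rw [this]
      exact I.mul_mem_left _ hmI
    · obtain ⟨g1, hg1, hg1q⟩ := WfDvdMonoid.exists_irreducible_factor hqu hq0
      have hg1m : g1 ∣ m := by
        rw [hq]
        exact dvd_mul_of_dvd_right hg1q _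
      have h2 : (X - C (2 * c)) ∣ q := ((hall g1 hg1 hg1m).dvd_iff_dvd_left).1 hg1q
      obtain ⟨r, hr⟩ := h2
      obtain ⟨s, hs⟩ := hmG
      apply hder
      have h3 : G = (X - C (2 * c)) * ((X - C (2 * c)) * (r * s)) := by
        rw [hs, hq, hr]
        ring
      rw [h3]
      simp
  · push Not at hall
    obtain ⟨g, hg, hgm, hga⟩ := hall
    refine ⟨g, hg, ?_, ?_⟩
    · rcases deg_le l n B hn c hc hB g hg (hgm.trans hmG) with h | h
      · exact absurd h hga
      · exact h
    · intro P hP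
      exact hgm.trans (hmd P hP)

end MT2
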