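import Mathlib

/-!
# Irreducible factors over `ℚ` and modulo `l`

`P` is a product of monic irreducible polynomials over `ℤ` (a monic polynomial over `ℤ`: `WfDvdMonoid` / unique
factorization, normalized factors up to sign; or strong induction on the degree), so `g` divides the reduction of one
of them, `Q₀` (`g` is prime), and `Q₀.natDegree = (Q₀.map _).natDegree ≥ g.natDegree`. By Gauss's lemma
(`Polynomial.Monic.irreducible_iff_irreducible_map_fraction_map`) `Q₀.map (Int.castRingHom ℚ)` is irreducible.
-/

open Polynomial

namespace MT2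

theorem exists_rat_factor (l : ℕ) [Fact l.Prime] (P : ℤ[X]) (hP : P.Monic) (g : (ZMod l)[X])
    (hg : Irreducible g) (hd : g ∣ P.map (Int.castRingHom (ZMod l))) :
    ∃ Q : ℚ[X], Irreducible Q ∧ Q ∣ P.map (Int.castRingHom ℚ) ∧ g.natDegree ≤ Q.natDegree := by
  obtain ⟨n, hn⟩ : ∃ n, n = P.natDegree := ⟨_, rfl⟩
  induction n using Nat.strong_induction_on generalizing P with
  | _ n ih =>
    have hP1 : P ≠ 1 := by
      intro h
      rw [h, Polynomial.map_one] at hd
      exact hg.not_isUnit (isUnit_of_dvd_one hd)
    by_cases hirr : Irreducible P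
    · refine ⟨P.map (Int.castRingHom ℚ), ?_, dvd_rfl, ?_⟩
      · exact (Polynomial.Monic.irreducible_iff_irreducible_map_fraction_map (K := ℚ) hP).mp hirr
      · rw [hP.natDegree_map]
        have h1 := Polynomial.natDegree_le_of_dvd hd (hP.map (Int.castRingHom (ZMod l))).ne_zero
        rwa [hP.natDegree_map] at h1
    · rw [Polynomial.irreducible_of_monic hP hP1] at hirr
      push Not at hirr
      obtain ⟨a, b, ha, hb, hab, ha1, hb1⟩ := hirr
      have hda : 0 < a.natDegree := by
        rcases Nat.eq_zero_or_pos a.natDegree with h | h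
        · exact absurd (ha.natDegree_eq_zero.mp h) ha1
        · exact h
      have hdb : 0 < b.natDegree := by
        rcases Nat.eq_zero_or_pos b.natDegree with h | h
        · exact absurd (hb.natDegree_eq_zero.mp h) hb1
        · exact h
      have hdeg : a.natDegree + b.natDegree = P.natDegree := by
        rw [← hab, ha.natDegree_mul hb]
      rw [← hab, Polynomial.map_mul] at hd
      rcases hg.prime.dvd_or_dvd hd with h | h
      · obtain ⟨Q, hQ1, hQ2, hQ3⟩ := ih a.natDegree (by omega) a ha h rfl
        refine ⟨Q, hQ1, hQ2.trans ?_, hQ3⟩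
        rw [← hab, Polynomial.map_mul]
        exact dvd_mul_right _ _
      · obtain ⟨Q, hQ1, hQ2, hQ3⟩ := ih b.natDegree (by omega) b hb h rfl
        refine ⟨Q, hQ1, hQ2.trans ?_, hQ3⟩
        rw [← hab, Polynomial.map_mul]
        exact dvd_mul_left _ _

end MT2
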