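import Pool.Agent.Lib_MP_bfd926_fm.MDefs
import Pool.Agent.Lib_MP_bfd926_sq.STheta

/-!
# The series `psi`

`thO_psi`: `(2 m + 1) ^ 2 = 4 * (m ^ 2 + m) + 1`.
`psi_sq`: compare coefficients: `4 * psi ^ 2` counts the `(a, b) ∈ ℤ × ℤ` with `a ^ 2 + a + b ^ 2 + b = m` (every value
`m ^ 2 + m`, `m ≥ 0`, is taken by the two integers `m` and `- m - 1`), `2 * (dbl thA * dbl psi)` the
`(c, d) ∈ ℤ × ℤ` with `2 c ^ 2 + 2 d ^ 2 + 2 d = m`. If `a - b` is even put `a = c + d`, `b = d - c`; if `a - b` is odd put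
`a = c + d`, `b = c - d - 1`; in both cases `a ^ 2 + a + b ^ 2 + b = 2 c ^ 2 + 2 d ^ 2 + 2 d`, and both are bijections
from `ℤ × ℤ` onto the pairs with `a - b` even, respectively odd. (Compare the proofs of `th_sq`, `th_mul` in `STheta`.)
`al_sub_psi`: `al_sub`, `thO_psi`, and `psi ^ 4 = dbl thA ^ 2 * dbl (psi ^ 2) = dbl thA ^ 2 * dbl (dbl thA * dbl psi)`
(`dbl` is multiplicative: `PowerSeries.expand` is an algebra homomorphism).
-/

open PowerSeries

namespace MT2

/-! ### Auxiliary -/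

private lemma fpsi_dbl_even (φ : PowerSeries ℤ) (m : ℕ) :
    coeff (2 * m) (dbl φ) = coeff m φ := by
  unfold dbl
  exact coeff_expand_mul 2 two_ne_zero φ m

private lemma fpsi_dbl_odd (φ : PowerSeries ℤ) (m : ℕ) :
    coeff (2 * m + 1) (dbl φ) = 0 := by
  unfold dbl
  exact coeff_expand_of_not_dvd 2 two_ne_zero φ (by omega)

private lemma fpsi_dbl_mul (φ χ : PowerSeries ℤ) : dbl (φ * χ) = dbl φ * dbl χ := by
  unfold dbl
  rw [map_mul]

private lemma fpsi_dbl_two (φ : PowerSeries ℤ) : dbl (2 * φ) = 2 * dbl φ := by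
  rw [two_mul, two_mul]
  unfold dbl
  rw [map_add]

private lemma fpsi_coeff_two (m : ℕ) (φ : PowerSeries ℤ) : coeff m (2 * φ) = 2 * coeff m φ := by
  rw [two_mul, map_add, two_mul]

/-- The counting series of an exponent function. -/
private noncomputable def fpsi_g (e : ℤ → ℕ) : PowerSeries ℤ :=
  PowerSeries.mk fun m => ∑ n ∈ Finset.Icc (-(m : ℤ) - 1) (m + 1), if e n = m then 1 else 0

/-- The bound. -/
private def FB (e : ℤ → ℕ) : Prop := ∀ n : ℤ, n.natAbs ≤ e n + 1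

private lemma fpsi_ext {e : ℤ → ℕ} (he : FB e) {i m : ℕ} (h : i ≤ m) : coeff i (fpsi_g e) =
    ∑ n ∈ Finset.Icc (-(m : ℤ) - 1) (m + 1), if e n = i then 1 else 0 := by
  unfold fpsi_g
  rw [coeff_mk]
  refine Finset.sum_subset ?_ ?_
  · intro n hn
    rw [Finset.mem_Icc] at hn ⊢
    omega
  · intro n _ hn
    rw [if_neg]
    intro h1
    apply hn
    rw [Finset.mem_Icc]
    have := he n
    omega

/-- The pairs with `e a + f b = m`. -/
private noncomputable def fpsi_Q (e f : ℤ → ℕ) (m : ℕ) : Finset (ℤ × ℤ) :=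
  (Finset.Icc (-(m : ℤ) - 1) (m + 1) ×ˢ Finset.Icc (-(m : ℤ) - 1) (m + 1)).filter
    fun p => e p.1 + f p.2 = m

private lemma mem_fpsi_Q {e f : ℤ → ℕ} (he : FB e) (hf : FB f) {m : ℕ} {p : ℤ × ℤ} :
    p ∈ fpsi_Q e f m ↔ e p.1 + f p.2 = m := by
  unfold fpsi_Q
  rw [Finset.mem_filter, Finset.mem_product, Finset.mem_Icc, Finset.mem_Icc]
  constructor
  · exact fun h => h.2
  · intro h
    have h1 := he p.1
    have h2 := hf p.2
    refine ⟨⟨⟨?_, ?_⟩, ⟨?_, ?_⟩⟩, h⟩ <;> omega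

private lemma fpsi_mul {e f : ℤ → ℕ} (he : FB e) (hf : FB f) (m : ℕ) :
    coeff m (fpsi_g e * fpsi_g f) = ((fpsi_Q e f m).card : ℤ) := by
  rw [coeff_mul]
  have h1 : ∀ p ∈ Finset.HasAntidiagonal.antidiagonal m,
      coeff p.1 (fpsi_g e) * coeff p.2 (fpsi_g f) =
      ∑ a ∈ Finset.Icc (-(m : ℤ) - 1) (m + 1), ∑ b ∈ Finset.Icc (-(m : ℤ) - 1) (m + 1),
        if e a = p.1 ∧ f b = p.2 then (1 : ℤ) else 0 := by
    intro p hp
    rw [Finset.HasAntidiagonal.mem_antidiagonal] at hp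
    rw [fpsi_ext he (show p.1 ≤ m by omega), fpsi_ext hf (show p.2 ≤ m by omega),
      Finset.sum_mul_sum]
    refine Finset.sum_congr rfl fun a _ => Finset.sum_congr rfl fun b _ => ?_
    by_cases h1 : e a = p.1
    · by_cases h2 : f b = p.2
      · rw [if_pos h1, if_pos h2, if_pos ⟨h1, h2⟩, mul_one]
      · rw [if_neg h2, mul_zero, if_neg (fun h => h2 h.2)]
    · rw [if_neg h1, zero_mul, if_neg (fun h => h1 h.1)]
  rw [Finset.sum_congr rfl h1, Finset.sum_comm, Finset.card_eq_sum_ones, Nat.cast_sum]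
  unfold fpsi_Q
  rw [Finset.sum_filter, Finset.sum_product]
  refine Finset.sum_congr rfl fun a _ => ?_
  rw [Finset.sum_comm]
  refine Finset.sum_congr rfl fun b _ => ?_
  by_cases h : e a + f b = m
  · rw [if_pos h, Finset.sum_eq_single (e a, f b)]
    · rw [if_pos ⟨rfl, rfl⟩, Nat.cast_one]
    · intro p _ hp
      rw [if_neg]
      rintro ⟨h1, h2⟩
      exact hp (Prod.ext h1.symm h2.symm)
    · intro h1
      exact absurd (Finset.HasAntidiagonal.mem_antidiagonal.mpr h) h1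
  · rw [if_neg h]
    refine Finset.sum_eq_zero fun p hp => ?_
    rw [Finset.HasAntidiagonal.mem_antidiagonal] at hp
    rw [if_neg]
    rintro ⟨h1, h2⟩
    exact h (by rw [h1, h2, hp])

private lemma fpsi_dbl {e : ℤ → ℕ} (he : FB e) : dbl (fpsi_g e) = fpsi_g fun n => 2 * e n := by
  have he2 : FB fun n => 2 * e n := by
    intro n
    have := he n
    show n.natAbs ≤ 2 * e n + 1
    omega
  ext m
  obtain ⟨r, h | h⟩ := Nat.even_or_odd' m
  · subst h
    rw [fpsi_dbl_even, fpsi_ext he (show r ≤ 2 * r by omega),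
      fpsi_ext he2 (le_refl (2 * r))]
    refine Finset.sum_congr rfl fun n _ => ?_
    by_cases h : e n = r
    · rw [if_pos h, if_pos (by omega)]
    · rw [if_neg h, if_neg (by omega)]
  · subst h
    rw [fpsi_dbl_odd, fpsi_ext he2 (le_refl (2 * r + 1))]
    symm
    refine Finset.sum_eq_zero fun n _ => if_neg (by omega)

private def fpsi_s (n : ℤ) : ℕ := (n ^ 2).toNat
private def fpsi_p (n : ℤ) : ℕ := (n ^ 2 + n).toNat

private lemma cast_s (n : ℤ) : ((fpsi_s n : ℕ) : ℤ) = n ^ 2 := by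
  unfold fpsi_s
  exact Int.toNat_of_nonneg (sq_nonneg n)

private lemma cast_p (n : ℤ) : ((fpsi_p n : ℕ) : ℤ) = n ^ 2 + n := by
  unfold fpsi_p
  refine Int.toNat_of_nonneg ?_
  rcases le_or_gt 0 n with h | h
  · positivity
  · nlinarith

private lemma FB_s : FB fpsi_s := by
  intro n
  have h := cast_s n
  have h2 : |n| ≤ n ^ 2 + 1 := by
    rcases abs_cases n with ⟨h1, _⟩ | ⟨h1, _⟩ <;> rw [h1] <;> nlinarith [sq_nonneg (n - 1), sq_nonneg (n + 1)]
  rw [← Int.natCast_natAbs] at h2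
  omega

private lemma FB_p : FB fpsi_p := by
  intro n
  have h := cast_p n
  have h2 : |n| ≤ n ^ 2 + n + 1 := by
    rcases abs_cases n with ⟨h1, _⟩ | ⟨h1, _⟩ <;> rw [h1] <;> nlinarith [sq_nonneg (n - 1), sq_nonneg (n + 1)]
  rw [← Int.natCast_natAbs] at h2
  omega

private lemma FB_two {e : ℤ → ℕ} (he : FB e) : FB fun n => 2 * e n := by
  intro n
  have := he n
  show n.natAbs ≤ 2 * e n + 1
  omega

private lemma thA_g : thA = fpsi_g fpsi_s := by
  ext m
  rw [fpsi_ext FB_s le_rfl]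
  unfold thA
  rw [coeff_mk]
  by_cases h0 : m = 0
  · subst h0
    rw [if_pos rfl]
    decide
  rw [if_neg h0]
  by_cases h : ∃ n : ℕ, n ^ 2 = m
  · rw [if_pos h]
    obtain ⟨n, rfl⟩ := h
    have hn : n ≠ 0 := by
      rintro rfl
      exact h0 rfl
    rw [← Finset.sum_filter]
    have h2 : (Finset.Icc (-((n ^ 2 : ℕ) : ℤ) - 1) (((n ^ 2 : ℕ) : ℤ) + 1)).filter
        (fun a : ℤ => fpsi_s a = n ^ 2) = {(n : ℤ), -(n : ℤ)} := by
      ext a
      rw [Finset.mem_filter, Finset.mem_Icc, Finset.mem_insert, Finset.mem_singleton]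
      have hs := cast_s a
      constructor
      · rintro ⟨_, h3⟩
        rw [h3] at hs
        push_cast at hs
        exact sq_eq_sq_iff_eq_or_eq_neg.1 hs.symm
      · intro h3
        have h4 : a ^ 2 = ((n ^ 2 : ℕ) : ℤ) := by
          push_cast
          exact sq_eq_sq_iff_eq_or_eq_neg.2 h3
        have h5 : fpsi_s a = n ^ 2 := by
          have : ((fpsi_s a : ℕ) : ℤ) = ((n ^ 2 : ℕ) : ℤ) := by rw [hs, h4]
          exact_mod_cast this
        have h6 := FB_s a
        refine ⟨⟨?_, ?_⟩, h5⟩ <;> omega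
    rw [h2, Finset.sum_pair (by omega)]
    norm_num
  · rw [if_neg h]
    symm
    refine Finset.sum_eq_zero fun a _ => if_neg fun h1 => h ⟨a.natAbs, ?_⟩
    have hs := cast_s a
    rw [h1] at hs
    have : ((a.natAbs ^ 2 : ℕ) : ℤ) = (m : ℤ) := by
      push_cast
      rw [sq_abs, hs]
    exact_mod_cast this

private lemma psi_g : 2 * psi = fpsi_g fpsi_p := by
  ext m
  rw [fpsi_ext FB_p le_rfl, fpsi_coeff_two]
  unfold psi
  rw [coeff_mk]
  by_cases h : ∃ n : ℕ, n ^ 2 + n = m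
  · rw [if_pos h]
    obtain ⟨n, rfl⟩ := h
    rw [← Finset.sum_filter]
    have h2 : (Finset.Icc (-((n ^ 2 + n : ℕ) : ℤ) - 1) (((n ^ 2 + n : ℕ) : ℤ) + 1)).filter
        (fun a : ℤ => fpsi_p a = n ^ 2 + n) = {(n : ℤ), -(n : ℤ) - 1} := by
      ext a
      rw [Finset.mem_filter, Finset.mem_Icc, Finset.mem_insert, Finset.mem_singleton]
      have hs := cast_p a
      constructor
      · rintro ⟨_, h3⟩
        rw [h3] at hs
        push_cast at hs
        have h4 : (a - n) * (a + n + 1) = 0 := by linear_combination -hs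
        rcases mul_eq_zero.1 h4 with h5 | h5
        · left; omega
        · right; omega
      · intro h3
        have h4 : a ^ 2 + a = ((n ^ 2 + n : ℕ) : ℤ) := by
          push_cast
          rcases h3 with h3 | h3 <;> rw [h3] <;> ring
        have h5 : fpsi_p a = n ^ 2 + n := by
          have : ((fpsi_p a : ℕ) : ℤ) = ((n ^ 2 + n : ℕ) : ℤ) := by rw [hs, h4]
          exact_mod_cast this
        have h6 := FB_p a
        refine ⟨⟨?_, ?_⟩, h5⟩ <;> omega
    rw [h2, Finset.sum_pair (by omega)]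
    norm_num
  · rw [if_neg h]
    symm
    rw [mul_zero]
    refine Finset.sum_eq_zero fun a _ => if_neg fun h1 => h ?_
    have hs := cast_p a
    rw [h1] at hs
    rcases le_or_gt 0 a with h3 | h3
    · refine ⟨a.natAbs, ?_⟩
      have : ((a.natAbs ^ 2 + a.natAbs : ℕ) : ℤ) = (m : ℤ) := by
        push_cast
        rw [sq_abs, abs_of_nonneg h3, hs]
      exact_mod_cast this
    · refine ⟨(-a - 1).natAbs, ?_⟩
      have : (((-a - 1).natAbs ^ 2 + (-a - 1).natAbs : ℕ) : ℤ) = (m : ℤ) := by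
        push_cast
        rw [sq_abs, abs_of_nonneg (by omega), hs]
        ring
      exact_mod_cast this

private lemma fpsi_memPP {m : ℕ} {p : ℤ × ℤ} :
    p ∈ fpsi_Q fpsi_p fpsi_p m ↔ p.1 ^ 2 + p.1 + (p.2 ^ 2 + p.2) = m := by
  rw [mem_fpsi_Q FB_p FB_p, ← cast_p, ← cast_p]
  norm_cast

private lemma fpsi_memSP {m : ℕ} {p : ℤ × ℤ} :
    p ∈ fpsi_Q (fun n => 2 * fpsi_s n) (fun n => 2 * fpsi_p n) m ↔
      2 * p.1 ^ 2 + 2 * (p.2 ^ 2 + p.2) = m := by
  rw [mem_fpsi_Q (FB_two FB_s) (FB_two FB_p), ← cast_p, ← cast_s]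
  norm_cast

private lemma fpsi_even (m : ℕ) :
    ((fpsi_Q fpsi_p fpsi_p m).filter fun p => (p.1 - p.2) % 2 = 0).card =
      (fpsi_Q (fun n => 2 * fpsi_s n) (fun n => 2 * fpsi_p n) m).card := by
  refine Finset.card_bij' (fun p _ => ((p.1 - p.2) / 2, (p.1 + p.2) / 2))
    (fun p _ => (p.1 + p.2, p.2 - p.1)) ?_ ?_ ?_ ?_
  · rintro ⟨a, b⟩ hp
    rw [Finset.mem_filter, fpsi_memPP] at hp
    rw [fpsi_memSP]
    simp only at hp ⊢
    obtain ⟨c, hc⟩ : ∃ c, a - b = 2 * c := ⟨(a - b) / 2, by omega⟩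
    have ha : a = b + 2 * c := by omega
    subst ha
    have e1 : (b + 2 * c - b) / 2 = c := by omega
    have e2 : (b + 2 * c + b) / 2 = b + c := by omega
    rw [e1, e2]
    linear_combination hp.1
  · rintro ⟨c, d⟩ hp
    rw [fpsi_memSP] at hp
    rw [Finset.mem_filter, fpsi_memPP]
    simp only at hp ⊢
    refine ⟨?_, by omega⟩
    linear_combination hp
  · rintro ⟨a, b⟩ hp
    rw [Finset.mem_filter] at hp
    have h2 := hp.2
    simp only at h2
    refine Prod.ext ?_ ?_ <;> simp only <;> omega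
  · rintro ⟨c, d⟩ _
    refine Prod.ext ?_ ?_ <;> simp only <;> omega

private lemma fpsi_odd (m : ℕ) :
    ((fpsi_Q fpsi_p fpsi_p m).filter fun p => ¬ (p.1 - p.2) % 2 = 0).card =
      (fpsi_Q (fun n => 2 * fpsi_s n) (fun n => 2 * fpsi_p n) m).card := by
  refine Finset.card_bij' (fun p _ => ((p.1 + p.2 + 1) / 2, (p.1 - p.2 - 1) / 2))
    (fun p _ => (p.1 + p.2, p.1 - p.2 - 1)) ?_ ?_ ?_ ?_
  · rintro ⟨a, b⟩ hp
    rw [Finset.mem_filter, fpsi_memPP] at hp
    rw [fpsi_memSP]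
    simp only at hp ⊢
    obtain ⟨d, hd⟩ : ∃ d, a - b = 2 * d + 1 := ⟨(a - b - 1) / 2, by omega⟩
    have ha : a = b + 2 * d + 1 := by omega
    subst ha
    have e1 : (b + 2 * d + 1 + b + 1) / 2 = b + d + 1 := by omega
    have e2 : (b + 2 * d + 1 - b - 1) / 2 = d := by omega
    rw [e1, e2]
    linear_combination hp.1
  · rintro ⟨c, d⟩ hp
    rw [fpsi_memSP] at hp
    rw [Finset.mem_filter, fpsi_memPP]
    simp only at hp ⊢
    refine ⟨?_, by omega⟩
    linear_combination hp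
  · rintro ⟨a, b⟩ hp
    rw [Finset.mem_filter] at hp
    have h2 := hp.2
    simp only at h2
    refine Prod.ext ?_ ?_ <;> simp only <;> omega
  · rintro ⟨c, d⟩ _
    refine Prod.ext ?_ ?_ <;> simp only <;> omega

/-! ### The theorems -/

theorem thO_psi : thO = X * dbl (dbl psi) := by
  ext m
  rcases m with _ | m
  · rw [coeff_zero_X_mul]
    unfold thO
    rw [coeff_mk, if_neg]
    rintro ⟨n, h1, h2⟩
    rcases Nat.eq_zero_or_pos n with h | h
    · omega
    · exact absurd h2 (Nat.pos_iff_ne_zero.mp (pow_pos h 2))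
  · rw [coeff_succ_X_mul]
    have hodd : ∀ r : ℕ, r % 4 ≠ 0 → ¬ ∃ n : ℕ, n % 2 = 1 ∧ n ^ 2 = r + 1 := by
      rintro r hr ⟨n, h1, h2⟩
      obtain ⟨k, hk⟩ : ∃ k, n = 2 * k + 1 := ⟨n / 2, by omega⟩
      subst hk
      have : (2 * k + 1) ^ 2 = 4 * (k ^ 2 + k) + 1 := by ring
      omega
    obtain ⟨r, h | h⟩ := Nat.even_or_odd' m
    · subst h
      rw [fpsi_dbl_even]
      obtain ⟨s, h | h⟩ := Nat.even_or_odd' r
      · subst h
        rw [fpsi_dbl_even]
        unfold thO psi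
        rw [coeff_mk, coeff_mk]
        have hiff : (∃ n : ℕ, n % 2 = 1 ∧ n ^ 2 = 2 * (2 * s) + 1) ↔ ∃ n : ℕ, n ^ 2 + n = s := by
          constructor
          · rintro ⟨n, h1, h2⟩
            obtain ⟨k, hk⟩ : ∃ k, n = 2 * k + 1 := ⟨n / 2, by omega⟩
            subst hk
            refine ⟨k, ?_⟩
            have : (2 * k + 1) ^ 2 = 4 * (k ^ 2 + k) + 1 := by ring
            omega
          · rintro ⟨n, rfl⟩
            exact ⟨2 * n + 1, by omega, by ring⟩
        by_cases h3 : ∃ n : ℕ, n ^ 2 + n = s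
        · rw [if_pos h3, if_pos (hiff.2 h3)]
        · rw [if_neg h3, if_neg (fun h => h3 (hiff.1 h))]
      · subst h
        rw [fpsi_dbl_odd]
        unfold thO
        rw [coeff_mk, if_neg (hodd _ (by omega))]
    · subst h
      rw [fpsi_dbl_odd]
      unfold thO
      rw [coeff_mk, if_neg (hodd _ (by omega))]

theorem psi_sq : psi ^ 2 = dbl thA * dbl psi := by
  have key : fpsi_g fpsi_p * fpsi_g fpsi_p =
      2 * (fpsi_g (fun n => 2 * fpsi_s n) * fpsi_g fun n => 2 * fpsi_p n) := by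
    ext m
    rw [fpsi_coeff_two, fpsi_mul FB_p FB_p, fpsi_mul (FB_two FB_s) (FB_two FB_p),
      ← Finset.card_filter_add_card_filter_not (s := fpsi_Q fpsi_p fpsi_p m)
        (fun p => (p.1 - p.2) % 2 = 0), fpsi_even, fpsi_odd]
    push_cast
    ring
  rw [← fpsi_dbl FB_s, ← fpsi_dbl FB_p, ← thA_g, ← psi_g, fpsi_dbl_two] at key
  have h4 : (4 : PowerSeries ℤ) ≠ 0 := by
    intro h
    have := congrArg (constantCoeff (R := ℤ)) h
    rw [map_ofNat, map_zero] at this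
    exact absurd this (by norm_num)
  refine mul_left_cancel₀ h4 ?_
  linear_combination key

theorem al_sub_psi : al - be = 16 * (X * psi ^ 4) := by
  rw [al_sub, thO_psi]
  have h1 : psi ^ 4 = dbl thA ^ 2 * dbl (psi ^ 2) := by
    have e : psi ^ 4 = (psi ^ 2) ^ 2 := by ring
    rw [e]
    conv_lhs => rw [psi_sq]
    rw [pow_two, pow_two, pow_two, fpsi_dbl_mul]
    ring
  rw [h1, psi_sq, fpsi_dbl_mul]
  ring

end MT2
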