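import Pool.Agent.Lib_MP_bfd926_fm.FTh0
import Pool.Agent.Lib_MP_bfd926_fm.FPsi

/-!
# The principal theta series modulo `l`

For a power series over `ZMod l` one has `φ(X ^ l) = φ ^ l` (`PowerSeries.expand_char`, `PowerSeries.map_frobenius_expand`
or by coefficients / by truncation from `Polynomial.expand_char`; `ZMod.frobenius_zmod`, `ZMod.pow_card`). So
`th0_eq` gives `thA ^ (l + 1) + 4 * X ^ ((l + 1) / 4) * psi ^ (l + 1)` modulo `l`, `l + 1 = 8 * w`,
`thA ^ (8 w) = al ^ (2 w)`, `(16 * X * psi ^ 4) ^ (2 w) = 2 ^ (l + 1) * X ^ (2 w) * psi ^ (l + 1)`, `2 ^ (l + 1) = 4` in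
`ZMod l` (`ZMod.pow_card`), and `al_sub_psi`.
-/

open PowerSeries

namespace MT2

private theorem FTh1_frob (l : ℕ) [hl : Fact l.Prime] (h0 : l ≠ 0) (φ : PowerSeries (ZMod l)) :
    PowerSeries.expand l h0 φ = φ ^ l := by
  have h1 := MvPowerSeries.map_frobenius_expand (σ := Unit) (R := ZMod l) l h0 (f := φ)
  rw [ZMod.frobenius_zmod, MvPowerSeries.map_id] at h1
  exact h1

private theorem FTh1_two (l : ℕ) [hl : Fact l.Prime] : (2 : PowerSeries (ZMod l)) ^ l = 2 := by
  have h1 : (2 : PowerSeries (ZMod l)) = PowerSeries.C (2 : ZMod l) := (map_ofNat _ 2).symm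
  rw [h1, ← map_pow, ZMod.pow_card]

theorem th0_mod (l : ℕ) [Fact l.Prime] (w : ℕ) (hl : l + 1 = 8 * w) (x y : ℤ) (hx : Odd x)
    (hy : Odd y) :
    up (ZMod l) (th l x y 0) =
      up (ZMod l) al ^ (2 * w) + (up (ZMod l) al - up (ZMod l) be) ^ (2 * w) := by
  have h0 : l ≠ 0 := (Fact.out : l.Prime).ne_zero
  have hm : ∀ a b : PowerSeries ℤ, up (ZMod l) (a * b) = up (ZMod l) a * up (ZMod l) b :=
    fun a b => map_mul _ a b
  have hp : ∀ (a : PowerSeries ℤ) (n : ℕ), up (ZMod l) (a ^ n) = up (ZMod l) a ^ n :=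
    fun a n => map_pow _ a n
  have ha : ∀ a b : PowerSeries ℤ, up (ZMod l) (a + b) = up (ZMod l) a + up (ZMod l) b :=
    fun a b => map_add _ a b
  have hs : ∀ a b : PowerSeries ℤ, up (ZMod l) (a - b) = up (ZMod l) a - up (ZMod l) b :=
    fun a b => map_sub _ a b
  have hX : up (ZMod l) (X : PowerSeries ℤ) = X := PowerSeries.map_X _
  have h4 : up (ZMod l) (4 : PowerSeries ℤ) = 4 := map_ofNat (PowerSeries.map (Int.castRingHom (ZMod l))) 4
  have h16 : up (ZMod l) (16 : PowerSeries ℤ) = 16 := map_ofNat (PowerSeries.map (Int.castRingHom (ZMod l))) 16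
  have he : ∀ a : PowerSeries ℤ, up (ZMod l) (PowerSeries.expand l h0 a) = up (ZMod l) a ^ l := by
    intro a
    rw [← FTh1_frob l h0]
    exact PowerSeries.map_expand l h0 (Int.castRingHom (ZMod l)) a
  have hw : (l + 1) / 4 = 2 * w := by omega
  have hal : up (ZMod l) al = up (ZMod l) thA ^ 4 := by
    rw [al, hp]
  rw [th0_eq l (by omega) x y hx hy, ← hs, al_sub_psi, hw, hal]
  simp only [ha, hm, hp, he, hX, h4, h16]
  generalize up (ZMod l) thA = A
  generalize up (ZMod l) psi = B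
  have h1 : A * A ^ l = (A ^ 4) ^ (2 * w) := by
    rw [← pow_succ', hl, ← pow_mul]
    congr 1
    ring
  have h2 : B * B ^ l = (B ^ 4) ^ (2 * w) := by
    rw [← pow_succ', hl, ← pow_mul]
    congr 1
    ring
  have h3 : (16 : PowerSeries (ZMod l)) ^ (2 * w) = 4 := by
    have h5 : (16 : PowerSeries (ZMod l)) = 2 ^ 4 := by norm_num
    have h6 : 4 * (2 * w) = l + 1 := by omega
    rw [h5, ← pow_mul, h6, pow_succ, FTh1_two]
    norm_num
  rw [h1, h2, mul_pow, mul_pow, h3]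

end MT2
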