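import Pool.Agent.Lib_MP_bfd926_fm.MMul
import Pool.Agent.Lib_MP_bfd926_sq.SStr

/-!
# Reduction of modular forms with integral coefficients

Strong induction on `k` (compare `mod_struct` in `SStr`). If `k` is odd or `k = 2` the form is zero
(`ModularForm.levelOne_odd_weight_eq_zero`, `levelOne_weight_two_rank_zero`), so `ψ = 0` (`up ℂ` is injective). If
`k = 0` the form is constant (`levelOne_weight_zero…`, or `mod_struct 0 0`). Let `k ≥ 4` be even, `k = 4 * a + 6 * b`,
`G = E₄ ^ a * E₆ ^ b` with the expansion `up ℂ (ser4 ^ a * ser6 ^ b)` (`E4_q`, `E6_q`), `c` the constant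
coefficient of `ψ`. `f - c • G` is a cusp form with the expansion `up ℂ ψ'`, `ψ' = ψ - c * ser4 ^ a * ser6 ^ b`.
For `k < 12` it is zero (`CuspForm.rank_eq_zero_of_weight_lt_twelve`), for `k ≥ 12` it is `Δ` times a form `H` of
weight `k - 12` (`CuspForm.discriminantEquiv`, `qExpansion_eq_qExpansion_discriminant_mul`, `delta_q`), and the
expansion of `H` is integral: `be ^ 6 * ff = X * u`, `u` a unit of `ℤ⟦X⟧` (`ff_zero`, `ff_one`, `be_zero`), and
`ψ' = X * ψ''`. By induction `up (ZMod l) ψ'' * u⁻¹ ∈ Mk (k - 12)`, and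
`1728 * (be ^ 6 * ff) = ser4 ^ 3 - ser6 ^ 2` (see `delta_q` in `SMc`: from `ser4_eq`, `ser6_eq`, `ff_eq`), `1728` is
a unit modulo `l ≥ 5`; `mul_mem`.
-/

open UpperHalfPlane PowerSeries
open scoped MatrixGroups ModularForm

namespace MT2

private theorem MRed_up_mul {R : Type} [CommRing R] (a b : PowerSeries ℤ) :
    up R (a * b) = up R a * up R b := map_mul _ a b

private theorem MRed_up_pow {R : Type} [CommRing R] (a : PowerSeries ℤ) (n : ℕ) :
    up R (a ^ n) = up R a ^ n := map_pow _ a n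

private theorem MRed_up_add {R : Type} [CommRing R] (a b : PowerSeries ℤ) :
    up R (a + b) = up R a + up R b := map_add _ a b

private theorem MRed_up_sub {R : Type} [CommRing R] (a b : PowerSeries ℤ) :
    up R (a - b) = up R a - up R b := map_sub _ a b

private theorem MRed_up_smul {R : Type} [CommRing R] (c : ℤ) (a : PowerSeries ℤ) :
    up R (c • a) = (c : R) • up R a := by
  ext n
  rw [PowerSeries.coeff_smul, up, up, PowerSeries.coeff_map, PowerSeries.coeff_map, map_zsmul, map_zsmul,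
    zsmul_eq_mul, smul_eq_mul]

private theorem MRed_up_zero {R : Type} [CommRing R] : up R 0 = 0 :=
  map_zero (PowerSeries.map (Int.castRingHom R))

private theorem MRed_up_inj {a b : PowerSeries ℤ} (h : up ℂ a = up ℂ b) : a = b := by
  ext n
  have h1 := congrArg (PowerSeries.coeff n) h
  simp only [up, PowerSeries.coeff_map, eq_intCast] at h1
  exact_mod_cast h1

private theorem MRed_ser : (1728 : ℤ) • (be ^ 6 * ff) = ser4 ^ 3 - ser6 ^ 2 := by
  have h : ser4 ^ 3 - ser6 ^ 2 = 1728 * (be ^ 6 * ff) := by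
    unfold ser4 ser6
    linear_combination (-(108 * be ^ 4)) * ff_eq
  rw [h, zsmul_eq_mul]
  norm_num

theorem delta_mem (l : ℕ) [Fact l.Prime] (hl : 5 ≤ l) :
    up (ZMod l) (be ^ 6 * ff) ∈ Mk (ZMod l) 12 := by
  have hlp : l.Prime := Fact.out
  have h1 : ((1728 : ℤ) : ZMod l) ≠ 0 := by
    intro h
    have h2 : ((1728 : ℕ) : ZMod l) = 0 := by exact_mod_cast h
    rw [ZMod.natCast_eq_zero_iff] at h2
    have h3 : l ∣ 2 ^ 6 * 3 ^ 3 := by norm_num; exact h2
    rcases (Nat.Prime.dvd_mul hlp).mp h3 with h4 | h4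
    · have := Nat.le_of_dvd (by norm_num) (hlp.dvd_of_dvd_pow h4); omega
    · have := Nat.le_of_dvd (by norm_num) (hlp.dvd_of_dvd_pow h4); omega
  have h2 : up (ZMod l) (be ^ 6 * ff) =
      ((1728 : ℤ) : ZMod l)⁻¹ • (up (ZMod l) ser4 ^ 3 - up (ZMod l) ser6 ^ 2) := by
    rw [← MRed_up_pow, ← MRed_up_pow, ← MRed_up_sub, ← MRed_ser, MRed_up_smul, smul_smul,
      inv_mul_cancel₀ h1, one_smul]
  rw [h2]
  refine Submodule.smul_mem _ _ (Submodule.sub_mem _ ?_ ?_)
  · exact Submodule.subset_span ⟨3, 0, by norm_num, by rw [pow_zero, mul_one]⟩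
  · exact Submodule.subset_span ⟨0, 2, by norm_num, by rw [pow_zero, one_mul]⟩

private theorem MRed_zero {k : ℤ} (hk : k < 0 ∨ k = 2 ∨ Odd k) (H : ModularForm 𝒮ℒ k) : H = 0 := by
  rcases hk with hk | rfl | hk
  · exact rank_zero_iff_forall_zero.mp (ModularForm.levelOne_neg_weight_rank_zero hk) H
  · exact rank_zero_iff_forall_zero.mp ModularForm.levelOne_weight_two_rank_zero H
  · exact ModularForm.levelOne_odd_weight_eq_zero hk H

private theorem MRed_q_zero {k : ℤ} {H : ModularForm 𝒮ℒ k} (h : H = 0) : qExpansion 1 H = 0 := by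
  rw [h]; exact (ModularForm.qExpansion_eq_zero_iff one_pos one_mem_strictPeriods_SL _).mpr rfl

private theorem MRed_cc_ser4 : constantCoeff ser4 = 1 := by
  rw [ser4_eq, map_mul, map_pow, be_zero, map_add, map_mul, ← coeff_zero_eq_constantCoeff_apply ff,
    ff_zero]
  simp

private theorem MRed_cc_ser6 : constantCoeff ser6 = 1 := by
  rw [ser6_eq, map_mul, map_mul, map_pow, be_zero, map_sub, map_sub, map_mul, map_mul,
    ← coeff_zero_eq_constantCoeff_apply ff, ff_zero, be_zero, al_zero]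
  have : constantCoeff (2 : PowerSeries ℤ) = 2 := map_ofNat _ 2
  rw [this]
  simp

/-- `be ^ 6 * ff = X * u` with a unit `u`. -/
private theorem MRed_unit : ∃ u v : PowerSeries ℤ, be ^ 6 * ff = X * u ∧ u * v = 1 := by
  have h0 : constantCoeff (be ^ 6 * ff) = 0 := by
    rw [map_mul, ← coeff_zero_eq_constantCoeff_apply ff, ff_zero, mul_zero]
  obtain ⟨u, hu⟩ := PowerSeries.X_dvd_iff.mpr h0
  have h1 : constantCoeff u = 1 := by
    have h2 : coeff 1 (be ^ 6 * ff) = constantCoeff u := by
      rw [hu, ← coeff_zero_eq_constantCoeff_apply]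
      exact PowerSeries.coeff_succ_X_mul 0 u
    obtain ⟨w, hw⟩ := PowerSeries.X_dvd_iff.mpr (show constantCoeff ff = 0 by
      rw [← coeff_zero_eq_constantCoeff_apply]; exact ff_zero)
    have h3 : constantCoeff w = 1 := by
      rw [← ff_one, hw, ← coeff_zero_eq_constantCoeff_apply]
      exact (PowerSeries.coeff_succ_X_mul 0 w).symm
    have h4 : be ^ 6 * ff = X * (be ^ 6 * w) := by rw [hw]; ring
    rw [← h2, h4]
    have h5 : coeff 1 (X * (be ^ 6 * w)) = coeff 0 (be ^ 6 * w) := PowerSeries.coeff_succ_X_mul 0 _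
    rw [h5, coeff_zero_eq_constantCoeff_apply, map_mul, map_pow, be_zero, h3]
    norm_num
  refine ⟨u, PowerSeries.invOfUnit u 1, hu, PowerSeries.mul_invOfUnit u 1 ?_⟩
  rw [h1]; rfl

theorem red_mem (l : ℕ) [Fact l.Prime] (hl : 5 ≤ l) (k : ℕ) (f : ModularForm 𝒮ℒ (k : ℤ))
    (ψ : PowerSeries ℤ) (h : qExpansion 1 f = up ℂ ψ) : up (ZMod l) ψ ∈ Mk (ZMod l) k := by
  induction k using Nat.strong_induction_on generalizing ψ with
  | _ k ih =>
    by_cases hab : ∃ a b : ℕ, 4 * a + 6 * b = k
    · obtain ⟨a, b, hk⟩ := hab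
      -- the form `G`
      let G : ModularForm 𝒮ℒ (k : ℤ) :=
        ModularForm.mcast (by rw [← hk]; push_cast; ring) ((ModularForm.E₄.pow a).mul (ModularForm.E₆.pow b))
      have hG : qExpansion 1 G = up ℂ (ser4 ^ a * ser6 ^ b) := by
        have h1 : qExpansion 1 G = qExpansion 1 ((ModularForm.E₄.pow a).mul (ModularForm.E₆.pow b)) := rfl
        rw [h1, ModularForm.qExpansion_mul one_pos one_mem_strictPeriods_SL,
          ModularForm.qExpansion_pow one_pos one_mem_strictPeriods_SL,
          ModularForm.qExpansion_pow one_pos one_mem_strictPeriods_SL, E4_q, E6_q, MRed_up_mul,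
          MRed_up_pow, MRed_up_pow]
      obtain ⟨c, hc⟩ : ∃ c : ℤ, c = constantCoeff ψ := ⟨_, rfl⟩
      obtain ⟨ψ', hψ'⟩ : ∃ ψ' : PowerSeries ℤ, ψ' = ψ - c • (ser4 ^ a * ser6 ^ b) := ⟨_, rfl⟩
      have hψ : ψ = ψ' + c • (ser4 ^ a * ser6 ^ b) := by rw [hψ', sub_add_cancel]
      have hψ0 : constantCoeff ψ' = 0 := by
        rw [hψ', map_sub, map_zsmul, map_mul, map_pow, map_pow, MRed_cc_ser4, MRed_cc_ser6, ← hc]
        simp
      obtain ⟨D, hD⟩ : ∃ D : ModularForm 𝒮ℒ (k : ℤ), D = f - (c : ℂ) • G := ⟨_, rfl⟩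
      have hDq : qExpansion 1 D = up ℂ ψ' := by
        rw [hD, FunLike.coe_sub, ModularForm.qExpansion_sub one_pos one_mem_strictPeriods_SL, FunLike.coe_smul,
          ModularForm.qExpansion_smul one_pos one_mem_strictPeriods_SL, h, hG, hψ', MRed_up_sub, MRed_up_smul]
      have h0 : (qExpansion 1 D).coeff 0 = 0 := by
        rw [hDq, up, PowerSeries.coeff_map, coeff_zero_eq_constantCoeff_apply, hψ0, map_zero]
      have hdel := ModularForm.qExpansion_eq_qExpansion_discriminant_mul D h0
      rw [delta_q] at hdel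
      obtain ⟨H, hH⟩ : ∃ H, H = CuspForm.discriminantEquiv (ModularForm.toCuspForm D h0) := ⟨_, rfl⟩
      rw [← hH, hDq] at hdel
      have hser : up (ZMod l) (c • (ser4 ^ a * ser6 ^ b)) ∈ Mk (ZMod l) k := by
        rw [MRed_up_smul]
        refine Submodule.smul_mem _ _ (Submodule.subset_span ⟨a, b, hk, ?_⟩)
        rw [MRed_up_mul, MRed_up_pow, MRed_up_pow]
      rw [hψ, MRed_up_add]
      refine Submodule.add_mem _ ?_ hser
      rcases lt_or_ge k 12 with hk12 | hk12
      · have hH0 : qExpansion 1 H = 0 := MRed_q_zero (MRed_zero (Or.inl (by omega)) H)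
        rw [hH0, mul_zero] at hdel
        have h1 : ψ' = 0 := MRed_up_inj (by rw [hdel, MRed_up_zero])
        rw [h1, MRed_up_zero]
        exact Submodule.zero_mem _
      · let H' : ModularForm 𝒮ℒ ((k - 12 : ℕ) : ℤ) := ModularForm.mcast (by
          push_cast [Nat.cast_sub hk12]; ring) H
        have hH' : qExpansion 1 H' = qExpansion 1 H := rfl
        obtain ⟨u, v, hu, huv⟩ := MRed_unit
        obtain ⟨ψ'', hψ''⟩ := PowerSeries.X_dvd_iff.mpr hψ0
        have h1 : X * up ℂ ψ'' = X * (up ℂ u * qExpansion 1 H) := by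
          have h2 : up ℂ (X : PowerSeries ℤ) = X := by unfold up; exact PowerSeries.map_X _
          rw [hψ'', hu, MRed_up_mul, MRed_up_mul, h2, mul_assoc] at hdel
          exact hdel
        have h2 : up ℂ ψ'' = up ℂ u * qExpansion 1 H := mul_left_cancel₀ PowerSeries.X_ne_zero h1
        have h3 : qExpansion 1 H' = up ℂ (v * ψ'') := by
          rw [hH', MRed_up_mul, h2, ← mul_assoc, ← MRed_up_mul, mul_comm v u, huv]
          have : up ℂ (1 : PowerSeries ℤ) = 1 := map_one (PowerSeries.map (Int.castRingHom ℂ))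
          rw [this, one_mul]
        have h4 := ih (k - 12) (by omega) H' (v * ψ'') h3
        have h5 : ψ' = (be ^ 6 * ff) * (v * ψ'') := by
          rw [hψ'', hu]
          linear_combination (-(X * ψ'')) * huv
        have h6 := mul_mem (delta_mem l hl) h4
        have h7 : 12 + (k - 12) = k := by omega
        rw [h5, MRed_up_mul]
        rw [h7] at h6
        exact h6
    · have hf : f = 0 := MRed_zero (by
        rcases Nat.even_or_odd k with he | ho
        · right; left
          obtain ⟨m, hm⟩ := he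
          have hm1 : m = 1 := by
            by_contra hne
            apply hab
            rcases Nat.even_or_odd m with ⟨n, hn⟩ | ⟨n, hn⟩
            · exact ⟨n, 0, by omega⟩
            · exact ⟨n - 1, 1, by omega⟩
          subst hm1; subst hm; rfl
        · right; right; exact_mod_cast ho) f
      have h1 : ψ = 0 := MRed_up_inj (by rw [← h, MRed_q_zero hf, MRed_up_zero])
      rw [h1, MRed_up_zero]
      exact Submodule.zero_mem _

end MT2
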