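import Pool.Agent.Lib_MP_bfd926_fm.FGl
import Pool.Agent.Lib_MP_bfd926_fm.FTh1
import Pool.Agent.Lib_MP_bfd926_fm.MRed

/-!
# The principal theta series is a form of level one modulo `l`

`gl_sum`: `gleason` for `p = 1 + X ^ (8 w)` over `F = ZMod l`: the sum in `hinv` is
`(1 + X) ^ (8 w) + (1 - X) ^ (8 w) = (1 + X) * (1 + X ^ l) + (1 - X) * (1 - X ^ l) = 2 * (1 + X ^ (l + 1))`
(`8 w = l + 1`, `add_pow_char`), and `2 ^ (4 w) = 2 ^ ((l + 1) / 2) = 2` as `2` is a square modulo `l`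
(`l ≡ 7` modulo `8`; `ZMod.exists_sq_eq_two_iff`, `ZMod.euler_criterion`). All polynomials are in `F[X ^ 4]`, so
(`Polynomial.expand_injective`) `1 + X ^ (2 w) = ∑ C (y i) * (X * (1 - X) ^ 4) ^ i * (1 + 14 * X + X ^ 2) ^ (w - 3 * i)`.
Evaluate at `B * A⁻¹`, `A = up F al` (a unit, constant coefficient `1`), `B = up F al - up F be`, and multiply by
`A ^ (2 w)`: `A * B * (A - B) ^ 4 = 16 * be ^ 6 * ff` (`ff_eq`), `A ^ 2 + 14 * A * B + B ^ 2 = ser4` (definition).

`th0_mem`: `th0_mod`, `delta_mem`, `ser4_mem`, `pow_mem`, `mul_mem`: the weight of the `i`-th term is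
`12 * i + 4 * (w - 3 * i) = 4 * w`.
-/

open PowerSeries

namespace MT2

private lemma FGl2_two (l : ℕ) [hl0 : Fact l.Prime] (w : ℕ) (hl : l + 1 = 8 * w) :
    (2 : ZMod l) ≠ 0 ∧ (2 : ZMod l) ^ (4 * w) = 2 := by
  have hp := hl0.out
  have hl2 : l ≠ 2 := by omega
  have h8 : l % 8 = 7 := by omega
  have h2 : (2 : ZMod l) ≠ 0 := by
    have : ((2 : ℕ) : ZMod l) ≠ 0 := by
      rw [Ne, ZMod.natCast_eq_zero_iff]
      intro h
      have := Nat.le_of_dvd (by norm_num) h
      omega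
    exact_mod_cast this
  refine ⟨h2, ?_⟩
  have hsq : IsSquare (2 : ZMod l) := (ZMod.exists_sq_eq_two_iff hl2).2 (Or.inr h8)
  have h3 : (2 : ZMod l) ^ (l / 2) = 1 := (ZMod.euler_criterion l h2).1 hsq
  have e : 4 * w = l / 2 + 1 := by omega
  rw [e, pow_succ, h3, one_mul]

private lemma FGl2_poly (l : ℕ) [Fact l.Prime] (w : ℕ) (hl : l + 1 = 8 * w) :
    ∃ y : ℕ → ZMod l, (1 + Polynomial.X ^ (2 * w) : Polynomial (ZMod l)) =
      ∑ i ∈ Finset.range (w / 3 + 1), Polynomial.C (y i) *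
        ((Polynomial.X * (1 - Polynomial.X) ^ 4) ^ i *
          (1 + 14 * Polynomial.X + Polynomial.X ^ 2) ^ (w - 3 * i)) := by
  obtain ⟨h2, h2w⟩ := FGl2_two l w hl
  have hc : ∀ k, (1 + Polynomial.X ^ (8 * w) : Polynomial (ZMod l)).coeff k =
      (if k = 0 then 1 else 0) + (if k = 8 * w then 1 else 0) := by
    intro k
    rw [Polynomial.coeff_add, Polynomial.coeff_one, Polynomial.coeff_X_pow]
  obtain ⟨y, hy⟩ := gleason h2 w (1 + Polynomial.X ^ (8 * w)) (by
      refine (Polynomial.natDegree_add_le _ _).trans ?_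
      rw [Polynomial.natDegree_one, Polynomial.natDegree_X_pow]
      simp) (by
      intro k hk
      rw [hc, if_neg, if_neg, add_zero]
      · rintro rfl
        exact hk ⟨2 * w, by ring⟩
      · rintro rfl
        exact hk (dvd_zero _)) (by
      have h1 : ∀ k ∈ Finset.range (8 * w + 1),
          Polynomial.C ((1 + Polynomial.X ^ (8 * w) : Polynomial (ZMod l)).coeff k) *
            ((1 + Polynomial.X) ^ (8 * w - k) * (1 - Polynomial.X) ^ k) =
          (if k = 0 then (1 + Polynomial.X) ^ (8 * w - k) * (1 - Polynomial.X) ^ k else 0) +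
          (if k = 8 * w then (1 + Polynomial.X) ^ (8 * w - k) * (1 - Polynomial.X) ^ k else 0) := by
        intro k _
        rw [hc, map_add, add_mul]
        congr 1 <;> split_ifs <;> simp
      rw [Finset.sum_congr rfl h1, Finset.sum_add_distrib, Finset.sum_ite_eq' , Finset.sum_ite_eq',
        if_pos (Finset.mem_range.2 (by omega)), if_pos (Finset.mem_range.2 (by omega)), h2w]
      rw [Nat.sub_zero, Nat.sub_self, pow_zero, pow_zero, mul_one, one_mul, ← hl, pow_succ, pow_succ,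
        pow_succ, add_pow_char, sub_pow_char, one_pow]
      have h4 : (Polynomial.C (2 : ZMod l)) = 2 := by
        rw [show (2 : ZMod l) = 1 + 1 by norm_num, map_add, map_one]
        norm_num
      rw [h4]
      ring)
  refine ⟨y, Polynomial.expand_injective (R := ZMod l) (n := 4) (by norm_num) ?_⟩
  rw [map_add, map_one, map_pow, Polynomial.expand_X, ← pow_mul, show 4 * (2 * w) = 8 * w by ring, hy,
    map_sum]
  refine Finset.sum_congr rfl fun i _ => ?_
  have h14 : (Polynomial.expand (ZMod l) 4) 14 = 14 := map_ofNat _ 14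
  rw [map_mul, map_mul, map_pow, map_pow, map_mul, map_pow, map_sub, map_add, map_add, map_mul,
    map_pow, Polynomial.expand_X, map_one, h14, Polynomial.expand_C, ← pow_mul]

private lemma FGl2_hom {F S : Type} [Field F] [CommRing S] [Algebra F S] (w : ℕ) (y : ℕ → F)
    (h : (1 + Polynomial.X ^ (2 * w) : Polynomial F) =
      ∑ i ∈ Finset.range (w / 3 + 1), Polynomial.C (y i) *
        ((Polynomial.X * (1 - Polynomial.X) ^ 4) ^ i *
          (1 + 14 * Polynomial.X + Polynomial.X ^ 2) ^ (w - 3 * i)))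
    (A A' B : S) (hA : A * A' = 1) :
    A ^ (2 * w) + B ^ (2 * w) = ∑ i ∈ Finset.range (w / 3 + 1),
      y i • ((A * B * (A - B) ^ 4) ^ i * (A ^ 2 + 14 * A * B + B ^ 2) ^ (w - 3 * i)) := by
  have hz : A * (B * A') = B := by
    rw [mul_left_comm, hA, mul_one]
  have h1 := congrArg (Polynomial.aeval (B * A')) h
  have h14 : (Polynomial.aeval (R := F) (B * A')) (14 : Polynomial F) = 14 := map_ofNat _ 14
  simp only [map_add, map_one, map_pow, Polynomial.aeval_X, map_sum, map_mul, map_sub,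
    Polynomial.aeval_C, h14] at h1
  have h2 : A ^ (2 * w) + B ^ (2 * w) = A ^ (2 * w) * (1 + (B * A') ^ (2 * w)) := by
    rw [mul_add, mul_one, ← mul_pow, hz]
  rw [h2, h1, Finset.mul_sum]
  refine Finset.sum_congr rfl fun i hi => ?_
  have hi' : 3 * i ≤ w := by
    rw [Finset.mem_range] at hi
    omega
  have e : 2 * w = 6 * i + 2 * (w - 3 * i) := by omega
  have e1 : A * B * (A - B) ^ 4 = A ^ 6 * ((B * A') * (1 - B * A') ^ 4) := by
    have : A ^ 6 * ((B * A') * (1 - B * A') ^ 4) = A * (A * (B * A')) * (A - A * (B * A')) ^ 4 := by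
      ring
    rw [this, hz]
  have e2 : A ^ 2 + 14 * A * B + B ^ 2 = A ^ 2 * (1 + 14 * (B * A') + (B * A') ^ 2) := by
    have : A ^ 2 * (1 + 14 * (B * A') + (B * A') ^ 2) =
        A ^ 2 + 14 * A * (A * (B * A')) + (A * (B * A')) ^ 2 := by
      ring
    rw [this, hz]
  rw [e1, e2, Algebra.smul_def, mul_pow (A ^ 6), mul_pow (A ^ 2), ← pow_mul, ← pow_mul]
  conv_lhs => rw [e, pow_add]
  ring

private lemma FGl2_mul (R : Type) [CommRing R] (φ χ : PowerSeries ℤ) :
    up R (φ * χ) = up R φ * up R χ := by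
  unfold up
  rw [map_mul]

private lemma FGl2_pow (R : Type) [CommRing R] (φ : PowerSeries ℤ) (n : ℕ) :
    up R (φ ^ n) = up R φ ^ n := by
  unfold up
  rw [map_pow]

theorem gl_sum (l : ℕ) [Fact l.Prime] (w : ℕ) (hl : l + 1 = 8 * w) :
    ∃ y : ℕ → ZMod l, up (ZMod l) al ^ (2 * w) + (up (ZMod l) al - up (ZMod l) be) ^ (2 * w) =
      ∑ i ∈ Finset.range (w / 3 + 1),
        y i • ((16 * up (ZMod l) (be ^ 6 * ff)) ^ i * up (ZMod l) ser4 ^ (w - 3 * i)) := by
  obtain ⟨y, hy⟩ := FGl2_poly l w hl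
  refine ⟨y, ?_⟩
  set A := up (ZMod l) al with hA
  set b := up (ZMod l) be with hb
  have hunit : IsUnit A := by
    rw [PowerSeries.isUnit_iff_constantCoeff, hA]
    unfold up
    rw [← PowerSeries.coeff_zero_eq_constantCoeff_apply, PowerSeries.coeff_map,
      PowerSeries.coeff_zero_eq_constantCoeff_apply, al_zero]
    simp
  obtain ⟨A', hA'⟩ := hunit.exists_right_inv
  rw [FGl2_hom w y hy A A' (A - b) hA']
  refine Finset.sum_congr rfl fun i _ => ?_
  have e1 : A * (A - b) * (A - (A - b)) ^ 4 = 16 * up (ZMod l) (be ^ 6 * ff) := by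
    have h1 : up (ZMod l) (16 * ff * be ^ 2) = up (ZMod l) (al * (al - be)) := by rw [ff_eq]
    have h16 : up (ZMod l) 16 = 16 := by
      unfold up
      exact map_ofNat _ 16
    have hsub : up (ZMod l) (al - be) = A - b := by
      unfold up at hA hb ⊢
      rw [map_sub, hA, hb]
    rw [FGl2_mul, FGl2_mul, FGl2_mul, FGl2_pow, h16, hsub, ← hA, ← hb] at h1
    rw [FGl2_mul, FGl2_pow, ← hb]
    have h2 : A * (A - b) * (A - (A - b)) ^ 4 = (A * (A - b)) * b ^ 4 := by ring
    rw [h2, ← h1]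
    ring
  have e2 : A ^ 2 + 14 * A * (A - b) + (A - b) ^ 2 = up (ZMod l) ser4 := by
    have h16 : up (ZMod l) 16 = 16 := by
      unfold up
      exact map_ofNat _ 16
    have h3 : up (ZMod l) ser4 = 16 * A ^ 2 - 16 * A * b + b ^ 2 := by
      unfold ser4
      have hsub : ∀ φ χ : PowerSeries ℤ, up (ZMod l) (φ - χ) = up (ZMod l) φ - up (ZMod l) χ := by
        intro φ χ
        unfold up
        rw [map_sub]
      have hadd : ∀ φ χ : PowerSeries ℤ, up (ZMod l) (φ + χ) = up (ZMod l) φ + up (ZMod l) χ := by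
        intro φ χ
        unfold up
        rw [map_add]
      rw [hadd, hsub, FGl2_mul, FGl2_mul, FGl2_mul, FGl2_pow, FGl2_pow, h16, ← hA, ← hb]
    rw [h3]
    ring
  rw [e1, e2]

theorem th0_mem (l : ℕ) [Fact l.Prime] (hl5 : 5 ≤ l) (w : ℕ) (hl : l + 1 = 8 * w) (x y : ℤ)
    (hx : Odd x) (hy : Odd y) : up (ZMod l) (th l x y 0) ∈ Mk (ZMod l) (4 * w) := by
  obtain ⟨c, hc⟩ := gl_sum l w hl
  rw [th0_mod l w hl x y hx hy, hc]
  refine Submodule.sum_mem _ fun i hi => ?_
  have hi' : 3 * i ≤ w := by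
    rw [Finset.mem_range] at hi
    omega
  refine Submodule.smul_mem _ _ ?_
  have h1 : 16 * up (ZMod l) (be ^ 6 * ff) ∈ Mk (ZMod l) 12 := by
    have h2 : (16 : PowerSeries (ZMod l)) * up (ZMod l) (be ^ 6 * ff) =
        (16 : ZMod l) • up (ZMod l) (be ^ 6 * ff) := by
      rw [PowerSeries.smul_eq_C_mul]
      congr 1
    rw [h2]
    exact Submodule.smul_mem _ _ (delta_mem l hl5)
  have h3 := mul_mem (pow_mem h1 i) (pow_mem (ser4_mem (ZMod l)) (w - 3 * i))
  have e : i * 12 + (w - 3 * i) * 4 = 4 * w := by omega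
  rw [e] at h3
  exact h3

end MT2
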