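import Pool.Agent.Lib_MP_bfd926_fm.MRed
import Mathlib.NumberTheory.Bernoulli

/-!
# The Hasse invariant

`E = ModularForm.E (k := l - 1)` (`EisensteinSeries.E_qExpansion_coeff`): its coefficients are `1` and
`-(2 * (l - 1) / bernoulli (l - 1)) * σ (l - 2) m`. By `Bernoulli.vonStaudt_clausen` with `2 * k = l - 1` the number
`bernoulli (l - 1) + 1 / l` is a rational number with denominator prime to `l` (the other primes `p` in the sum are
different from `l`), so `l * bernoulli (l - 1) = a / b` with integers `a`, `b` prime to `l`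
(`a / b ≡ -1` modulo `l`). The modular form `a • E` has the integral `q`-expansion
`a - 2 * (l - 1) * b * l * ∑ σ_(l-2)(m) X ^ m`, which is `a` modulo `l`. By `red_mem` `C a ∈ Mk (ZMod l) (l - 1)`, and
`a` is a unit of `ZMod l`.
-/

open PowerSeries
open UpperHalfPlane
open scoped MatrixGroups ModularForm

namespace MT2

private lemma MEis_sum (s : Finset ℕ) (hs : ∀ p ∈ s, p ≠ 0) :
    ∃ S : ℤ, (∑ p ∈ s, (1 : ℚ) / p) * ((∏ p ∈ s, p : ℕ) : ℚ) = S := by
  refine ⟨∑ p ∈ s, ((∏ q ∈ s.erase p, q : ℕ) : ℤ), ?_⟩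
  rw [Finset.sum_mul]
  push_cast
  refine Finset.sum_congr rfl fun p hp => ?_
  rw [← Finset.mul_prod_erase s (fun q : ℕ => (q : ℚ)) hp]
  have : (p : ℚ) ≠ 0 := by exact_mod_cast hs p hp
  field_simp

private lemma MEis_bern (l : ℕ) [hl0 : Fact l.Prime] (hl : 5 ≤ l) :
    ∃ a b : ℤ, ¬ (l : ℤ) ∣ a ∧ (l : ℚ) * bernoulli (l - 1) * b = a := by
  have hp := hl0.out
  obtain ⟨k, hk⟩ : ∃ k, l - 1 = 2 * k := by
    obtain ⟨m, hm⟩ := hp.odd_of_ne_two (by omega)
    exact ⟨m, by omega⟩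
  obtain ⟨n, hn⟩ := Bernoulli.vonStaudt_clausen k
  set s := (Finset.range (2 * k + 2)).filter (fun p => p.Prime ∧ (p - 1) ∣ 2 * k) with hs
  have hls : l ∈ s := by
    rw [hs, Finset.mem_filter, Finset.mem_range]
    exact ⟨by omega, hp, by rw [hk]⟩
  have hpr : ∀ p ∈ s.erase l, p.Prime := fun p hq =>
    (Finset.mem_filter.1 (Finset.mem_erase.1 hq).2).2.1
  obtain ⟨S, hS⟩ := MEis_sum (s.erase l) (fun p hq => (hpr p hq).ne_zero)
  rw [← Finset.add_sum_erase s _ hls] at hn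
  set P := ∏ p ∈ s.erase l, p with hP
  have hlP : ¬ l ∣ P := by
    rw [hP]
    intro h
    obtain ⟨q, hq, hlq⟩ := (Prime.dvd_finsetProd_iff hp.prime _).1 h
    have := (Nat.prime_dvd_prime_iff_eq hp (hpr q hq)).1 hlq
    exact (Finset.mem_erase.1 hq).1 this.symm
  refine ⟨l * (n * P - S) - P, P, ?_, ?_⟩
  · intro h
    apply hlP
    have h1 : (l : ℤ) ∣ (P : ℤ) := by
      have h2 : (P : ℤ) = l * (n * P - S) - (l * (n * P - S) - P) := by ring
      rw [h2]
      exact dvd_sub (dvd_mul_right _ _) h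
    exact_mod_cast h1
  · rw [hk]
    have hl' : (l : ℚ) ≠ 0 := by exact_mod_cast hp.ne_zero
    have h3 : bernoulli (2 * k) = n - (1 / (l : ℚ) + ∑ x ∈ s.erase l, (1 : ℚ) / x) := by
      rw [hn]
      ring
    rw [h3]
    push_cast
    have h4 : (l : ℚ) * (n - (1 / (l : ℚ) + ∑ x ∈ s.erase l, (1 : ℚ) / x)) * (P : ℚ) =
        l * n * P - (l * (1 / (l : ℚ))) * P - l * ((∑ x ∈ s.erase l, (1 : ℚ) / x) * (P : ℚ)) := by
      ring
    rw [h4, hS, mul_one_div_cancel hl']
    ring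

theorem one_mem (l : ℕ) [Fact l.Prime] (hl : 5 ≤ l) :
    (1 : PowerSeries (ZMod l)) ∈ Mk (ZMod l) (l - 1) := by
  have hp := (Fact.out : l.Prime)
  have hk3 : 3 ≤ l - 1 := by omega
  have hke : Even (l - 1) := by
    obtain ⟨m, hm⟩ := hp.odd_of_ne_two (by omega)
    exact ⟨m, by omega⟩
  obtain ⟨a, b, hla, hab⟩ := MEis_bern l hl
  have ha0 : a ≠ 0 := by
    rintro rfl
    exact hla (dvd_zero _)
  have hB : (bernoulli (l - 1) : ℂ) ≠ 0 := by
    intro h
    have h' : bernoulli (l - 1) = 0 := by exact_mod_cast h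
    rw [h'] at hab
    apply ha0
    have : ((a : ℤ) : ℚ) = 0 := by rw [← hab]; ring
    exact_mod_cast this
  have habC : (l : ℂ) * (bernoulli (l - 1) : ℂ) * (b : ℂ) = (a : ℂ) := by
    have := congrArg (fun x : ℚ => (x : ℂ)) hab
    push_cast at this
    exact this
  set ψ : PowerSeries ℤ := PowerSeries.mk fun m =>
    if m = 0 then a else (l : ℤ) * (-(2 * ((l - 1 : ℕ) : ℤ) * b) * (ArithmeticFunction.sigma (l - 1 - 1) m : ℤ)) with hψ
  have hq : qExpansion 1 ((a : ℂ) • ModularForm.E hk3 : ModularForm 𝒮ℒ ((l - 1 : ℕ) : ℤ)) = up ℂ ψ := by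
    have h1 : qExpansion 1 ((a : ℂ) • ModularForm.E hk3 : ModularForm 𝒮ℒ ((l - 1 : ℕ) : ℤ)) =
        (a : ℂ) • qExpansion 1 (ModularForm.E hk3) :=
      ModularForm.qExpansion_smul one_pos one_mem_strictPeriods_SL (a : ℂ) (ModularForm.E hk3)
    rw [h1]
    ext m
    rw [PowerSeries.coeff_smul, EisensteinSeries.E_qExpansion_coeff hk3 hke]
    unfold up
    rw [PowerSeries.coeff_map, hψ, PowerSeries.coeff_mk]
    split_ifs with hm
    · simp
    · simp only [smul_eq_mul, eq_intCast]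
      push_cast
      rw [← habC]
      field_simp
  have hmem := red_mem l hl (l - 1) _ ψ hq
  have hup : up (ZMod l) ψ = PowerSeries.C (a : ZMod l) := by
    ext m
    unfold up
    rw [PowerSeries.coeff_map, hψ, PowerSeries.coeff_mk, PowerSeries.coeff_C]
    split_ifs with hm
    · simp
    · simp
  have hau : (a : ZMod l) ≠ 0 := by
    rw [Ne, ZMod.intCast_zmod_eq_zero_iff_dvd]
    exact hla
  have h1 : (1 : PowerSeries (ZMod l)) = ((a : ZMod l)⁻¹) • up (ZMod l) ψ := by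
    rw [hup, PowerSeries.smul_eq_C_mul, ← map_mul, inv_mul_cancel₀ hau, map_one]
  rw [h1]
  exact Submodule.smul_mem _ _ hmem

end MT2
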