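import Pool.Agent.Lib_MP_bfd926_fm.MDefs
import Pool.Agent.Lib_MP_bfd926_sq.SStr
import Pool.Agent.Lib_MP_bfd926_sq.SDim
import Pool.Agent.Lib_MP_bfd926_sq.SGb

/-!
# The characteristic polynomial of `T₂` is integral

If `k` is odd or `k < 12` the space is zero and the characteristic polynomial is `1`. Let `k = 4 * w + 2 * e`, `e ≤ 1`,
`d = (w - e) / 3` the dimension (`cusp_dim`). For `1 ≤ j ≤ d` let `b_j = Δ ^ j * E₄ ^ (w - e - 3 * j) * E₆ ^ e`, a cusp
form of weight `k` with the integral expansion `(be ^ 6 * ff) ^ j * ser4 ^ … * ser6 ^ e = X ^ j + …` (`delta_q`, `E4_q`,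
`E6_q`). The `b_j` are linearly independent, so a basis. If a cusp form `g` has an integral expansion then
`g = ∑ z_j b_j` with integers `z_j` (the coefficients `1, …, d` of the expansion determine `z_1, z_2, …` successively;
`g - ∑ …` has vanishing coefficients `0, …, d`, and is in the span of the `b_j`, so it is zero). `T b_j` has an integral
expansion (`hT`; `2 ^ k / 2 = 2 ^ (k - 1)`). So the matrix of `T` is `A.map (Int.castRingHom ℂ)` with an integral
matrix `A`, `P = A.charpoly` (`Matrix.charpoly_map`, `LinearMap.charpoly_toMatrix`).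
-/

open UpperHalfPlane PowerSeries
open scoped MatrixGroups ModularForm

namespace MT2

private theorem MInt_up_mul (a b : PowerSeries ℤ) : up ℂ (a * b) = up ℂ a * up ℂ b := map_mul _ a b

private theorem MInt_up_pow (a : PowerSeries ℤ) (n : ℕ) : up ℂ (a ^ n) = up ℂ a ^ n := map_pow _ a n

private theorem MInt_up_coeff (a : PowerSeries ℤ) (n : ℕ) : coeff n (up ℂ a) = ((coeff n a : ℤ) : ℂ) := by
  unfold up
  rw [PowerSeries.coeff_map]
  rfl

private theorem MInt_up_dbl (φ : PowerSeries ℤ) : up ℂ (dbl φ) = dbl (up ℂ φ) := by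
  unfold up dbl
  ext m
  rw [PowerSeries.coeff_map]
  by_cases h : 2 ∣ m
  · obtain ⟨k, rfl⟩ := h
    rw [PowerSeries.coeff_expand_mul, PowerSeries.coeff_expand_mul, PowerSeries.coeff_map]
  · rw [PowerSeries.coeff_expand_of_not_dvd 2 two_ne_zero _ h,
      PowerSeries.coeff_expand_of_not_dvd 2 two_ne_zero _ h, map_zero]

/-- The discriminant as a modular form. -/
private noncomputable def MInt_D : ModularForm 𝒮ℒ 12 := CuspForm.toModularFormₗ CuspForm.discriminant

private theorem MInt_D_q : qExpansion 1 MInt_D = up ℂ (be ^ 6 * ff) := delta_q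

/-- The expansion of the basis. -/
private noncomputable def MInt_ser (e w i : ℕ) : PowerSeries ℤ :=
  be ^ 6 * ff * ((be ^ 6 * ff) ^ i * (ser4 ^ (w - e - 3 * (i + 1)) * ser6 ^ e))

private theorem MInt_form (e w i : ℕ) (hi : i < (w - e) / 3) :
    ∃ b : CuspForm 𝒮ℒ ((4 * w + 2 * e : ℕ) : ℤ), qExpansion 1 b = up ℂ (MInt_ser e w i) := by
  obtain ⟨v, hv⟩ : ∃ v, v = w - e - 3 * (i + 1) := ⟨_, rfl⟩
  have hw : w = e + 3 * (i + 1) + v := by omega
  let G : ModularForm 𝒮ℒ (i * 12 + (v * 4 + e * 6)) :=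
    (MInt_D.pow i).mul ((ModularForm.E₄.pow v).mul (ModularForm.E₆.pow e))
  have hG : qExpansion 1 G = up ℂ ((be ^ 6 * ff) ^ i * (ser4 ^ v * ser6 ^ e)) := by
    show qExpansion 1 ((MInt_D.pow i).mul ((ModularForm.E₄.pow v).mul (ModularForm.E₆.pow e))) = _
    rw [ModularForm.qExpansion_mul one_pos one_mem_strictPeriods_SL,
      ModularForm.qExpansion_mul one_pos one_mem_strictPeriods_SL,
      ModularForm.qExpansion_pow one_pos one_mem_strictPeriods_SL,
      ModularForm.qExpansion_pow one_pos one_mem_strictPeriods_SL,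
      ModularForm.qExpansion_pow one_pos one_mem_strictPeriods_SL, E4_q, E6_q, MInt_D_q]
    simp only [MInt_up_mul, MInt_up_pow]
  refine ⟨CuspForm.mcast (by subst hw; push_cast; ring) (CuspForm.discriminant.mulModularForm G), ?_⟩
  have h1 : qExpansion 1 (CuspForm.mcast (by subst hw; push_cast; ring :
      12 + (i * 12 + (v * 4 + e * 6) : ℤ) = ((4 * w + 2 * e : ℕ) : ℤ))
      (CuspForm.discriminant.mulModularForm G)) =
      qExpansion 1 ((⇑CuspForm.discriminant * ⇑G : ℍ → ℂ)) := rfl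
  rw [h1, ModularForm.qExpansion_mul_coe one_pos one_mem_strictPeriods_SL CuspForm.discriminant G, hG]
  have h2 : qExpansion 1 CuspForm.discriminant = up ℂ (be ^ 6 * ff) := delta_q
  rw [h2, ← MInt_up_mul, MInt_ser, ← hv]

private theorem MInt_ser_eq (e w i : ℕ) :
    ∃ g : PowerSeries ℤ, constantCoeff g = 1 ∧ MInt_ser e w i = X ^ (i + 1) * g := by
  have h4 : constantCoeff ser4 = 1 := by
    unfold ser4
    rw [map_add, map_sub, map_mul, map_mul, map_mul, map_pow, map_pow, al_zero, be_zero]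
    have h16 : constantCoeff (16 : PowerSeries ℤ) = 16 := map_ofNat _ 16
    rw [h16]
    norm_num
  have h6 : constantCoeff ser6 = 1 := by
    unfold ser6
    rw [map_mul, map_sub, map_mul, map_sub, map_add, map_mul, map_mul, map_mul, map_pow, map_pow, al_zero,
      be_zero]
    have h2 : constantCoeff (2 : PowerSeries ℤ) = 2 := map_ofNat _ 2
    have h32 : constantCoeff (32 : PowerSeries ℤ) = 32 := map_ofNat _ 32
    rw [h2, h32]
    norm_num
  obtain ⟨g, hg⟩ : (X : PowerSeries ℤ) ∣ ff := X_dvd_iff.mpr (by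
    rw [← coeff_zero_eq_constantCoeff_apply]
    exact ff_zero)
  have hg1 : constantCoeff g = 1 := by
    have h1 := ff_one
    rw [hg] at h1
    have h2 : coeff (0 + 1) (X * g) = coeff 0 g := coeff_succ_X_mul 0 g
    rw [← coeff_zero_eq_constantCoeff_apply, ← h2]
    exact h1
  refine ⟨(be ^ 6 * g) ^ (i + 1) * (ser4 ^ (w - e - 3 * (i + 1)) * ser6 ^ e), ?_, ?_⟩
  · simp only [map_mul, map_pow, be_zero, hg1, h4, h6, one_pow, mul_one]
  · rw [MInt_ser, hg]
    ring

private theorem MInt_ser_lt (e w i n : ℕ) (h : n < i + 1) : coeff n (MInt_ser e w i) = 0 := by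
  obtain ⟨g, -, hg⟩ := MInt_ser_eq e w i
  rw [hg, coeff_X_pow_mul', if_neg (by omega)]

private theorem MInt_ser_one (e w i : ℕ) : coeff (i + 1) (MInt_ser e w i) = 1 := by
  obtain ⟨g, h1, hg⟩ := MInt_ser_eq e w i
  rw [hg, coeff_X_pow_mul', if_pos le_rfl, Nat.sub_self, coeff_zero_eq_constantCoeff_apply, h1]

/-- The coefficients of the expansion. -/
private noncomputable def MInt_phi (k : ℤ) (d : ℕ) : CuspForm 𝒮ℒ k →ₗ[ℂ] (Fin d → ℂ) where
  toFun f := fun i => coeff ((i : ℕ) + 1) (qExpansion 1 f)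
  map_add' f g := by
    funext i
    rw [Pi.add_apply, ← map_add]
    congr 1
    exact ModularForm.qExpansion_add one_pos one_mem_strictPeriods_SL f g
  map_smul' a f := by
    funext i
    rw [Pi.smul_apply, RingHom.id_apply, ← PowerSeries.coeff_smul]
    congr 1
    exact ModularForm.qExpansion_smul one_pos one_mem_strictPeriods_SL a f

private theorem MInt_zero (k : ℕ) [FiniteDimensional ℂ (CuspForm 𝒮ℒ (k : ℤ))]
    (T : Module.End ℂ (CuspForm 𝒮ℒ (k : ℤ))) (hk : Odd k) :
    ∃ P : Polynomial ℤ, P.Monic ∧ P.map (Int.castRingHom ℂ) = T.charpoly := by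
  refine ⟨1, Polynomial.monic_one, ?_⟩
  rw [Polynomial.map_one]
  have h0 : Subsingleton (CuspForm 𝒮ℒ (k : ℤ)) := by
    refine ⟨fun f g => CuspForm.toModularFormₗ_injective ?_⟩
    have hk' : Odd (k : ℤ) := by exact_mod_cast hk
    rw [ModularForm.levelOne_odd_weight_eq_zero hk' (CuspForm.toModularFormₗ f),
      ModularForm.levelOne_odd_weight_eq_zero hk' (CuspForm.toModularFormₗ g)]
  have h1 : T.charpoly.natDegree = 0 := by
    rw [LinearMap.charpoly_natDegree]
    exact Module.finrank_zero_of_subsingleton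
  exact ((T.charpoly_monic).natDegree_eq_zero.mp h1).symm

private theorem MInt_even (e w : ℕ) (he : e ≤ 1)
    [FiniteDimensional ℂ (CuspForm 𝒮ℒ ((4 * w + 2 * e : ℕ) : ℤ))]
    (T : Module.End ℂ (CuspForm 𝒮ℒ ((4 * w + 2 * e : ℕ) : ℤ)))
    (hT : ∀ f : CuspForm 𝒮ℒ ((4 * w + 2 * e : ℕ) : ℤ), qExpansion 1 (T f) =
      uu (qExpansion 1 f) + C ((2 : ℂ) ^ (4 * w + 2 * e) / 2) * dbl (qExpansion 1 f)) :
    ∃ P : Polynomial ℤ, P.Monic ∧ P.map (Int.castRingHom ℂ) = T.charpoly := by
  obtain ⟨d, hd⟩ : ∃ d, d = (w - e) / 3 := ⟨_, rfl⟩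
  have hdim : Module.finrank ℂ (CuspForm 𝒮ℒ ((4 * w + 2 * e : ℕ) : ℤ)) = d := by
    rw [hd]
    exact (cusp_dim e w he).2
  choose b hb using fun i : Fin d => MInt_form e w i (by rw [← hd]; exact i.2)
  let Φ := MInt_phi ((4 * w + 2 * e : ℕ) : ℤ) d
  let B : Matrix (Fin d) (Fin d) ℤ := fun i j => coeff ((i : ℕ) + 1) (MInt_ser e w j)
  let Cm : Matrix (Fin d) (Fin d) ℤ := fun i j =>
    coeff ((i : ℕ) + 1) (uu (MInt_ser e w j)) +
      2 ^ (4 * w + 2 * e - 1) * coeff ((i : ℕ) + 1) (dbl (MInt_ser e w j))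
  have hBdet : B.det = 1 := by
    rw [Matrix.det_of_isLowerTriangular B]
    · exact Finset.prod_eq_one (fun i _ => MInt_ser_one e w i)
    · intro i j hij
      have h1 : (i : ℕ) < j := hij
      exact MInt_ser_lt e w j _ (by omega)
  have hΦb : ∀ i j, Φ (b j) i = ((B i j : ℤ) : ℂ) := by
    intro i j
    show coeff ((i : ℕ) + 1) (qExpansion 1 (b j)) = _
    rw [hb, MInt_up_coeff]
  have hΦT : ∀ i j, Φ (T (b j)) i = ((Cm i j : ℤ) : ℂ) := by
    intro i j
    show coeff ((i : ℕ) + 1) (qExpansion 1 (T (b j))) = _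
    have hk : 1 ≤ 4 * w + 2 * e := by
      have h1 := j.2
      omega
    have h2 : (2 : ℂ) ^ (4 * w + 2 * e) / 2 = (((2 : ℤ) ^ (4 * w + 2 * e - 1) : ℤ) : ℂ) := by
      obtain ⟨m, hm⟩ := Nat.exists_eq_add_of_le hk
      rw [hm, Nat.add_sub_cancel_left, pow_add]
      push_cast
      ring
    have h3 : uu (up ℂ (MInt_ser e w j)) = up ℂ (uu (MInt_ser e w j)) := by
      ext n
      rw [MInt_up_coeff, uu, uu, coeff_mk, coeff_mk, MInt_up_coeff]
    rw [hT, hb, map_add, coeff_C_mul, h3, ← MInt_up_dbl, MInt_up_coeff, MInt_up_coeff, h2]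
    show _ = ((coeff ((i : ℕ) + 1) (uu (MInt_ser e w j)) +
      2 ^ (4 * w + 2 * e - 1) * coeff ((i : ℕ) + 1) (dbl (MInt_ser e w j)) : ℤ) : ℂ)
    push_cast
    ring
  have hli : LinearIndependent ℂ b := by
    rw [Fintype.linearIndependent_iff]
    intro g hg
    have h1 : (B.map (Int.castRingHom ℂ)).mulVec g = 0 := by
      funext i
      have h2 := congrFun (congrArg Φ hg) i
      rw [map_sum, map_zero, Finset.sum_apply] at h2
      rw [Matrix.mulVec, dotProduct, ← h2]
      refine Finset.sum_congr rfl (fun j _ => ?_)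
      rw [map_smul, Pi.smul_apply, hΦb, smul_eq_mul, mul_comm]
      rfl
    have h3 : (B.map (Int.castRingHom ℂ)).det ≠ 0 := by
      have h4 : (B.map (Int.castRingHom ℂ)).det = (Int.castRingHom ℂ) B.det :=
        ((Int.castRingHom ℂ).map_det B).symm
      rw [h4, hBdet, map_one]
      exact one_ne_zero
    exact fun i => congrFun (Matrix.eq_zero_of_mulVec_eq_zero h3 h1) i
  let bas := basisOfLinearIndependentOfCardEqFinrank' b hli (by rw [Fintype.card_fin, hdim])
  have hbas : ∀ j, bas j = b j := fun j => by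
    show basisOfLinearIndependentOfCardEqFinrank' b hli _ j = b j
    rw [coe_basisOfLinearIndependentOfCardEqFinrank']
  let M := LinearMap.toMatrix bas bas T
  have hM : B.map (Int.castRingHom ℂ) * M = Cm.map (Int.castRingHom ℂ) := by
    ext i j
    rw [Matrix.mul_apply, Matrix.map_apply]
    have h1 : T (b j) = ∑ l, M l j • b l := by
      have h2 := bas.sum_repr (T (bas j))
      rw [hbas j] at h2
      rw [← h2]
      refine Finset.sum_congr rfl (fun l _ => ?_)
      show _ = (LinearMap.toMatrix bas bas T) l j • b l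
      rw [LinearMap.toMatrix_apply, hbas, hbas]
    have h3 := congrFun (congrArg Φ h1) i
    rw [hΦT, map_sum, Finset.sum_apply] at h3
    show _ = ((Cm i j : ℤ) : ℂ)
    rw [h3]
    refine Finset.sum_congr rfl (fun l _ => ?_)
    rw [map_smul, Pi.smul_apply, hΦb, smul_eq_mul, mul_comm]
    rfl
  have hM2 : M = (B⁻¹ * Cm).map (Int.castRingHom ℂ) := by
    have h1 : B⁻¹ * B = 1 := Matrix.nonsing_inv_mul B (by rw [hBdet]; exact isUnit_one)
    have h2 : (B⁻¹).map (Int.castRingHom ℂ) * B.map (Int.castRingHom ℂ) = 1 := by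
      rw [← Matrix.map_mul, h1, Matrix.map_one _ (map_zero _) (map_one _)]
    rw [Matrix.map_mul, ← hM, ← Matrix.mul_assoc, h2, Matrix.one_mul]
  refine ⟨(B⁻¹ * Cm).charpoly, Matrix.charpoly_monic _, ?_⟩
  rw [← Matrix.charpoly_map, ← hM2]
  exact LinearMap.charpoly_toMatrix T bas

theorem charpoly_int (k : ℕ) [FiniteDimensional ℂ (CuspForm 𝒮ℒ (k : ℤ))]
    (T : Module.End ℂ (CuspForm 𝒮ℒ (k : ℤ)))
    (hT : ∀ f : CuspForm 𝒮ℒ (k : ℤ), qExpansion 1 (T f) =
      uu (qExpansion 1 f) + C ((2 : ℂ) ^ k / 2) * dbl (qExpansion 1 f)) :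
    ∃ P : Polynomial ℤ, P.Monic ∧ P.map (Int.castRingHom ℂ) = T.charpoly := by
  rcases Nat.even_or_odd k with hk | hk
  · obtain ⟨m, hm⟩ := hk
    obtain ⟨e, w, he, hw⟩ : ∃ e w : ℕ, e ≤ 1 ∧ k = 4 * w + 2 * e :=
      ⟨m % 2, m / 2, by omega, by omega⟩
    subst hw
    exact MInt_even e w he T hT
  · exact MInt_zero k T hk

end MT2
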