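import Pool.Agent.Lib_MP_bfd926_fm.MMul
import Pool.Agent.Lib_MP_bfd926_sq.SStr

/-!
# Lifting of cusp forms

`φ = ∑ c_(a,b) * up ser4 ^ a * up ser6 ^ b` (a finite sum; `Submodule.mem_span_set'`, `Finsupp.mem_span_image_iff…`,
or prove by `Submodule.span_induction` that there is a modular form `f` and `ψ : ℤ⟦X⟧` with
`qExpansion 1 f = up ℂ ψ`, `up (ZMod l) ψ = φ`: products `E₄ ^ a * E₆ ^ b` with `E4_q`, `E6_q`, sums, and for `c • φ` with
`c : ZMod l` the multiple by an integer representing `c`). The constant coefficient `n` of `ψ` is divisible by `l`;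
subtract `n • E₄ ^ a * E₆ ^ b` for one pair with `4 * a + 6 * b = k` (exists for even `k ≥ 4`); the result has the
constant coefficient `0`, so it is a cusp form (`ModularForm.toCuspForm`, see `SStr`), and its expansion has the
same reduction modulo `l`.
-/

open UpperHalfPlane PowerSeries
open scoped MatrixGroups ModularForm

namespace MT2

private theorem MLift_up_mul (R : Type) [CommRing R] (a b : PowerSeries ℤ) :
    up R (a * b) = up R a * up R b := map_mul _ a b
private theorem MLift_up_pow (R : Type) [CommRing R] (a : PowerSeries ℤ) (n : ℕ) :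
    up R (a ^ n) = up R a ^ n := map_pow _ a n
private theorem MLift_up_add (R : Type) [CommRing R] (a b : PowerSeries ℤ) :
    up R (a + b) = up R a + up R b := map_add _ a b
private theorem MLift_up_sub (R : Type) [CommRing R] (a b : PowerSeries ℤ) :
    up R (a - b) = up R a - up R b := map_sub _ a b
private theorem MLift_up_zero (R : Type) [CommRing R] : up R (0 : PowerSeries ℤ) = 0 :=
  map_zero (PowerSeries.map (Int.castRingHom R))

private theorem MLift_up_smul (R : Type) [CommRing R] (n : ℤ) (a : PowerSeries ℤ) :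
    up R (n • a) = (n : R) • up R a := by
  unfold up
  ext m
  rw [coeff_map, PowerSeries.coeff_smul, coeff_map, map_zsmul, smul_eq_mul, smul_eq_mul, map_mul,
    eq_intCast, eq_intCast]

private theorem MLift_coeff_up (R : Type) [CommRing R] (a : PowerSeries ℤ) (m : ℕ) :
    coeff m (up R a) = ((coeff m a : ℤ) : R) := by
  unfold up
  rw [coeff_map, eq_intCast]

/-- The form `E₄ ^ a * E₆ ^ b`. -/
private theorem MLift_mono (k a b : ℕ) (h : 4 * a + 6 * b = k) :
    ∃ F : ModularForm 𝒮ℒ (k : ℤ), qExpansion 1 F = up ℂ (ser4 ^ a * ser6 ^ b) := by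
  subst h
  refine ⟨ModularForm.mcast (by push_cast; ring) ((ModularForm.E₄.pow a).mul (ModularForm.E₆.pow b)), ?_⟩
  have h1 : qExpansion 1 (ModularForm.mcast (by push_cast; ring :
      ((a : ℤ) * 4 + (b : ℤ) * 6) = ((4 * a + 6 * b : ℕ) : ℤ))
      ((ModularForm.E₄.pow a).mul (ModularForm.E₆.pow b))) =
      qExpansion 1 ((ModularForm.E₄.pow a).mul (ModularForm.E₆.pow b)) := rfl
  rw [h1, ModularForm.qExpansion_mul one_pos one_mem_strictPeriods_SL,
    ModularForm.qExpansion_pow one_pos one_mem_strictPeriods_SL,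
    ModularForm.qExpansion_pow one_pos one_mem_strictPeriods_SL, E4_q, E6_q, MLift_up_mul, MLift_up_pow,
    MLift_up_pow]

private theorem MLift_lift (l : ℕ) [Fact l.Prime] (k : ℕ) (φ : PowerSeries (ZMod l))
    (h : φ ∈ Mk (ZMod l) k) :
    ∃ (f : ModularForm 𝒮ℒ (k : ℤ)) (ψ : PowerSeries ℤ), qExpansion 1 f = up ℂ ψ ∧
      up (ZMod l) ψ = φ := by
  unfold Mk at h
  induction h using Submodule.span_induction with
  | mem x hx =>
    obtain ⟨a, b, hab, rfl⟩ := hx
    obtain ⟨F, hF⟩ := MLift_mono k a b hab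
    exact ⟨F, _, hF, by rw [MLift_up_mul, MLift_up_pow, MLift_up_pow]⟩
  | zero =>
    refine ⟨0, 0, ?_, MLift_up_zero _⟩
    rw [MLift_up_zero]
    exact (ModularForm.qExpansion_eq_zero_iff one_pos one_mem_strictPeriods_SL _).mpr rfl
  | add x y _ _ hx hy =>
    obtain ⟨f, ψ, hf, hψ⟩ := hx
    obtain ⟨g, χ, hg, hχ⟩ := hy
    refine ⟨f + g, ψ + χ, ?_, ?_⟩
    · rw [FunLike.coe_add, ModularForm.qExpansion_add one_pos one_mem_strictPeriods_SL, hf, hg,
        MLift_up_add]
    · rw [MLift_up_add, hψ, hχ]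
  | smul c x _ hx =>
    obtain ⟨f, ψ, hf, hψ⟩ := hx
    refine ⟨((c.val : ℤ) : ℂ) • f, (c.val : ℤ) • ψ, ?_, ?_⟩
    · rw [FunLike.coe_smul, ModularForm.qExpansion_smul one_pos one_mem_strictPeriods_SL, hf,
        MLift_up_smul]
    · rw [MLift_up_smul, hψ]
      congr 1
      rw [Int.cast_natCast, ZMod.natCast_zmod_val]

private theorem MLift_cc4 : coeff 0 ser4 = 1 := by
  have hA : constantCoeff thA = 1 := by
    rw [← coeff_zero_eq_constantCoeff_apply, thA, coeff_mk]
    simp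
  have hB : constantCoeff thB = 1 := by
    rw [thB, evalNegHom]
    rw [← coeff_zero_eq_constantCoeff_apply, coeff_rescale, coeff_zero_eq_constantCoeff_apply, hA]
    simp
  have h16 : constantCoeff (16 : PowerSeries ℤ) = 16 := map_ofNat _ 16
  rw [coeff_zero_eq_constantCoeff_apply, ser4]
  simp only [map_add, map_sub, map_mul, map_pow, al, be, hA, hB, h16]
  norm_num

private theorem MLift_cc6 : coeff 0 ser6 = 1 := by
  have hA : constantCoeff thA = 1 := by
    rw [← coeff_zero_eq_constantCoeff_apply, thA, coeff_mk]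
    simp
  have hB : constantCoeff thB = 1 := by
    rw [thB, evalNegHom]
    rw [← coeff_zero_eq_constantCoeff_apply, coeff_rescale, coeff_zero_eq_constantCoeff_apply, hA]
    simp
  have h2 : constantCoeff (2 : PowerSeries ℤ) = 2 := map_ofNat _ 2
  have h32 : constantCoeff (32 : PowerSeries ℤ) = 32 := map_ofNat _ 32
  rw [coeff_zero_eq_constantCoeff_apply, ser6]
  simp only [map_add, map_sub, map_mul, map_pow, al, be, hA, hB, h2, h32]
  norm_num

theorem lift_cusp (l : ℕ) [Fact l.Prime] (k : ℕ) (hk : Even k) (hk4 : 4 ≤ k)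
    (φ : PowerSeries (ZMod l)) (h : φ ∈ Mk (ZMod l) k) (h0 : coeff 0 φ = 0) :
    ∃ (f : CuspForm 𝒮ℒ (k : ℤ)) (ψ : PowerSeries ℤ), qExpansion 1 f = up ℂ ψ ∧
      up (ZMod l) ψ = φ := by
  obtain ⟨F, ψ, hF, hψ⟩ := MLift_lift l k φ h
  obtain ⟨a, b, hab⟩ : ∃ a b : ℕ, 4 * a + 6 * b = k := by
    obtain ⟨m, hm⟩ := hk
    rcases Nat.even_or_odd m with ⟨t, ht⟩ | ⟨t, ht⟩
    · exact ⟨t, 0, by omega⟩
    · exact ⟨t - 1, 1, by omega⟩
  obtain ⟨G, hG⟩ := MLift_mono k a b hab
  obtain ⟨n, hn⟩ : ∃ n : ℤ, n = coeff 0 ψ := ⟨_, rfl⟩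
  have hcG : coeff 0 (ser4 ^ a * ser6 ^ b) = 1 := by
    have h4 := MLift_cc4
    have h6 := MLift_cc6
    rw [coeff_zero_eq_constantCoeff_apply] at h4 h6 ⊢
    rw [map_mul, map_pow, map_pow, h4, h6, one_pow, one_pow, one_mul]
  obtain ⟨D, hD⟩ : ∃ D : ModularForm 𝒮ℒ (k : ℤ), D = F - (n : ℂ) • G := ⟨_, rfl⟩
  have hsub : qExpansion 1 D = up ℂ (ψ - n • (ser4 ^ a * ser6 ^ b)) := by
    rw [hD, FunLike.coe_sub, ModularForm.qExpansion_sub one_pos one_mem_strictPeriods_SL, FunLike.coe_smul,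
      ModularForm.qExpansion_smul one_pos one_mem_strictPeriods_SL, hF, hG, MLift_up_sub, MLift_up_smul]
  have hD0 : (qExpansion 1 D).coeff 0 = 0 := by
    rw [hsub, MLift_coeff_up, map_sub, map_zsmul, hcG, ← hn, smul_eq_mul, mul_one, sub_self,
      Int.cast_zero]
  refine ⟨ModularForm.toCuspForm D hD0, ψ - n • (ser4 ^ a * ser6 ^ b), ?_, ?_⟩
  · rw [← hsub]
    rfl
  · have hn0 : ((n : ℤ) : ZMod l) = 0 := by
      rw [hn, ← MLift_coeff_up, hψ, h0]
    rw [MLift_up_sub, MLift_up_smul, hn0, zero_smul, sub_zero, hψ]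

end MT2
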