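import Pool.Agent.Lib_MP_bfd926_fm.MWr

/-!
# Ramanujan's identities

Let `E = 2 * al - be`. `be * beI = 1`, so `be * e2 = 6 * dd be + be * E`. From `ff_eq`
`E ^ 2 = be ^ 2 * (1 + 64 * ff)`; with `dd_ff`: `2 * E * dd E = 2 * be * dd be * (1 + 64 * ff) + 64 * be ^ 2 * ff * E`,
so (cancel `2 * E`, constant coefficient `2`, after multiplying by `be`)
`be * dd E = E * dd be + 32 * be ^ 3 * ff`. `ser4_eq`, `ser6_eq` (SMc). Then
`3 * dd ser4 = ser4 * (e2 - E) + 768 * be ^ 2 * ff * E = e2 * ser4 - ser6`, and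
`2 * dd ser6 = e2 * ser6 - ser4 ^ 2` by `linear_combination`.
-/

open PowerSeries

namespace MT2

private theorem MRam_ofNat (n : ℕ) (φ : PowerSeries ℤ) :
    dd ((n : PowerSeries ℤ) * φ) = (n : PowerSeries ℤ) * dd φ := by
  rw [dd_mul, dd_natCast, zero_mul, zero_add]

private theorem MRam_one (n : ℕ) (φ : PowerSeries ℤ) :
    dd (1 + (n : PowerSeries ℤ) * φ) = (n : PowerSeries ℤ) * dd φ := by
  have h1 : dd (1 : PowerSeries ℤ) = 0 := by
    have h := dd_natCast (R := ℤ) 1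
    rwa [Nat.cast_one] at h
  rw [map_add, h1, zero_add, MRam_ofNat]

private theorem MRam_one' (n : ℕ) (φ : PowerSeries ℤ) :
    dd (1 - (n : PowerSeries ℤ) * φ) = -((n : PowerSeries ℤ) * dd φ) := by
  have h1 : dd (1 : PowerSeries ℤ) = 0 := by
    have h := dd_natCast (R := ℤ) 1
    rwa [Nat.cast_one] at h
  rw [map_sub, h1, zero_sub, MRam_ofNat]

private theorem MRam_sq (φ : PowerSeries ℤ) : dd (φ ^ 2) = 2 * φ * dd φ := by
  rw [sq, dd_mul]
  ring

private theorem MRam_E2 : (2 * al - be) ^ 2 = be ^ 2 * (1 + 64 * ff) := by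
  linear_combination (-4) * ff_eq

private theorem MRam_E_ne : (2 : PowerSeries ℤ) * (2 * al - be) ≠ 0 := by
  intro h
  have h1 := congrArg constantCoeff h
  have h2 : constantCoeff (2 : PowerSeries ℤ) = 2 := map_ofNat _ 2
  rw [map_mul, map_sub, map_mul, h2, al_zero, be_zero, map_zero] at h1
  norm_num at h1

private theorem MRam_dE : be * dd (2 * al - be) = (2 * al - be) * dd be + 32 * be ^ 3 * ff := by
  have h1 := congrArg dd MRam_E2
  have h64 := MRam_one 64 ff
  push_cast at h64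
  rw [MRam_sq, dd_mul, MRam_sq, h64, dd_ff] at h1
  apply mul_left_cancel₀ MRam_E_ne
  linear_combination be * h1 + (-(2 * dd be)) * MRam_E2

theorem ram4 : 3 * dd ser4 = e2 * ser4 - ser6 := by
  have h256 := MRam_one 256 ff
  push_cast at h256
  rw [ser4_eq, ser6_eq, dd_mul, MRam_sq, h256, dd_ff, e2]
  linear_combination (-(6 * be * dd be * (1 + 256 * ff))) * be_mul_beI

theorem ram6 : 2 * dd ser6 = e2 * ser6 - ser4 ^ 2 := by
  have h512 := MRam_one' 512 ff
  push_cast at h512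
  rw [ser4_eq, ser6_eq, dd_mul, dd_mul, MRam_sq, h512, dd_ff, e2]
  linear_combination (-(6 * be * dd be * (2 * al - be) * (1 - 512 * ff))) * be_mul_beI +
    (2 * be * (1 - 512 * ff)) * MRam_dE +
    (-(1024 * be ^ 2 * ff) - be ^ 2 * (1 - 512 * ff)) * MRam_E2

end MT2
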