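import Pool.Agent.Lib_MP_bfd926_fm.MMul
import Pool.Agent.Lib_MP_bfd926_fm.MRam

/-!
# The theta operator

`der_mem`: for `φ = Q ^ a * R ^ b`, `Q = up F ser4`, `R = up F ser6`, `k = 4 * a + 6 * b`, by `dd_mul`, `dd_pow`,
`ram4`, `ram6` (mapped to `F` by `up_dd`)
`12 * dd φ = k * e2 * φ - 4 * a * Q ^ (a - 1) * R ^ (b + 1) - 6 * b * Q ^ (a + 2) * R ^ (b - 1)` (the terms with `a = 0`,
`b = 0` are zero). Both sides are linear in `φ`: `Submodule.span_induction`.

`e2_mem`: apply `der_mem` to `1 ∈ Mk (ZMod l) (l - 1)`: `0 = 12 * dd 1 = ((l - 1 : ℕ) : ZMod l) * e2 + ψ`, `l - 1 = -1` in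
`ZMod l`, so `e2 = ψ ∈ Mk (l + 1)`.

`dd_mem`: `12` is a unit; `e2 * φ ∈ Mk (l + 1 + k)`, `ψ = ψ * 1 ∈ Mk (k + 2 + (l - 1))`.
-/

open PowerSeries

namespace MT2

private theorem MTh_ram4 (F : Type) [CommRing F] :
    3 * dd (up F ser4) = up F e2 * up F ser4 - up F ser6 := by
  have h := congrArg (up F) ram4
  rw [← up_dd]
  have h1 : up F (3 * dd ser4) = 3 * up F (dd ser4) := by
    unfold up
    rw [map_mul, map_ofNat]
  have h2 : up F (e2 * ser4 - ser6) = up F e2 * up F ser4 - up F ser6 := by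
    unfold up
    rw [map_sub, map_mul]
  rw [← h1, h, h2]

private theorem MTh_ram6 (F : Type) [CommRing F] :
    2 * dd (up F ser6) = up F e2 * up F ser6 - up F ser4 ^ 2 := by
  have h := congrArg (up F) ram6
  rw [← up_dd]
  have h1 : up F (2 * dd ser6) = 2 * up F (dd ser6) := by
    unfold up
    rw [map_mul, map_ofNat]
  have h2 : up F (e2 * ser6 - ser4 ^ 2) = up F e2 * up F ser6 - up F ser4 ^ 2 := by
    unfold up
    rw [map_sub, map_mul, map_pow]
  rw [← h1, h, h2]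

private theorem MTh_dd_one (F : Type) [CommRing F] : dd (1 : PowerSeries F) = 0 := by
  have h := dd_natCast (R := F) 1
  rwa [Nat.cast_one] at h

private theorem MTh_dd_pow (F : Type) [CommRing F] (φ : PowerSeries F) (n : ℕ) :
    dd (φ ^ n) = (n : PowerSeries F) * (φ ^ (n - 1) * dd φ) := by
  rcases n with _ | n
  · rw [pow_zero, MTh_dd_one, Nat.cast_zero, zero_mul]
  · rw [dd_pow, Nat.add_sub_cancel, PowerSeries.smul_eq_C_mul, map_add, map_natCast, map_one,
      Nat.cast_add, Nat.cast_one]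

private theorem MTh_powQ (F : Type) [CommRing F] (a : ℕ) :
    12 * dd (up F ser4 ^ a) = (4 * a : PowerSeries F) * (up F e2 * up F ser4 ^ a) -
      (4 * a : PowerSeries F) * (up F ser4 ^ (a - 1) * up F ser6) := by
  rw [MTh_dd_pow]
  rcases a with _ | a
  · rw [Nat.cast_zero]
    ring
  · rw [Nat.add_sub_cancel, pow_succ]
    linear_combination (4 * ((a + 1 : ℕ) : PowerSeries F) * up F ser4 ^ a) * MTh_ram4 F

private theorem MTh_powR (F : Type) [CommRing F] (b : ℕ) :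
    12 * dd (up F ser6 ^ b) = (6 * b : PowerSeries F) * (up F e2 * up F ser6 ^ b) -
      (6 * b : PowerSeries F) * (up F ser6 ^ (b - 1) * up F ser4 ^ 2) := by
  rw [MTh_dd_pow]
  rcases b with _ | b
  · rw [Nat.cast_zero]
    ring
  · rw [Nat.add_sub_cancel, pow_succ]
    linear_combination (6 * ((b + 1 : ℕ) : PowerSeries F) * up F ser6 ^ b) * MTh_ram6 F

private theorem MTh_mono (F : Type) [CommRing F] (a b : ℕ) :
    12 * dd (up F ser4 ^ a * up F ser6 ^ b) =
      ((4 * a + 6 * b : ℕ) : PowerSeries F) * (up F e2 * (up F ser4 ^ a * up F ser6 ^ b)) +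
      (-((4 * a : ℕ) : PowerSeries F) * (up F ser4 ^ (a - 1) * up F ser6 ^ (b + 1)) +
      -((6 * b : ℕ) : PowerSeries F) * (up F ser4 ^ (a + 2) * up F ser6 ^ (b - 1))) := by
  rw [dd_mul]
  push_cast
  have h1 : up F ser4 ^ (a + 2) = up F ser4 ^ a * up F ser4 ^ 2 := pow_add _ _ _
  have h2 : up F ser6 ^ (b + 1) = up F ser6 ^ b * up F ser6 := pow_succ _ _
  rw [h1, h2]
  linear_combination (up F ser6 ^ b) * MTh_powQ F a + (up F ser4 ^ a) * MTh_powR F b

private theorem MTh_natCast_mem {F : Type} [CommRing F] {k : ℕ} (n : ℕ) {φ : PowerSeries F}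
    (h : φ ∈ Mk F k) : -((n : ℕ) : PowerSeries F) * φ ∈ Mk F k := by
  have h1 : -((n : ℕ) : PowerSeries F) * φ = (-(n : F)) • φ := by
    rw [PowerSeries.smul_eq_C_mul, map_neg, map_natCast]
  rw [h1]
  exact Submodule.smul_mem _ _ h

private theorem MTh_gen {F : Type} [CommRing F] {k a b : ℕ} (h : 4 * a + 6 * b = k) :
    up F ser4 ^ a * up F ser6 ^ b ∈ Mk F k :=
  Submodule.subset_span ⟨a, b, h, rfl⟩

private theorem MTh_rem {F : Type} [CommRing F] {k a b : ℕ} (h : 4 * a + 6 * b = k) :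
    (-((4 * a : ℕ) : PowerSeries F) * (up F ser4 ^ (a - 1) * up F ser6 ^ (b + 1)) +
      -((6 * b : ℕ) : PowerSeries F) * (up F ser4 ^ (a + 2) * up F ser6 ^ (b - 1))) ∈
        Mk F (k + 2) := by
  apply Submodule.add_mem
  · rcases a with _ | a
    · rw [Nat.mul_zero, Nat.cast_zero, neg_zero, zero_mul]
      exact Submodule.zero_mem _
    · apply MTh_natCast_mem
      apply MTh_gen
      omega
  · rcases b with _ | b
    · rw [Nat.mul_zero, Nat.cast_zero, neg_zero, zero_mul]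
      exact Submodule.zero_mem _
    · apply MTh_natCast_mem
      apply MTh_gen
      omega

theorem der_mem {F : Type} [Field F] {k : ℕ} {φ : PowerSeries F} (h : φ ∈ Mk F k) :
    ∃ ψ ∈ Mk F (k + 2), (12 : F) • dd φ = (k : F) • (up F e2 * φ) + ψ := by
  induction h using Submodule.span_induction with
  | mem φ h =>
    obtain ⟨a, b, hab, rfl⟩ := h
    refine ⟨_, MTh_rem hab, ?_⟩
    have h1 := MTh_mono F a b
    rw [hab] at h1
    rw [PowerSeries.smul_eq_C_mul, PowerSeries.smul_eq_C_mul, map_ofNat, map_natCast]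
    exact h1
  | zero =>
    refine ⟨0, Submodule.zero_mem _, ?_⟩
    rw [map_zero, smul_zero, mul_zero, smul_zero, add_zero]
  | add x y _ _ hx hy =>
    obtain ⟨ψ, h1, h2⟩ := hx
    obtain ⟨χ, h3, h4⟩ := hy
    refine ⟨ψ + χ, Submodule.add_mem _ h1 h3, ?_⟩
    rw [map_add, smul_add, h2, h4, mul_add, smul_add]
    abel
  | smul a x _ hx =>
    obtain ⟨ψ, h1, h2⟩ := hx
    refine ⟨a • ψ, Submodule.smul_mem _ _ h1, ?_⟩
    rw [map_smul, smul_comm, h2, smul_add, mul_smul_comm, smul_comm]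

theorem e2_mem (l : ℕ) [Fact l.Prime] (hl : 5 ≤ l)
    (h1 : (1 : PowerSeries (ZMod l)) ∈ Mk (ZMod l) (l - 1)) :
    up (ZMod l) e2 ∈ Mk (ZMod l) (l + 1) := by
  obtain ⟨ψ, h2, h3⟩ := der_mem h1
  rw [MTh_dd_one, smul_zero, mul_one, Nat.cast_sub (by omega), ZMod.natCast_self, Nat.cast_one,
    zero_sub, neg_smul, one_smul] at h3
  have h4 : up (ZMod l) e2 = ψ := by linear_combination h3
  rw [h4]
  have h5 : l - 1 + 2 = l + 1 := by omega
  rw [h5] at h2
  exact h2

theorem dd_mem (l : ℕ) [Fact l.Prime] (hl : 5 ≤ l)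
    (h1 : (1 : PowerSeries (ZMod l)) ∈ Mk (ZMod l) (l - 1)) {k : ℕ} {φ : PowerSeries (ZMod l)}
    (h : φ ∈ Mk (ZMod l) k) : dd φ ∈ Mk (ZMod l) (k + (l + 1)) := by
  obtain ⟨ψ, h2, h3⟩ := der_mem h
  have h12 : (12 : ZMod l) ≠ 0 := by
    intro h0
    have h4 : ((12 : ℕ) : ZMod l) = 0 := by exact_mod_cast h0
    rw [ZMod.natCast_eq_zero_iff] at h4
    have h5 : l ∣ 2 ^ 2 * 3 := by
      have : (2 ^ 2 * 3 : ℕ) = 12 := by norm_num
      rw [this]
      exact h4
    have hp : l.Prime := Fact.out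
    rcases (Nat.Prime.dvd_mul hp).mp h5 with h6 | h6
    · have h7 := Nat.le_of_dvd (by norm_num) (hp.dvd_of_dvd_pow h6)
      omega
    · have h7 := Nat.le_of_dvd (by norm_num) h6
      omega
  have h4 : dd φ = (12 : ZMod l)⁻¹ • ((k : ZMod l) • (up (ZMod l) e2 * φ) + ψ) := by
    rw [← h3, smul_smul, inv_mul_cancel₀ h12, one_smul]
  rw [h4]
  apply Submodule.smul_mem
  apply Submodule.add_mem
  · apply Submodule.smul_mem
    have h5 := mul_mem (e2_mem l hl h1) h
    rwa [add_comm] at h5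
  · have h5 := mul_mem h2 h1
    rw [mul_one] at h5
    have h6 : k + 2 + (l - 1) = k + (l + 1) := by omega
    rwa [h6] at h5

end MT2
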