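import Pool.Agent.Lib_MP_bfd926_fm.FRec
import Pool.Agent.Lib_MP_bfd926_fm.FGl2
import Pool.Agent.Lib_MP_bfd926_fm.FDeg
import Pool.Agent.Lib_MP_bfd926_fm.FFac
import Pool.Agent.Lib_MP_bfd926_fm.MEis
import Pool.Agent.Lib_MP_bfd926_fm.MTh
import Pool.Agent.Lib_MP_bfd926_fm.MLift
import Pool.Agent.Lib_MP_bfd926_fm.MInt

/-!
# The largest Galois orbit: the general theorem

Let `l ≡ 7` modulo `8` be a prime, `n` a prime, `x ^ 2 + l * y ^ 2 = 2 ^ (n + 2)`, and `l ^ i` not congruent to `± 1`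
modulo `n` for `0 < i < B`. Then for every even `k ≥ (l + 1) ^ 2 / 2` the characteristic polynomial of `T₂` on
`S_k(SL₂(ℤ))` has an irreducible factor over `ℚ` of degree at least `B`.
-/

open UpperHalfPlane PowerSeries
open scoped MatrixGroups ModularForm

namespace MT2

private theorem FFin_up_inj {φ ψ : PowerSeries ℤ} (h : up ℂ φ = up ℂ ψ) : φ = ψ := by
  ext m
  have h1 := congrArg (coeff m) h
  unfold up at h1
  rw [coeff_map, coeff_map] at h1
  simpa using h1

private theorem FFin_up_add (R : Type) [CommRing R] (φ ψ : PowerSeries ℤ) :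
    up R (φ + ψ) = up R φ + up R ψ := by
  unfold up
  rw [map_add]

private theorem FFin_up_smul (R : Type) [CommRing R] (a : ℤ) (φ : PowerSeries ℤ) :
    up R (a • φ) = (a : R) • up R φ := by
  have h1 : a • φ = C a * φ := by
    rw [zsmul_eq_mul]
    congr 1
    exact (map_intCast (C : ℤ →+* PowerSeries ℤ) a).symm
  have h2 : (a : R) • up R φ = C (a : R) * up R φ := (smul_eq_C_mul _ _)
  rw [h1, h2]
  unfold up
  rw [map_mul, map_C]
  rfl

/-- The transfer to another ring. -/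
private theorem FFin_up_aeval (R : Type) [CommRing R] (c : ℤ) (p : Polynomial ℤ)
    (ψ : PowerSeries ℤ) : up R (Polynomial.aeval (tt c) p ψ) =
      Polynomial.aeval (tt (c : R)) (p.map (Int.castRingHom R)) (up R ψ) := by
  induction p using Polynomial.induction_on' with
  | add p q hp hq =>
    rw [map_add, LinearMap.add_apply, FFin_up_add, hp, hq, Polynomial.map_add, map_add,
      LinearMap.add_apply]
  | monomial m a =>
    have h1 : ∀ m : ℕ, up R (((tt c) ^ m) ψ) = ((tt (c : R)) ^ m) (up R ψ) := by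
      intro m
      induction m with
      | zero => rfl
      | succ m ih =>
        rw [pow_succ', Module.End.mul_apply, up_tt, ih, pow_succ', Module.End.mul_apply]
    have h2 : Polynomial.aeval (tt c) (Polynomial.monomial m a) ψ = a • ((tt c ^ m) ψ) := by
      rw [Polynomial.aeval_monomial]
      rfl
    have h3 : Polynomial.aeval (tt (c : R)) ((Polynomial.monomial m a).map (Int.castRingHom R))
        (up R ψ) = (a : R) • ((tt (c : R) ^ m) (up R ψ)) := by
      rw [Polynomial.map_monomial, Polynomial.aeval_monomial]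
      rfl
    rw [h2, FFin_up_smul, h1, h3]

/-- The transfer from cusp forms to expansions. -/
private theorem FFin_q (k : ℕ) (hk : 1 ≤ k) (T : Module.End ℂ (CuspForm 𝒮ℒ (k : ℤ)))
    (hq : ∀ f : CuspForm 𝒮ℒ (k : ℤ), qExpansion 1 (T f) =
      uu (qExpansion 1 f) + C ((2 : ℂ) ^ k / 2) * dbl (qExpansion 1 f))
    (p : Polynomial ℂ) (f : CuspForm 𝒮ℒ (k : ℤ)) :
    qExpansion 1 (Polynomial.aeval T p f : CuspForm 𝒮ℒ (k : ℤ)) =
      Polynomial.aeval (tt (((2 : ℤ) ^ (k - 1) : ℤ) : ℂ)) p (qExpansion 1 f) := by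
  have hc : (2 : ℂ) ^ k / 2 = (((2 : ℤ) ^ (k - 1) : ℤ) : ℂ) := by
    obtain ⟨m, rfl⟩ : ∃ m, k = m + 1 := ⟨k - 1, by omega⟩
    rw [Nat.add_sub_cancel, pow_succ]
    push_cast
    ring
  have hadd : ∀ f g : CuspForm 𝒮ℒ (k : ℤ), qExpansion 1 (⇑(f + g) : ℍ → ℂ) =
      qExpansion 1 f + qExpansion 1 g := fun f g =>
    ModularForm.qExpansion_add one_pos one_mem_strictPeriods_SL f g
  have hsmul : ∀ (a : ℂ) (f : CuspForm 𝒮ℒ (k : ℤ)), qExpansion 1 (⇑(a • f) : ℍ → ℂ) =
      a • qExpansion 1 f := fun a f =>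
    ModularForm.qExpansion_smul one_pos one_mem_strictPeriods_SL a f
  have h1 : ∀ m : ℕ, qExpansion 1 (((T ^ m) f : CuspForm 𝒮ℒ (k : ℤ)) : ℍ → ℂ) =
      ((tt (((2 : ℤ) ^ (k - 1) : ℤ) : ℂ)) ^ m) (qExpansion 1 f) := by
    intro m
    induction m with
    | zero => rfl
    | succ m ih =>
      rw [pow_succ', Module.End.mul_apply, hq, ih, pow_succ', Module.End.mul_apply, tt_apply, hc]
  induction p using Polynomial.induction_on' with
  | add p q hp hq' =>
    rw [map_add, LinearMap.add_apply, hadd, hp, hq', map_add, LinearMap.add_apply]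
  | monomial m a =>
    rw [Polynomial.aeval_monomial, Polynomial.aeval_monomial,
      Module.algebraMap_end_eq_smul_id, Module.algebraMap_end_eq_smul_id]
    show qExpansion 1 ((a • ((T ^ m) f) : CuspForm 𝒮ℒ (k : ℤ)) : ℍ → ℂ) =
      a • (((tt (((2 : ℤ) ^ (k - 1) : ℤ) : ℂ)) ^ m) (qExpansion 1 f))
    rw [hsmul, h1]

/-- `dd ^ a` intertwines. -/
private theorem FFin_dd {F : Type} [Field F] (h2 : (2 : F) ≠ 0) (a : ℕ) (t : PowerSeries F) :
    tt ((4 : F) ^ a) ((dd ^ a) t) = ((2 : F) ^ a) • (dd ^ a) (tt 1 t) := by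
  induction a with
  | zero => simp
  | succ a ih =>
    rw [pow_succ' dd, Module.End.mul_apply, pow_succ' (4 : F), tt_dd, ih, map_smul, smul_smul,
      Module.End.mul_apply, pow_succ' (2 : F)]

private theorem FFin_aeval {F : Type} [Field F] (h2 : (2 : F) ≠ 0) (a : ℕ) (t : PowerSeries F)
    (p : Polynomial F) :
    Polynomial.aeval (tt ((4 : F) ^ a)) (p.comp (Polynomial.C (((2 : F) ^ a)⁻¹) * Polynomial.X))
      ((dd ^ a) t) = (dd ^ a) (Polynomial.aeval (tt 1) p t) := by
  have h2a : (2 : F) ^ a ≠ 0 := pow_ne_zero _ h2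
  induction p using Polynomial.induction_on' with
  | add p q hp hq =>
    rw [Polynomial.add_comp, map_add, LinearMap.add_apply, hp, hq, map_add, LinearMap.add_apply,
      map_add]
  | monomial m c =>
    have h1 : ∀ (m : ℕ) (t : PowerSeries F),
        (((((2 : F) ^ a)⁻¹) • tt ((4 : F) ^ a)) ^ m) ((dd ^ a) t) = (dd ^ a) (((tt 1) ^ m) t) := by
      intro m
      induction m with
      | zero => intro t; rfl
      | succ m ih =>
        intro t
        rw [pow_succ, Module.End.mul_apply, LinearMap.smul_apply, FFin_dd h2, smul_smul,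
          inv_mul_cancel₀ h2a, one_smul, ih, pow_succ, Module.End.mul_apply]
    rw [Polynomial.monomial_comp, Polynomial.aeval_monomial, map_mul, map_pow, map_mul,
      Polynomial.aeval_C, Polynomial.aeval_C, Polynomial.aeval_X,
      Module.algebraMap_end_eq_smul_id, Module.algebraMap_end_eq_smul_id]
    have h3 : ((((2 : F) ^ a)⁻¹) • (LinearMap.id : Module.End F (PowerSeries F))) *
        tt ((4 : F) ^ a) = (((2 : F) ^ a)⁻¹) • tt ((4 : F) ^ a) := by
      ext1 φ
      rfl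
    rw [h3]
    show c • ((((((2 : F) ^ a)⁻¹) • tt ((4 : F) ^ a)) ^ m) ((dd ^ a) t)) =
      (dd ^ a) (c • (((tt 1) ^ m) t))
    rw [h1, map_smul]

private theorem FFin_iter (l : ℕ) [Fact l.Prime] (hl : 5 ≤ l) (k : ℕ) (t : PowerSeries (ZMod l))
    (ht : t ∈ Mk (ZMod l) k) (a : ℕ) : (dd ^ a) t ∈ Mk (ZMod l) (k + a * (l + 1)) := by
  induction a with
  | zero => simpa using ht
  | succ a ih =>
    rw [pow_succ', Module.End.mul_apply]
    have h1 := dd_mem l hl (one_mem l hl) ih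
    have h2 : k + a * (l + 1) + (l + 1) = k + (a + 1) * (l + 1) := by ring
    rwa [h2] at h1

private theorem FFin_raise (l : ℕ) [Fact l.Prime] (hl : 5 ≤ l) (k : ℕ) (t : PowerSeries (ZMod l))
    (ht : t ∈ Mk (ZMod l) k) (b : ℕ) : t ∈ Mk (ZMod l) (k + b * (l - 1)) := by
  have h1 := mul_mem ht (pow_mem (one_mem l hl) b)
  rwa [one_pow, mul_one] at h1

/-- The value of `2 ^ (k - 1)` modulo `l`. -/
private theorem FFin_two (l : ℕ) [Fact l.Prime] (w a b k : ℕ) (hw : 1 ≤ w) (hl : l + 1 = 8 * w)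
    (hk : k = 4 * w + a * (l + 1) + b * (l - 1)) :
    (((2 : ℤ) ^ (k - 1) : ℤ) : ZMod l) = 4 ^ a := by
  have hp := (Fact.out : l.Prime)
  have h20 : (2 : ZMod l) ≠ 0 := by
    have h3 : ((2 : ℕ) : ZMod l) ≠ 0 := by
      rw [Ne, ZMod.natCast_eq_zero_iff]
      intro h
      have := Nat.le_of_dvd (by norm_num) h
      omega
    simpa using h3
  have h2 : (2 : ZMod l) ^ (l - 1) = 1 := ZMod.pow_card_sub_one_eq_one h20
  have hsq : IsSquare (2 : ZMod l) := by
    rw [ZMod.exists_sq_eq_two_iff (by omega)]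
    omega
  have h4 : (2 : ZMod l) ^ (l / 2) = 1 := (ZMod.euler_criterion l h20).1 hsq
  have h5 : l / 2 = 4 * w - 1 := by omega
  rw [h5] at h4
  have h6 : (2 : ZMod l) ^ (l + 1) = 4 := by
    have h7 : l + 1 = (l - 1) + 2 := by omega
    rw [h7, pow_add, h2]
    norm_num
  have h8 : k - 1 = (4 * w - 1) + (l + 1) * a + (l - 1) * b := by
    rw [hk, mul_comm a, mul_comm b]
    omega
  push_cast
  rw [h8, pow_add, pow_add, h4, pow_mul, h6, pow_mul, h2, one_pow, mul_one, one_mul]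

theorem thmFg (l n B w k : ℕ) [Fact l.Prime] (x y : ℤ) (hw : 3 ≤ w) (hl : l + 1 = 8 * w)
    (hn : n.Prime) (hln : ¬ l ∣ n) (hx : Odd x) (hy : Odd y)
    (hxy : x ^ 2 + l * y ^ 2 = 2 ^ (n + 2))
    (hB : ∀ i, 0 < i → i < B → ¬ (n : ℤ) ∣ (l : ℤ) ^ i - 1 ∧ ¬ (n : ℤ) ∣ (l : ℤ) ^ i + 1)
    (hk : Even k) (hk0 : (l + 1) ^ 2 ≤ 2 * k) :
    ∃ (_ : FiniteDimensional ℂ (CuspForm 𝒮ℒ (k : ℤ))) (T : Module.End ℂ (CuspForm 𝒮ℒ (k : ℤ))),
      (∀ (f : CuspForm 𝒮ℒ (k : ℤ)) (z : ℍ),
        T f z = 2 ^ ((k : ℤ) - 1) * f (ofComplex (2 * z)) +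
          (f (ofComplex (z / 2)) + f (ofComplex ((z + 1) / 2))) / 2) ∧
      ∃ Q : Polynomial ℚ, Irreducible Q ∧ Q.map (algebraMap ℚ ℂ) ∣ T.charpoly ∧
        B ≤ Q.natDegree := by
  have hp := (Fact.out : l.Prime)
  have hl5 : 5 ≤ l := by omega
  have hlodd : Odd l := by rw [Nat.odd_iff]; omega
  -- the exponents
  obtain ⟨a, b, ha, hab⟩ : ∃ a b : ℕ, 1 ≤ a ∧ k = 4 * w + a * (l + 1) + b * (l - 1) := by
    obtain ⟨h, hh⟩ : ∃ h, h + 1 = 4 * w := ⟨4 * w - 1, by omega⟩
    obtain ⟨m, hm⟩ := hk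
    have hl1 : l + 1 = 2 * (h + 1) := by omega
    have hl2 : l - 1 = 2 * h := by omega
    have hh0 : 0 < h := by omega
    rw [hl1] at hk0
    -- N = (k - 4 w) / 2
    obtain ⟨N, hN⟩ : ∃ N, k = 4 * w + 2 * N := by
      refine ⟨m - 2 * w, ?_⟩
      have h1 : (2 * (h + 1)) ^ 2 = 4 * (h + 1) * (h + 1) := by ring
      have h2 : 4 * (h + 1) * (h + 1) ≥ 4 * (h + 1) * 2 := Nat.mul_le_mul_left _ (by omega)
      omega
    have hNb : h * (h + 1) ≤ N := by
      have h1 : (2 * (h + 1)) ^ 2 = 4 * (h * (h + 1)) + 4 * (h + 1) := by ring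
      omega
    refine ⟨if N % h = 0 then h else N % h,
      (N - (if N % h = 0 then h else N % h) * (h + 1)) / h, ?_, ?_⟩
    · split_ifs
      · omega
      · omega
    · set a := (if N % h = 0 then h else N % h) with haD
      have ha1 : a ≤ h := by
        rw [haD]
        split_ifs
        · exact le_refl h
        · exact (Nat.mod_lt _ hh0).le
      have ha2 : a * (h + 1) ≤ N := le_trans (Nat.mul_le_mul_right _ ha1) hNb
      have ha3 : h ∣ N - a * (h + 1) := by
        have h1 : N ≡ a * (h + 1) [MOD h] := by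
          have h2 : a * (h + 1) ≡ a [MOD h] := by
            unfold Nat.ModEq
            rw [mul_add, mul_one, Nat.mul_add_mod_self_right]
          have h3 : N ≡ a [MOD h] := by
            rw [haD]
            split_ifs with h4
            · unfold Nat.ModEq
              rw [h4, Nat.mod_self]
            · exact (Nat.mod_modEq N h).symm
          exact h3.trans h2.symm
        exact (Nat.modEq_iff_dvd' ha2).1 h1.symm
      obtain ⟨c, hc⟩ := ha3
      have hc2 : (N - a * (h + 1)) / h = c := by rw [hc, Nat.mul_div_cancel_left _ hh0]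
      rw [hc2, hN, hl1, hl2]
      have : N = a * (h + 1) + h * c := by omega
      rw [this]
      ring
  have hk1 : 1 ≤ k := by rw [hab]; omega
  have hk4 : 4 ≤ k := by rw [hab]; omega
  -- the form modulo `l`
  have h20 : (2 : ZMod l) ≠ 0 := by
    have h3 : ((2 : ℕ) : ZMod l) ≠ 0 := by
      rw [Ne, ZMod.natCast_eq_zero_iff]
      intro h
      have := Nat.le_of_dvd (by norm_num) h
      omega
    simpa using h3
  set t : PowerSeries (ZMod l) := up (ZMod l) (th l x y 0) with htD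
  have ht : t ∈ Mk (ZMod l) (4 * w) := th0_mem l hl5 w hl x y hx hy
  set v : PowerSeries (ZMod l) := (dd ^ a) t with hvD
  have hv : v ∈ Mk (ZMod l) k := by
    have h1 := FFin_raise l hl5 _ v (FFin_iter l hl5 _ t ht a) b
    rwa [← hab] at h1
  obtain ⟨a', ha'⟩ : ∃ a', a = a' + 1 := ⟨a - 1, by omega⟩
  have hv0 : coeff 0 v = 0 := by
    rw [hvD, ha', pow_succ', Module.End.mul_apply, coeff_dd, Nat.cast_zero, zero_mul]
  obtain ⟨f, ψ, hf, hψ⟩ := lift_cusp l k hk hk4 v hv hv0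
  -- the operator
  obtain ⟨T, hT, hq⟩ := exists_T2 k
  have hfin : FiniteDimensional ℂ (CuspForm 𝒮ℒ (k : ℤ)) :=
    Module.Finite.equiv (CuspForm.discriminantEquiv (k := (k : ℤ))).symm
  obtain ⟨P, hPm, hP⟩ := charpoly_int k T hq
  refine ⟨hfin, T, hT, ?_⟩
  -- Cayley-Hamilton
  have hCH : Polynomial.aeval T (P.map (Int.castRingHom ℂ)) f = 0 := by
    rw [hP, LinearMap.aeval_self_charpoly, LinearMap.zero_apply]
  have h1 : up ℂ (Polynomial.aeval (tt ((2 : ℤ) ^ (k - 1))) P ψ) = up ℂ 0 := by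
    have h2 := FFin_q k hk1 T hq (P.map (Int.castRingHom ℂ)) f
    rw [hCH, hf] at h2
    rw [FFin_up_aeval, ← h2]
    have h3 : qExpansion 1 ((0 : CuspForm 𝒮ℒ (k : ℤ)) : ℍ → ℂ) = 0 :=
      (ModularForm.qExpansion_eq_zero_iff one_pos one_mem_strictPeriods_SL
        (CuspForm.toModularFormₗ (0 : CuspForm 𝒮ℒ (k : ℤ)))).2 (map_zero _)
    rw [h3]
    unfold up
    rw [map_zero]
  have h4 := FFin_up_inj h1
  have h5 : Polynomial.aeval (tt ((4 : ZMod l) ^ a)) (P.map (Int.castRingHom (ZMod l))) v = 0 := by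
    have h6 := FFin_up_aeval (ZMod l) ((2 : ℤ) ^ (k - 1)) P ψ
    rw [h4, hψ, FFin_two l w a b k (by omega) hl hab] at h6
    rw [← h6]
    unfold up
    rw [map_zero]
  -- the relation
  have hc : (2 : ZMod l) ^ a ≠ 0 := pow_ne_zero _ h20
  have hrel : Polynomial.aeval (tt ((4 : ZMod l) ^ a))
      ((VL (ZMod l) n).comp (Polynomial.C ((2 : ZMod l) ^ a)⁻¹ * Polynomial.X) - 2) v = 0 := by
    have h6 := congrArg (up (ZMod l)) (vl_th l hlodd n x y hx hy hxy hn.one_lt.le)
    rw [FFin_up_aeval, vl_map] at h6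
    have h7 := FFin_aeval h20 a t (VL (ZMod l) n - 2)
    have h8 : (VL (ZMod l) n - 2).comp (Polynomial.C ((2 : ZMod l) ^ a)⁻¹ * Polynomial.X) =
        (VL (ZMod l) n).comp (Polynomial.C ((2 : ZMod l) ^ a)⁻¹ * Polynomial.X) - 2 := by
      rw [Polynomial.sub_comp, Polynomial.ofNat_comp]
      rfl
    rw [h8] at h7
    rw [hvD, h7]
    have h9 : Polynomial.aeval (tt (1 : ZMod l)) (VL (ZMod l) n - 2) t = 0 := by
      rw [map_sub, LinearMap.sub_apply, map_ofNat]
      have h10 : ((OfNat.ofNat 2 : Module.End (ZMod l) (PowerSeries (ZMod l)))) t = 2 * t := by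
        show (2 : Module.End (ZMod l) (PowerSeries (ZMod l))) t = 2 * t
        rw [← one_add_one_eq_two (R := Module.End (ZMod l) (PowerSeries (ZMod l))),
          LinearMap.add_apply, Module.End.one_apply, two_mul]
      rw [h10]
      have h11 : up (ZMod l) (2 * th l x y 0) = 2 * t := by
        unfold up
        rw [map_mul, map_ofNat]
        rfl
      rw [h11] at h6
      have h12 : ((1 : ℤ) : ZMod l) = 1 := Int.cast_one
      rw [h12] at h6
      rw [h6, sub_self]
    rw [h9, map_zero]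
  have hne : tt ((4 : ZMod l) ^ a) v ≠ (2 * (2 : ZMod l) ^ a) • v := by
    intro h6
    have h7 := congrArg (coeff 1) h6
    have h8 : ∀ (m : ℕ) (s : PowerSeries (ZMod l)), coeff 1 ((dd ^ m) s) = coeff 1 s := by
      intro m
      induction m with
      | zero => intro s; rfl
      | succ m ih =>
        intro s
        rw [pow_succ, Module.End.mul_apply, ih, coeff_dd, Nat.cast_one, one_mul]
    obtain ⟨-, -, c1, -, c2, -⟩ := cnt_small l (by omega) x y hy
    have h9 : coeff 1 (tt (1 : ZMod l) t) = 0 := by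
      rw [tt_apply, map_one, one_mul, map_add]
      have e1 : coeff 1 (uu t) = coeff 2 t := by
        unfold uu
        rw [coeff_mk]
      have e2 : coeff 1 (dbl t) = 0 := by
        unfold dbl
        exact coeff_expand_of_not_dvd 2 two_ne_zero t (by norm_num)
      rw [e1, e2, add_zero, htD]
      unfold up th
      rw [coeff_map, coeff_mk, c2]
      simp
    have h10 : coeff 1 t = 2 := by
      rw [htD]
      unfold up th
      rw [coeff_map, coeff_mk, c1]
      simp
    rw [hvD, FFin_dd h20, coeff_smul, coeff_smul, h8, h8, h9, h10, smul_zero, smul_eq_mul] at h7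
    have h11 : (2 : ZMod l) * 2 ^ a * 2 ≠ 0 := mul_ne_zero (mul_ne_zero h20 hc) h20
    exact h11 h7.symm
  obtain ⟨g, hg, hgB, hgd⟩ := exists_factor l n B hn hln _ hc hB _ v hrel hne
  obtain ⟨Q, hQ, hQd, hQn⟩ := exists_rat_factor l P hPm g hg (hgd _ h5)
  refine ⟨Q, hQ, ?_, le_trans hgB hQn⟩
  have h6 : P.map (Int.castRingHom ℂ) = (P.map (Int.castRingHom ℚ)).map (algebraMap ℚ ℂ) := by
    rw [Polynomial.map_map]
    congr 1
  rw [← hP, h6]
  exact Polynomial.map_dvd _ hQd

end MT2
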