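import Mathlib

/-!
# Gleason's theorem in characteristic `l`

`p = ∑ p_k X ^ k` stands for the form `∑ p_k x ^ (8 w - k) y ^ k`; the hypothesis `hinv` is the invariance under
`(x, y) ↦ (x + y, x - y) / √2`. Induction on `w` (step `3`).
Let `Q = 1 + 14 X ^ 4 + X ^ 8`, `D = X ^ 4 * (1 - X ^ 4) ^ 4`; the forms `Q` (degree `8`) and `D` (degree `24`) are
invariant: `∑ Q_k (1 + X) ^ (8 - k) (1 - X) ^ k = 2 ^ 4 * Q`, `∑ D_k (1 + X) ^ (24 - k) (1 - X) ^ k = 2 ^ 12 * D`.
It is convenient to write `H w p = ∑_{k ≤ 8 w} C (p_k) (1 + X) ^ (8 w - k) (1 - X) ^ k`; then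
`H (w + w') (p * p') = H w p * H w' p'` for `deg p ≤ 8 w`, `deg p' ≤ 8 w'`, `H` is linear, `H w (p (-X))` is
`H w p` with `X` replaced by `1 / X` (reverse of degree `8 w`), `H w (H w p) = 2 ^ (8 w) p`.
Let `c = p.coeff 0` and `p' = p - c * Q ^ w`: again invariant, in `F[X ^ 4]`, and `p'_0 = 0`, so `X ^ 4 ∣ p'`. Then
`2 ^ (4 w) * p' = H w p'` is divisible by `(1 - X) ^ 4`; since `p' = g (X ^ 4)` the polynomial `g` is divisible by
`(1 - X) ^ 4` (`X ^ 4 - 1` has the simple root `1`), so `(1 - X ^ 4) ^ 4 ∣ p'`. The coefficient of `X ^ (8 w)` in `p'`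
is `0`: as `p'` is even, `H w p'` is its own reverse, so `p'_(8 w) = p'_0 = 0`; hence `deg p' ≤ 8 w - 4`. `D ∣ p'`
(`X ^ 4` and `1 - X ^ 4` are coprime), `p' = D * r`, `deg r ≤ 8 (w - 3)` (and `p' = 0` if `w < 3`), `r` is in
`F[X ^ 4]` and invariant (`2 ^ 12 D * H (w - 3) r = 2 ^ (4 w) D r`). Induction.
-/

open Polynomial

namespace MT2

private noncomputable def FGl_H {F : Type} [Field F] (n : ℕ) (p : F[X]) : F[X] :=
  ∑ k ∈ Finset.range (n + 1), C (p.coeff k) * ((1 + X) ^ (n - k) * (1 - X) ^ k)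

private noncomputable def FGl_s (F : Type) [Field F] : FractionRing F[X] :=
  algebraMap F[X] (FractionRing F[X]) (1 - X) / algebraMap F[X] (FractionRing F[X]) (1 + X)

private theorem FGl_ne {F : Type} [Field F] : algebraMap F[X] (FractionRing F[X]) (1 + X) ≠ 0 := by
  intro h
  have h1 : (1 + X : F[X]) = 0 := by
    apply IsFractionRing.injective F[X] (FractionRing F[X])
    rw [h, map_zero]
  have h2 : (X + C 1 : F[X]) = 0 := by rw [C_1, add_comm]; exact h1
  exact X_add_C_ne_zero (1 : F) h2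

private theorem FGl_eval {F : Type} [Field F] (n : ℕ) (p : F[X]) (hp : p.natDegree ≤ n) :
    algebraMap F[X] (FractionRing F[X]) (FGl_H n p) =
      algebraMap F[X] (FractionRing F[X]) (1 + X) ^ n * aeval (FGl_s F) p := by
  rw [FGl_H, aeval_eq_sum_range' (Nat.lt_succ_of_le hp), map_sum, Finset.mul_sum]
  refine Finset.sum_congr rfl fun k hk => ?_
  have hk' : k ≤ n := Nat.lt_succ_iff.1 (Finset.mem_range.1 hk)
  have h1 := FGl_ne (F := F)
  rw [map_mul, map_mul, map_pow, map_pow, Algebra.smul_def,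
    IsScalarTower.algebraMap_apply F F[X] (FractionRing F[X]), Polynomial.algebraMap_eq, FGl_s, div_pow]
  have h2 : algebraMap F[X] (FractionRing F[X]) (1 + X) ^ n =
      algebraMap F[X] (FractionRing F[X]) (1 + X) ^ (n - k) *
        algebraMap F[X] (FractionRing F[X]) (1 + X) ^ k := by
    rw [← pow_add, Nat.sub_add_cancel hk']
  rw [h2]
  field_simp

private theorem FGl_mul {F : Type} [Field F] (n m : ℕ) (p q : F[X]) (hp : p.natDegree ≤ n)
    (hq : q.natDegree ≤ m) : FGl_H (n + m) (p * q) = FGl_H n p * FGl_H m q := by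
  apply IsFractionRing.injective F[X] (FractionRing F[X])
  rw [map_mul, FGl_eval n p hp, FGl_eval m q hq,
    FGl_eval (n + m) (p * q) (natDegree_mul_le.trans (add_le_add hp hq)), map_mul, pow_add]
  ring

private theorem FGl_sub {F : Type} [Field F] (n : ℕ) (p q : F[X]) :
    FGl_H n (p - q) = FGl_H n p - FGl_H n q := by
  unfold FGl_H
  rw [← Finset.sum_sub_distrib]
  refine Finset.sum_congr rfl fun k _ => ?_
  rw [coeff_sub, C_sub, sub_mul]

private theorem FGl_C {F : Type} [Field F] (n : ℕ) (c : F) (p : F[X]) :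
    FGl_H n (C c * p) = C c * FGl_H n p := by
  unfold FGl_H
  rw [Finset.mul_sum]
  refine Finset.sum_congr rfl fun k _ => ?_
  rw [coeff_C_mul, C_mul, mul_assoc]

private theorem FGl_Qdeg {F : Type} [Field F] : (1 + 14 * X ^ 4 + X ^ 8 : F[X]).natDegree ≤ 8 := by
  compute_degree

private theorem FGl_Ddeg {F : Type} [Field F] :
    (X ^ 4 * (1 - X ^ 4) ^ 4 : F[X]).natDegree ≤ 24 := by
  have h1 : (1 - X ^ 4 : F[X]).natDegree ≤ 4 := by compute_degree
  have h2 : ((1 - X ^ 4 : F[X]) ^ 4).natDegree ≤ 4 * 4 := natDegree_pow_le_of_le 4 h1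
  have h3 : (X ^ 4 : F[X]).natDegree ≤ 4 := by compute_degree
  exact natDegree_mul_le.trans (by omega)

private theorem FGl_HQ {F : Type} [Field F] :
    FGl_H 8 (1 + 14 * X ^ 4 + X ^ 8 : F[X]) = C (2 ^ 4) * (1 + 14 * X ^ 4 + X ^ 8) := by
  apply IsFractionRing.injective F[X] (FractionRing F[X])
  rw [FGl_eval 8 _ FGl_Qdeg]
  have h1 := FGl_ne (F := F)
  have h2 : aeval (FGl_s F) (1 + 14 * X ^ 4 + X ^ 8 : F[X]) =
      1 + 14 * (FGl_s F) ^ 4 + (FGl_s F) ^ 8 := by
    simp only [map_add, map_one, map_mul, map_pow, aeval_X, map_ofNat]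
  have h3 : (C (2 ^ 4) * (1 + 14 * X ^ 4 + X ^ 8) : F[X]) =
      (1 + X) ^ 8 + 14 * (1 + X) ^ 4 * (1 - X) ^ 4 + (1 - X) ^ 8 := by
    have h4 : (C ((2 : F) ^ 4) : F[X]) = 16 := by
      rw [C_pow]
      have : (C (2 : F) : F[X]) = 2 := map_ofNat C 2
      rw [this]
      norm_num
    rw [h4]
    ring
  rw [h2, h3, FGl_s]
  simp only [map_add, map_mul, map_pow, map_ofNat]
  have h5 : algebraMap F[X] (FractionRing F[X]) 1 + algebraMap F[X] (FractionRing F[X]) X ≠ 0 := by
    rw [← map_add]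
    exact h1
  field_simp

private theorem FGl_HD {F : Type} [Field F] :
    FGl_H 24 (X ^ 4 * (1 - X ^ 4) ^ 4 : F[X]) = C (2 ^ 12) * (X ^ 4 * (1 - X ^ 4) ^ 4) := by
  apply IsFractionRing.injective F[X] (FractionRing F[X])
  rw [FGl_eval 24 _ FGl_Ddeg]
  have h1 := FGl_ne (F := F)
  have h2 : aeval (FGl_s F) (X ^ 4 * (1 - X ^ 4) ^ 4 : F[X]) =
      (FGl_s F) ^ 4 * (1 - (FGl_s F) ^ 4) ^ 4 := by
    simp only [map_sub, map_one, map_mul, map_pow, aeval_X]
  have h3 : (C (2 ^ 12) * (X ^ 4 * (1 - X ^ 4) ^ 4) : F[X]) =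
      (1 + X) ^ 4 * (1 - X) ^ 4 * ((1 + X) ^ 4 - (1 - X) ^ 4) ^ 4 := by
    have h4 : (C ((2 : F) ^ 12) : F[X]) = 4096 := by
      rw [C_pow]
      have : (C (2 : F) : F[X]) = 2 := map_ofNat C 2
      rw [this]
      norm_num
    rw [h4]
    ring
  rw [h2, h3, FGl_s]
  simp only [map_mul, map_pow, map_sub]
  have h6 : algebraMap F[X] (FractionRing F[X]) (1 + X) ^ 24 =
      algebraMap F[X] (FractionRing F[X]) (1 + X) ^ 4 * algebraMap F[X] (FractionRing F[X]) (1 + X) ^ 4 *
        (algebraMap F[X] (FractionRing F[X]) (1 + X) ^ 4) ^ 4 := by ring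
  rw [h6, div_pow]
  field_simp

private theorem FGl_HQw {F : Type} [Field F] (w : ℕ) :
    FGl_H (8 * w) ((1 + 14 * X ^ 4 + X ^ 8 : F[X]) ^ w) =
      C (2 ^ (4 * w)) * (1 + 14 * X ^ 4 + X ^ 8) ^ w := by
  induction w with
  | zero =>
    unfold FGl_H
    simp
  | succ w ih =>
    have hd : ((1 + 14 * X ^ 4 + X ^ 8 : F[X]) ^ w).natDegree ≤ 8 * w := by
      have := natDegree_pow_le_of_le w (FGl_Qdeg (F := F))
      exact this.trans (by omega)
    rw [pow_succ, Nat.mul_succ, FGl_mul _ _ _ _ hd FGl_Qdeg, ih, FGl_HQ, Nat.mul_succ, pow_add, C_mul]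
    ring

/-- the root `1` of `g (X ^ 4)` -/
private theorem FGl_root {F : Type} [Field F] (h2 : (2 : F) ≠ 0) (n : ℕ) :
    ∀ g : F[X], (1 - X) ^ n ∣ expand F 4 g → (1 - X) ^ n ∣ g := by
  induction n with
  | zero => intro g _; simp
  | succ n ih =>
    intro g hg
    have h1 : (1 - X : F[X]) ∣ expand F 4 g := (dvd_pow_self _ (Nat.succ_ne_zero n)).trans hg
    have e1 : (1 - X : F[X]) = -(X - C 1) := by rw [C_1]; ring
    have h3 : (1 - X : F[X]) ∣ g := by
      rw [e1, neg_dvd, dvd_iff_isRoot] at h1 ⊢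
      rw [IsRoot.def, expand_eval] at h1
      rw [IsRoot.def]
      simpa using h1
    obtain ⟨g1, rfl⟩ := h3
    have e2 : expand F 4 ((1 - X) * g1) = (1 - X) * (((1 + X) * (1 + X ^ 2)) * expand F 4 g1) := by
      rw [map_mul, map_sub, map_one, expand_X]
      ring
    rw [e2, pow_succ', mul_dvd_mul_iff_left] at hg
    · have hcop : IsCoprime ((1 - X : F[X]) ^ n) ((1 + X) * (1 + X ^ 2)) := by
        apply IsCoprime.pow_left
        rw [e1, IsCoprime.neg_left_iff]
        apply (irreducible_X_sub_C (1 : F)).coprime_iff_not_dvd.2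
        rw [dvd_iff_isRoot, IsRoot.def]
        simp only [eval_mul, eval_add, eval_one, eval_X, eval_pow, one_pow]
        intro h
        have : (2 : F) * 2 = 0 := by
          rw [← h]; norm_num
        rcases mul_eq_zero.1 this with h | h <;> exact h2 h
      rw [pow_succ', mul_dvd_mul_iff_left]
      · exact ih g1 (hcop.dvd_of_dvd_mul_left hg)
      · rw [e1]
        exact neg_ne_zero.2 (X_sub_C_ne_zero 1)
    · rw [e1]
      exact neg_ne_zero.2 (X_sub_C_ne_zero 1)

private theorem FGl_coeff0 {F : Type} [Field F] (n : ℕ) (p : F[X]) :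
    (FGl_H n p).coeff 0 = ∑ k ∈ Finset.range (n + 1), p.coeff k := by
  unfold FGl_H
  rw [finsetSum_coeff]
  refine Finset.sum_congr rfl fun k _ => ?_
  rw [coeff_C_mul, coeff_zero_eq_eval_zero]
  simp

private theorem FGl_coefftop {F : Type} [Field F] (n : ℕ) (p : F[X])
    (hp : ∀ k, ¬ 4 ∣ k → p.coeff k = 0) :
    (FGl_H n p).coeff n = ∑ k ∈ Finset.range (n + 1), p.coeff k := by
  unfold FGl_H
  rw [finsetSum_coeff]
  refine Finset.sum_congr rfl fun k hk => ?_
  have hk' : k ≤ n := Nat.lt_succ_iff.1 (Finset.mem_range.1 hk)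
  rw [coeff_C_mul]
  by_cases h4 : 4 ∣ k
  · have e1 : (1 + X : F[X]).natDegree ≤ 1 := by compute_degree
    have e2 : (1 - X : F[X]).natDegree ≤ 1 := by compute_degree
    have f1 : ((1 + X : F[X]) ^ (n - k)).natDegree ≤ n - k := by
      have := natDegree_pow_le_of_le (n - k) e1
      rwa [mul_one] at this
    have f2 : ((1 - X : F[X]) ^ k).natDegree ≤ k := by
      have := natDegree_pow_le_of_le k e2
      rwa [mul_one] at this
    have g1 := coeff_mul_add_eq_of_natDegree_le f1 f2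
    rw [Nat.sub_add_cancel hk'] at g1
    have g2 := coeff_pow_of_natDegree_le (m := n - k) e1
    have g3 := coeff_pow_of_natDegree_le (m := k) e2
    rw [mul_one] at g2 g3
    rw [g1, g2, g3]
    have c1 : (1 + X : F[X]).coeff 1 = 1 := by
      rw [coeff_add, coeff_X_one, coeff_one]; simp
    have c2 : (1 - X : F[X]).coeff 1 = -1 := by
      rw [coeff_sub, coeff_X_one, coeff_one]; simp
    rw [c1, c2, one_pow, one_mul]
    have h2 : Even k := by
      obtain ⟨t, rfl⟩ := h4
      exact ⟨2 * t, by ring⟩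
    rw [h2.neg_one_pow, mul_one]
  · rw [hp k h4, zero_mul]

theorem gleason {F : Type} [Field F] (h2 : (2 : F) ≠ 0) (w : ℕ) (p : F[X])
    (hdeg : p.natDegree ≤ 8 * w) (h4 : ∀ k, ¬ 4 ∣ k → p.coeff k = 0)
    (hinv : ∑ k ∈ Finset.range (8 * w + 1),
      C (p.coeff k) * ((1 + X) ^ (8 * w - k) * (1 - X) ^ k) = C (2 ^ (4 * w)) * p) :
    ∃ y : ℕ → F, p = ∑ i ∈ Finset.range (w / 3 + 1),
      C (y i) * ((X ^ 4 * (1 - X ^ 4) ^ 4) ^ i * (1 + 14 * X ^ 4 + X ^ 8) ^ (w - 3 * i)) := by
  induction w using Nat.strong_induction_on generalizing p with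
  | _ w ih =>
    have hinv' : FGl_H (8 * w) p = C (2 ^ (4 * w)) * p := hinv
    have h2w : (2 : F) ^ (4 * w) ≠ 0 := pow_ne_zero _ h2
    obtain ⟨Q, hQ⟩ : ∃ Q : F[X], Q = 1 + 14 * X ^ 4 + X ^ 8 := ⟨_, rfl⟩
    obtain ⟨D, hD⟩ : ∃ D : F[X], D = X ^ 4 * (1 - X ^ 4) ^ 4 := ⟨_, rfl⟩
    obtain ⟨c, hc⟩ : ∃ c : F, c = p.coeff 0 := ⟨_, rfl⟩
    obtain ⟨q, hq⟩ : ∃ q : F[X], q = p - C c * Q ^ w := ⟨_, rfl⟩
    have hQe : Q = expand F 4 (1 + 14 * X + X ^ 2) := by
      rw [hQ]
      simp only [map_add, map_one, map_mul, map_pow, expand_X, map_ofNat]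
      ring
    have hDe : D = expand F 4 (X * (1 - X) ^ 4) := by
      rw [hD]
      simp only [map_sub, map_one, map_mul, map_pow, expand_X]
    have hQw : ∀ k, ¬ 4 ∣ k → (Q ^ w).coeff k = 0 := by
      intro k hk
      rw [hQe, ← map_pow, coeff_expand (by norm_num), if_neg hk]
    have hq4 : ∀ k, ¬ 4 ∣ k → q.coeff k = 0 := by
      intro k hk
      rw [hq, coeff_sub, coeff_C_mul, h4 k hk, hQw k hk, mul_zero, sub_zero]
    have hQ0 : (Q ^ w).coeff 0 = 1 := by
      rw [coeff_zero_eq_eval_zero, hQ]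
      simp
    have hq0 : q.coeff 0 = 0 := by
      rw [hq, coeff_sub, coeff_C_mul, hQ0, ← hc, mul_one, sub_self]
    have hqi : FGl_H (8 * w) q = C (2 ^ (4 * w)) * q := by
      rw [hq, FGl_sub, FGl_C, hinv', hQ, FGl_HQw]
      ring
    have hqdeg : q.natDegree ≤ 8 * w := by
      rw [hq]
      refine (natDegree_sub_le _ _).trans (max_le hdeg ((natDegree_C_mul_le _ _).trans ?_))
      have := natDegree_pow_le_of_le w (FGl_Qdeg (F := F))
      rw [← hQ] at this
      exact this.trans (by omega)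
    have hqtop : q.coeff (8 * w) = 0 := by
      have e1 := FGl_coeff0 (8 * w) q
      have e2 := FGl_coefftop (8 * w) q hq4
      rw [hqi, coeff_C_mul, hq0, mul_zero] at e1
      rw [hqi, coeff_C_mul, ← e1] at e2
      rcases mul_eq_zero.1 e2 with h | h
      · exact absurd h h2w
      · exact h
    -- `q = g (X ^ 4)`
    obtain ⟨g, hg⟩ : ∃ g : F[X], q = expand F 4 g := by
      refine ⟨contract 4 q, ?_⟩
      ext k
      rw [coeff_expand (by norm_num)]
      by_cases hk : 4 ∣ k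
      · rw [if_pos hk, coeff_contract (by norm_num), Nat.div_mul_cancel hk]
      · rw [if_neg hk, hq4 k hk]
    have hXg : X ∣ g := by
      rw [X_dvd_iff]
      have := hq0
      rw [hg, coeff_expand (by norm_num), if_pos (dvd_zero 4)] at this
      simpa using this
    have h1g : (1 - X) ^ 4 ∣ g := by
      apply FGl_root h2 4 g
      rw [← hg]
      have e1 : (1 - X : F[X]) ^ 4 ∣ FGl_H (8 * w) q := by
        unfold FGl_H
        refine Finset.dvd_sum fun k _ => ?_
        by_cases hk : 4 ≤ k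
        · exact ((pow_dvd_pow _ hk).trans (dvd_mul_left _ _)).trans (dvd_mul_left _ _)
        · have : q.coeff k = 0 := by
            rcases Nat.eq_zero_or_pos k with rfl | hk0
            · exact hq0
            · exact hq4 k (fun hd => by have := Nat.le_of_dvd hk0 hd; omega)
          rw [this, C_0, zero_mul]
          exact dvd_zero _
      rw [hqi] at e1
      have e2 : q = C ((2 ^ (4 * w))⁻¹) * (C (2 ^ (4 * w)) * q) := by
        rw [← mul_assoc, ← C_mul, inv_mul_cancel₀ h2w, C_1, one_mul]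
      rw [e2]
      exact e1.mul_left _
    have hcop : IsCoprime (X : F[X]) ((1 - X) ^ 4) := by
      apply IsCoprime.pow_right
      exact ⟨1, 1, by ring⟩
    obtain ⟨r4, hr4⟩ : X * (1 - X) ^ 4 ∣ g := hcop.mul_dvd hXg h1g
    obtain ⟨r, hr⟩ : ∃ r : F[X], r = expand F 4 r4 := ⟨_, rfl⟩
    have hqr : q = D * r := by
      rw [hg, hr4, map_mul, hDe, hr]
    have hDdeg : D.natDegree = 20 := by
      have e1 : (1 - X ^ 4 : F[X]).natDegree = 4 := by
        have : (1 - X ^ 4 : F[X]) = -(X ^ 4 - C 1) := by rw [C_1]; ring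
        rw [this, natDegree_neg, natDegree_X_pow_sub_C]
      have e2 : (1 - X ^ 4 : F[X]) ≠ 0 := by
        intro h
        rw [h] at e1
        simp at e1
      rw [hD, natDegree_mul (pow_ne_zero _ X_ne_zero) (pow_ne_zero _ e2), natDegree_pow, natDegree_pow,
        e1, natDegree_X]
    have hD0 : D ≠ 0 := by
      intro h
      rw [h] at hDdeg
      simp at hDdeg
    have hpq : p = q + C c * Q ^ w := by
      rw [hq]; ring
    by_cases hr0 : r = 0
    · refine ⟨fun i => if i = 0 then c else 0, ?_⟩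
      rw [Finset.sum_eq_single 0]
      · simp only [if_true, pow_zero, one_mul, Nat.mul_zero, Nat.sub_zero]
        rw [← hQ, hpq, hqr, hr0, mul_zero, zero_add]
      · intro i _ hi
        simp [hi]
      · intro h
        exact absurd (Finset.mem_range.2 (Nat.succ_pos _)) h
    · have hqd : q.natDegree = 20 + r.natDegree := by
        rw [hqr, natDegree_mul hD0 hr0, hDdeg]
      have hq0' : q ≠ 0 := by
        rw [hqr]; exact mul_ne_zero hD0 hr0
      have h4q : 4 ∣ q.natDegree := by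
        by_contra h
        have := hq4 _ h
        exact hq0' (leadingCoeff_eq_zero.1 this)
      have hlt : q.natDegree ≠ 8 * w := by
        intro h
        rw [← h] at hqtop
        exact hq0' (leadingCoeff_eq_zero.1 hqtop)
      have hw3 : 3 ≤ w := by omega
      have hrdeg : r.natDegree ≤ 8 * (w - 3) := by omega
      have hri : FGl_H (8 * (w - 3)) r = C (2 ^ (4 * (w - 3))) * r := by
        have e1 := FGl_mul 24 (8 * (w - 3)) D r (by rw [hD]; exact FGl_Ddeg) hrdeg
        have e2 : 24 + 8 * (w - 3) = 8 * w := by omega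
        have e3 : 4 * w = 12 + 4 * (w - 3) := by omega
        rw [e2, ← hqr, hqi, hqr] at e1
        have e4 : FGl_H 24 D = C (2 ^ 12) * D := by
          rw [hD]; exact FGl_HD
        rw [e4, e3, pow_add, C_mul] at e1
        have e5 : C ((2 : F) ^ 12) * D ≠ 0 := by
          refine mul_ne_zero ?_ hD0
          rw [Ne, C_eq_zero]
          exact pow_ne_zero _ h2
        apply mul_left_cancel₀ e5
        rw [← e1]
        ring
      have hr4' : ∀ k, ¬ 4 ∣ k → r.coeff k = 0 := by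
        intro k hk
        rw [hr, coeff_expand (by norm_num), if_neg hk]
      obtain ⟨y, hy⟩ := ih (w - 3) (by omega) r hrdeg hr4' hri
      refine ⟨fun i => if i = 0 then c else y (i - 1), ?_⟩
      have e6 : w / 3 + 1 = ((w - 3) / 3 + 1) + 1 := by omega
      rw [e6, Finset.sum_range_succ']
      simp only [if_true, pow_zero, one_mul, Nat.mul_zero, Nat.sub_zero]
      rw [hpq, hqr, hQ]
      congr 1
      rw [hy, Finset.mul_sum]
      refine Finset.sum_congr rfl fun i _ => ?_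
      have e7 : w - 3 * (i + 1) = w - 3 - 3 * i := by omega
      rw [if_neg (Nat.succ_ne_zero i), Nat.add_sub_cancel, e7, hD, pow_succ]
      ring

end MT2
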