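import Pool.Agent.Lib_MP_bfd926_fm.FNumX
import Pool.Agent.Lib_MP_bfd926_fm.FNumY
import Mathlib

/-!
# The numerical data

`l = 1000002505031`, `n = 2002621`: there are odd integers `x`, `y` with
`x ^ 2 + l * y ^ 2 = 2 ^ (n + 2)`.
-/

namespace MT2

/-- The number with the given digits in base `2 ^ 8000`. -/
noncomputable def ofDig : List ℕ → ℕ :=
  List.rec 0 (fun c _ acc => Nat.add c (Nat.mul (Nat.pow 2 8000) acc))

/-- The number `x`. -/
noncomputable def bigX : ℕ := ofDig bigXL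

/-- The number `y`. -/
noncomputable def bigY : ℕ := ofDig bigYL

theorem aux_xy (X Y L e : ℕ)
    (h : Nat.beq (Nat.add (Nat.mul X X) (Nat.mul L (Nat.mul Y Y))) (Nat.pow 2 e) = true) :
    (X : ℤ) ^ 2 + (L : ℤ) * (Y : ℤ) ^ 2 = 2 ^ e := by
  have h1 : X * X + L * (Y * Y) = 2 ^ e := Nat.eq_of_beq_eq_true h
  have h2 : (((X * X + L * (Y * Y) : ℕ)) : ℤ) = ((2 ^ e : ℕ) : ℤ) := congrArg _ h1
  rw [Nat.cast_add, Nat.cast_mul, Nat.cast_mul, Nat.cast_mul, Nat.cast_pow] at h2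
  rw [sq, sq]
  exact h2

theorem aux_odd (X : ℕ) (h : Nat.beq (Nat.mod X 2) 1 = true) : Odd (X : ℤ) := by
  have h1 : X % 2 = 1 := Nat.eq_of_beq_eq_true h
  exact_mod_cast Nat.odd_iff.2 h1

theorem num_ex : ∃ X Y e : ℕ, Nat.beq e 2002623 = true ∧ Nat.beq (Nat.mod X 2) 1 = true ∧
    Nat.beq (Nat.mod Y 2) 1 = true ∧
    Nat.beq (Nat.add (Nat.mul X X) (Nat.mul 1000002505031 (Nat.mul Y Y))) (Nat.pow 2 e) = true :=
  ⟨bigX, bigY, 2002623, by decide +kernel, by decide +kernel, by decide +kernel,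
    by decide +kernel⟩

/-- The representation of `2 ^ (n + 2)` by the form `x ^ 2 + l * y ^ 2`. -/
theorem num_main : ∃ X Y : ℤ, Odd X ∧ Odd Y ∧
    X ^ 2 + ((1000002505031 : ℕ) : ℤ) * Y ^ 2 = 2 ^ (2002621 + 2) := by
  obtain ⟨X, Y, e, he, hx, hy, h⟩ := num_ex
  refine ⟨X, Y, aux_odd X hx, aux_odd Y hy, ?_⟩
  have h1 := aux_xy X Y 1000002505031 e h
  have h2 : e = 2002621 + 2 := Nat.eq_of_beq_eq_true he
  rw [h2] at h1
  exact h1

end MT2
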