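import Mathlib

/-!
# Primality of `1000002505031` and of `2002621`; the order of the first modulo the second

Lucas's test: `29` is a primitive root modulo `1000002505031`,
`1000002505030 = 2 * 5 * 43 * 2325587221`, and `17` is a primitive root modulo `2325587221`,
`2325587220 = 2 ^ 2 * 3 ^ 3 * 5 * 11 * 107 * 3659`.
-/

namespace MT2

private theorem FNumP_dvd {q a b : ℕ} (hq : q.Prime) (hb : b.Prime) (h : q ∣ a * b) :
    q ∣ a ∨ q = b := by
  rcases (Nat.Prime.dvd_mul hq).1 h with h | h
  · exact Or.inl h
  · exact Or.inr ((Nat.prime_dvd_prime_iff_eq hq hb).1 h)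

theorem num_prime_q : Nat.Prime 2325587221 := by
  refine lucas_primality _ (17 : ZMod 2325587221) ?_ ?_
  · norm_num only
    reduce_mod_char
  · intro q hq hd
    have h0 : 2325587221 - 1 = 2 * 2 * 3 * 3 * 3 * 5 * 11 * 107 * 3659 := by norm_num
    rw [h0] at hd
    have h1 : q = 2 ∨ q = 3 ∨ q = 5 ∨ q = 11 ∨ q = 107 ∨ q = 3659 := by
      rcases FNumP_dvd hq (by norm_num) hd with hd | rfl
      · rcases FNumP_dvd hq (by norm_num) hd with hd | rfl
        · rcases FNumP_dvd hq (by norm_num) hd with hd | rfl
          · rcases FNumP_dvd hq (by norm_num) hd with hd | rfl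
            · rcases FNumP_dvd hq (by norm_num) hd with hd | rfl
              · rcases FNumP_dvd hq (by norm_num) hd with hd | rfl
                · rcases FNumP_dvd hq (by norm_num) hd with hd | rfl
                  · rcases FNumP_dvd hq (by norm_num) hd with hd | rfl
                    · exact Or.inl ((Nat.prime_dvd_prime_iff_eq hq Nat.prime_two).1 hd)
                    · simp
                  · simp
                · simp
              · simp
            · simp
          · simp
        · simp
      · simp
    rcases h1 with rfl | rfl | rfl | rfl | rfl | rfl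
    all_goals
      norm_num only
      reduce_mod_char
      decide

theorem num_prime_l : Nat.Prime 1000002505031 := by
  refine lucas_primality _ (29 : ZMod 1000002505031) ?_ ?_
  · norm_num only
    reduce_mod_char
  · intro q hq hd
    have h0 : 1000002505031 - 1 = 2 * 5 * 43 * 2325587221 := by norm_num
    rw [h0] at hd
    have h1 : q = 2 ∨ q = 5 ∨ q = 43 ∨ q = 2325587221 := by
      rcases FNumP_dvd hq num_prime_q hd with hd | rfl
      · rcases FNumP_dvd hq (by norm_num) hd with hd | rfl
        · rcases FNumP_dvd hq (by norm_num) hd with hd | rfl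
          · exact Or.inl ((Nat.prime_dvd_prime_iff_eq hq Nat.prime_two).1 hd)
          · simp
        · simp
      · simp
    rcases h1 with rfl | rfl | rfl | rfl
    all_goals
      norm_num only
      reduce_mod_char
      decide

theorem num_prime_n : Nat.Prime 2002621 := by norm_num

end MT2
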