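import Pool.Agent.Lib_MP_bfd926_fm.FNum
import Pool.Agent.Lib_MP_bfd926_fm.FNumP

/-!
# The numerical data of theorem F

`1000002505031` is a primitive root modulo `2002621`, `2002620 = 2 ^ 2 * 3 * 5 * 33377`.
-/

namespace MT2

theorem num_order : orderOf (1000002505031 : ZMod 2002621) = 2002620 := by
  refine orderOf_eq_of_pow_and_pow_div_prime (by norm_num) ?_ ?_
  · reduce_mod_char
  · intro q hq hd
    have h0 : 2002620 = 2 * 2 * 3 * 5 * 33377 := by norm_num
    have hdv : ∀ {a b : ℕ}, b.Prime → q ∣ a * b → q ∣ a ∨ q = b := by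
      intro a b hb h
      rcases (Nat.Prime.dvd_mul hq).1 h with h | h
      · exact Or.inl h
      · exact Or.inr ((Nat.prime_dvd_prime_iff_eq hq hb).1 h)
    rw [h0] at hd
    have h1 : q = 2 ∨ q = 3 ∨ q = 5 ∨ q = 33377 := by
      rcases hdv (by norm_num) hd with hd | rfl
      · rcases hdv (by norm_num) hd with hd | rfl
        · rcases hdv (by norm_num) hd with hd | rfl
          · rcases hdv (by norm_num) hd with hd | rfl
            · exact Or.inl ((Nat.prime_dvd_prime_iff_eq hq Nat.prime_two).1 hd)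
            · simp
          · simp
        · simp
      · simp
    rcases h1 with rfl | rfl | rfl | rfl
    all_goals
      norm_num only
      reduce_mod_char
      decide

theorem num_B (i : ℕ) (hi : 0 < i) (hi2 : i < 10 ^ 6) :
    ¬ ((2002621 : ℕ) : ℤ) ∣ ((1000002505031 : ℕ) : ℤ) ^ i - 1 ∧
      ¬ ((2002621 : ℕ) : ℤ) ∣ ((1000002505031 : ℕ) : ℤ) ^ i + 1 := by
  constructor
  · intro h
    have h1 : ((((1000002505031 : ℕ) : ℤ) ^ i - 1 : ℤ) : ZMod 2002621) = 0 :=
      (ZMod.intCast_zmod_eq_zero_iff_dvd _ _).2 h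
    have h2 : (1000002505031 : ZMod 2002621) ^ i = 1 := by
      push_cast at h1
      exact sub_eq_zero.1 h1
    have h3 := orderOf_dvd_of_pow_eq_one h2
    rw [num_order] at h3
    have := Nat.le_of_dvd hi h3
    norm_num at hi2
    omega
  · intro h
    have h1 : ((((1000002505031 : ℕ) : ℤ) ^ i + 1 : ℤ) : ZMod 2002621) = 0 :=
      (ZMod.intCast_zmod_eq_zero_iff_dvd _ _).2 h
    have h2 : (1000002505031 : ZMod 2002621) ^ (2 * i) = 1 := by
      push_cast at h1
      have h4 : (1000002505031 : ZMod 2002621) ^ i = -1 := eq_neg_of_add_eq_zero_left h1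
      rw [mul_comm, pow_mul, h4]
      norm_num
    have h3 := orderOf_dvd_of_pow_eq_one h2
    rw [num_order] at h3
    have := Nat.le_of_dvd (by omega) h3
    norm_num at hi2
    omega

end MT2
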