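import Pool.Agent.Lib_MP_bfd926_fm.MDefs
import Pool.Agent.Lib_MP_bfd926_sq.SU2

/-!
# The operators `dd` and `tt`

All statements by comparing coefficients (`PowerSeries.coeff_mk`, `PowerSeries.coeff_mul`,
`PowerSeries.coeff_expand_mul`, `PowerSeries.coeff_expand_of_not_dvd`, `PowerSeries.coeff_map`).
-/

open PowerSeries

namespace MT2

theorem coeff_dd {R : Type} [CommRing R] (n : ℕ) (φ : PowerSeries R) :
    coeff n (dd φ) = (n : R) * coeff n φ := by
  change coeff n (PowerSeries.mk fun n => (n : R) * coeff n φ) = _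
  rw [coeff_mk]

theorem dd_mul {R : Type} [CommRing R] (φ ψ : PowerSeries R) :
    dd (φ * ψ) = dd φ * ψ + φ * dd ψ := by
  ext n
  rw [coeff_dd, map_add, coeff_mul, coeff_mul, coeff_mul, Finset.mul_sum, ← Finset.sum_add_distrib]
  apply Finset.sum_congr rfl
  intro p hp
  rw [coeff_dd, coeff_dd, ← (Finset.HasAntidiagonal.mem_antidiagonal.mp hp)]
  push_cast
  ring

theorem dd_pow {R : Type} [CommRing R] (φ : PowerSeries R) (n : ℕ) :
    dd (φ ^ (n + 1)) = ((n : R) + 1) • (φ ^ n * dd φ) := by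
  induction n with
  | zero => simp
  | succ n ih =>
    rw [pow_succ, dd_mul, ih, smul_mul_assoc]
    have h : φ ^ n * dd φ * φ = φ ^ (n + 1) * dd φ := by ring
    rw [h]
    push_cast
    rw [add_smul ((n : R) + 1) (1 : R), one_smul]

theorem dd_C {R : Type} [CommRing R] (a : R) : dd (C a : PowerSeries R) = 0 := by
  ext n
  rw [coeff_dd, coeff_C, map_zero]
  split_ifs with h
  · rw [h, Nat.cast_zero, zero_mul]
  · rw [mul_zero]

theorem dd_natCast {R : Type} [CommRing R] (a : ℕ) : dd (a : PowerSeries R) = 0 := by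
  have h : (a : PowerSeries R) = C (a : R) := by rw [map_natCast]
  rw [h]
  exact dd_C _

private theorem MDer_dbl_even {R : Type} [CommRing R] (φ : PowerSeries R) (m : ℕ) :
    coeff (2 * m) (dbl φ) = coeff m φ := by
  unfold dbl
  rw [coeff_expand, if_pos (Dvd.intro m rfl)]
  have h4 : (2 * m) / 2 = m := by omega
  rw [h4]

private theorem MDer_dbl_odd {R : Type} [CommRing R] (φ : PowerSeries R) {n : ℕ} (h : ¬ 2 ∣ n) :
    coeff n (dbl φ) = 0 := by
  unfold dbl
  rw [coeff_expand, if_neg h]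

private theorem MDer_uu {R : Type} [CommRing R] (φ : PowerSeries R) (n : ℕ) :
    coeff n (uu φ) = coeff (2 * n) φ := by
  unfold uu
  exact coeff_mk _ _

private theorem MDer_two {R : Type} [CommRing R] (φ : PowerSeries R) (n : ℕ) :
    coeff n (2 * φ) = 2 * coeff n φ := by
  rw [two_mul, map_add, two_mul]

theorem dd_dbl {R : Type} [CommRing R] (φ : PowerSeries R) : dd (dbl φ) = 2 * dbl (dd φ) := by
  ext n
  rw [coeff_dd, MDer_two]
  by_cases h : 2 ∣ n
  · obtain ⟨m, rfl⟩ := h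
    rw [MDer_dbl_even, MDer_dbl_even, coeff_dd]
    push_cast
    ring
  · rw [MDer_dbl_odd _ h, MDer_dbl_odd _ h, mul_zero, mul_zero]

theorem uu_dd {R : Type} [CommRing R] (φ : PowerSeries R) : uu (dd φ) = 2 * dd (uu φ) := by
  ext n
  rw [MDer_two, MDer_uu, coeff_dd, coeff_dd, MDer_uu]
  push_cast
  ring

theorem tt_apply {R : Type} [CommRing R] (c : R) (φ : PowerSeries R) :
    tt c φ = uu φ + C c * dbl φ := by
  rw [← smul_eq_C_mul]
  rfl

theorem tt_dd {R : Type} [CommRing R] (c : R) (φ : PowerSeries R) :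
    tt (4 * c) (dd φ) = (2 : R) • dd (tt c φ) := by
  have h1 : tt (4 * c) (dd φ) = uu (dd φ) + (4 * c) • dbl (dd φ) := rfl
  have h2 : tt c φ = uu φ + c • dbl φ := rfl
  rw [h1, h2, map_add, map_smul, dd_dbl, uu_dd]
  ext n
  simp only [map_add, coeff_smul, MDer_two, smul_eq_mul, smul_add]
  ring

theorem up_dd (R : Type) [CommRing R] (φ : PowerSeries ℤ) : up R (dd φ) = dd (up R φ) := by
  ext n
  unfold up
  rw [coeff_map, coeff_dd, coeff_dd, coeff_map]
  simp

theorem up_uu (R : Type) [CommRing R] (φ : PowerSeries ℤ) : up R (uu φ) = uu (up R φ) := by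
  ext n
  rw [MDer_uu]
  unfold up
  rw [coeff_map, coeff_map, MDer_uu]

theorem up_dbl (R : Type) [CommRing R] (φ : PowerSeries ℤ) : up R (dbl φ) = dbl (up R φ) := by
  ext n
  by_cases h : 2 ∣ n
  · obtain ⟨m, rfl⟩ := h
    rw [MDer_dbl_even]
    unfold up
    rw [coeff_map, coeff_map, MDer_dbl_even]
  · rw [MDer_dbl_odd _ h]
    unfold up
    rw [coeff_map, MDer_dbl_odd _ h, map_zero]

theorem up_tt (R : Type) [CommRing R] (c : ℤ) (φ : PowerSeries ℤ) :
    up R (tt c φ) = tt (c : R) (up R φ) := by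
  rw [tt_apply, tt_apply, ← up_uu, ← up_dbl]
  unfold up
  rw [map_add, map_mul, map_C]
  rfl

end MT2
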