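import Pool.Agent.Lib_MP_bfd926_fm.FCntB
import Pool.Agent.Lib_MP_bfd926_fm.MDer

/-!
# The theta series and the Vieta-Lucas polynomials

`th_step`, `th_zero_step`, `th_top`: compare coefficients in `cnt_step`, `cnt_zero_step`, `cnt_top`
(`tt_apply`, the coefficients of `uu` and `dbl`). `vl_th`: induction (two steps) on `j`:
`VL 0 = 2`, `VL 1 = X`, `VL (j + 2) = X * VL (j + 1) - VL j`.
-/

open PowerSeries

namespace MT2

private theorem FRec_dbl {R : Type} [CommRing R] (φ : PowerSeries R) (m : ℕ) :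
    coeff m (dbl φ) = if 2 ∣ m then coeff (m / 2) φ else 0 := by
  unfold dbl
  split_ifs with h
  · obtain ⟨q, rfl⟩ := h
    rw [Nat.mul_div_cancel_left q (by norm_num : 0 < 2), mul_comm 2 q, mul_comm q 2,
      PowerSeries.coeff_expand_mul]
  · exact PowerSeries.coeff_expand_of_not_dvd 2 two_ne_zero φ h

private theorem FRec_coeff (l : ℕ) (x y : ℤ) (j m : ℕ) :
    coeff m (tt (1 : ℤ) (th l x y j)) =
      ((cnt l x y j (2 * m) + (if 2 ∣ m then cnt l x y j (m / 2) else 0) : ℕ) : ℤ) := by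
  rw [tt_apply, map_add, map_one, one_mul, FRec_dbl]
  unfold uu th
  rw [coeff_mk, coeff_mk]
  split_ifs with h
  · rw [coeff_mk]
    push_cast
    rfl
  · push_cast
    rfl

theorem th_step (l : ℕ) (hl : Odd l) (n : ℕ) (x y : ℤ) (hx : Odd x) (hy : Odd y)
    (h : x ^ 2 + l * y ^ 2 = 2 ^ (n + 2)) (j : ℕ) (hj : 1 ≤ j) (hjn : j + 1 ≤ n) :
    tt 1 (th l x y j) = th l x y (j + 1) + th l x y (j - 1) := by
  ext m
  rw [FRec_coeff, cnt_step l hl n x y hx hy h j hj hjn m, map_add]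
  unfold th
  rw [coeff_mk, coeff_mk]
  push_cast
  rfl

theorem th_zero_step (l : ℕ) (hl : Odd l) (n : ℕ) (x y : ℤ) (hx : Odd x) (hy : Odd y)
    (h : x ^ 2 + l * y ^ 2 = 2 ^ (n + 2)) (hn : 1 ≤ n) :
    tt 1 (th l x y 0) = 2 * th l x y 1 := by
  ext m
  rw [FRec_coeff, cnt_zero_step l hl n x y hx hy h hn m, two_mul (th l x y 1), map_add]
  unfold th
  rw [coeff_mk]
  push_cast
  ring

theorem th_top (l : ℕ) (hl : Odd l) (n : ℕ) (x y : ℤ) (hx : Odd x) (hy : Odd y)
    (h : x ^ 2 + l * y ^ 2 = 2 ^ (n + 2)) : th l x y n = th l x y 0 := by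
  ext m
  unfold th
  rw [coeff_mk, coeff_mk, cnt_top l hl n x y hx hy h m]

theorem vl_th (l : ℕ) (hl : Odd l) (n : ℕ) (x y : ℤ) (hx : Odd x) (hy : Odd y)
    (h : x ^ 2 + l * y ^ 2 = 2 ^ (n + 2)) (hn : 1 ≤ n) :
    Polynomial.aeval (tt (1 : ℤ)) (VL ℤ n) (th l x y 0) = 2 * th l x y 0 := by
  have key : ∀ j : ℕ, (j ≤ n → Polynomial.aeval (tt (1 : ℤ)) (VL ℤ j) (th l x y 0) = 2 * th l x y j) ∧
      (j + 1 ≤ n →
        Polynomial.aeval (tt (1 : ℤ)) (VL ℤ (j + 1)) (th l x y 0) = 2 * th l x y (j + 1)) := by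
    intro j
    induction j with
    | zero =>
      constructor
      · intro _
        have e : VL ℤ 0 = 1 + 1 := by
          rw [VL]
          norm_num
        rw [e, map_add, map_one, LinearMap.add_apply, Module.End.one_apply, two_mul]
      · intro h1
        rw [zero_add, VL, Polynomial.aeval_X]
        exact th_zero_step l hl n x y hx hy h hn
    | succ j ih =>
      refine ⟨ih.2, ?_⟩
      intro h1
      have e1 := ih.2 (by omega)
      have e0 := ih.1 (by omega)
      rw [VL, map_sub, map_mul, Polynomial.aeval_X, LinearMap.sub_apply, Module.End.mul_apply, e1, e0]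
      have e2 : (tt (1 : ℤ)) (2 * th l x y (j + 1)) = 2 * (tt (1 : ℤ)) (th l x y (j + 1)) := by
        rw [two_mul, map_add, two_mul]
      rw [e2, th_step l hl n x y hx hy h (j + 1) (by omega) h1]
      rw [Nat.add_sub_cancel]
      ring
  rw [(key n).1 le_rfl, th_top l hl n x y hx hy h]

end MT2
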