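import Pool.Agent.Lib_MP_bfd926_fm.FCntA

/-!
# The principal theta series

For `j = 0` the condition is `2 ∣ u * y - x * v`, i.e. `u ≡ v` modulo `2` (`x`, `y` odd), and
`u ^ 2 + l * v ^ 2 = 4 * m`. The pairs with `u = 2 a`, `v = 2 c` even: `a ^ 2 + l * c ^ 2 = m`, counted by
`thA * thA(X ^ l)`. The pairs of odd numbers: `u ^ 2 = 4 * (a ^ 2 + a) + 1`, `a ≥ 0` for `|u| = 2 a + 1`, so
`m = a ^ 2 + a + l * (c ^ 2 + c) + (l + 1) / 4`, every `(a, c)` from four pairs `(± u, ± v)`.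
`PowerSeries.coeff_mul`, `PowerSeries.coeff_expand_mul`, …
-/

open PowerSeries

namespace MT2

private lemma FTh0_fib {α β : Type} (f : α → ℕ) (g : β → ℕ) (hf : ∀ i, {a | f a = i}.Finite)
    (hg : ∀ i, {b | g b = i}.Finite) (l : ℕ) (hl : 0 < l) (m : ℕ) :
    {p : α × β | f p.1 + l * g p.2 = m}.Finite := by
  refine Set.Finite.subset ((Set.finite_Iic m).biUnion fun i _ => (Set.finite_Iic m).biUnion fun j _ =>
    (hf i).prod (hg j)) ?_
  rintro ⟨a, b⟩ h
  simp only [Set.mem_ofPred_eq] at h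
  simp only [Set.mem_iUnion, Set.mem_prod, Set.mem_ofPred_eq]
  refine ⟨f a, ?_, g b, ?_, rfl, rfl⟩
  · simp only [Set.mem_Iic]
    omega
  · simp only [Set.mem_Iic]
    have : 1 * g b ≤ l * g b := Nat.mul_le_mul_right _ hl
    omega

private lemma FTh0_prod {α β : Type} (f : α → ℕ) (g : β → ℕ) (hf : ∀ i, {a | f a = i}.Finite)
    (hg : ∀ i, {b | g b = i}.Finite) (l : ℕ) (hl : 0 < l) (hl' : l ≠ 0) (φ ψ : PowerSeries ℤ)
    (hφ : ∀ i, PowerSeries.coeff i φ = (Set.ncard {a | f a = i} : ℤ))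
    (hψ : ∀ i, PowerSeries.coeff i ψ = (Set.ncard {b | g b = i} : ℤ)) (m : ℕ) :
    PowerSeries.coeff m (φ * PowerSeries.expand l hl' ψ) =
      (Set.ncard {p : α × β | f p.1 + l * g p.2 = m} : ℤ) := by
  classical
  have hfin := FTh0_fib f g hf hg l hl m
  rw [Set.ncard_eq_toFinset_card _ hfin, Finset.card_eq_sum_card_fiberwise
    (f := fun p : α × β => (f p.1, l * g p.2)) (t := (Finset.HasAntidiagonal.antidiagonal m : Finset (ℕ × ℕ))) (by
      intro p hp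
      have hp' : f p.1 + l * g p.2 = m := by simpa using hp
      simpa using hp')]
  rw [PowerSeries.coeff_mul]
  push_cast
  refine Finset.sum_congr rfl ?_
  rintro ⟨i, j⟩ hij
  have hij' : i + j = m := by simpa using hij
  rw [hφ, PowerSeries.coeff_expand]
  have key : ((hfin.toFinset.filter fun p : α × β => (f p.1, l * g p.2) = (i, j)) : Set (α × β)) =
      {a | f a = i} ×ˢ {b | l * g b = j} := by
    ext ⟨a, b⟩
    simp only [Finset.coe_filter, Set.Finite.mem_toFinset, Set.mem_ofPred_eq, Prod.mk.injEq,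
      Set.mem_prod]
    constructor
    · rintro ⟨_, h1, h2⟩
      exact ⟨h1, h2⟩
    · rintro ⟨h1, h2⟩
      exact ⟨by omega, h1, h2⟩
  have key2 : (hfin.toFinset.filter fun p : α × β => (f p.1, l * g p.2) = (i, j)).card =
      Set.ncard {a | f a = i} * Set.ncard {b | l * g b = j} := by
    rw [← Set.ncard_coe_finset, key, Set.ncard_prod]
  rw [key2]
  push_cast
  congr 1
  split_ifs with hd
  · obtain ⟨q, rfl⟩ := hd
    rw [Nat.mul_div_cancel_left _ hl, hψ]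
    congr 2
    ext b
    simp only [Set.mem_ofPred_eq]
    exact ⟨fun h => by rw [h], fun h => Nat.eq_of_mul_eq_mul_left hl h⟩
  · have : {b | l * g b = j} = ∅ := by
      ext b
      simp only [Set.mem_ofPred_eq, Set.mem_empty_iff_false, iff_false]
      rintro rfl
      exact hd (dvd_mul_right _ _)
    rw [this]
    simp

private lemma FTh0_sqfin (i : ℕ) : {a : ℤ | a.natAbs ^ 2 = i}.Finite := by
  refine Set.Finite.subset (Set.finite_Icc (-(i : ℤ)) i) ?_
  intro a ha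
  simp only [Set.mem_ofPred_eq] at ha
  have h1 : a.natAbs ≤ i := by
    rw [← ha]
    nlinarith [Nat.zero_le a.natAbs, Nat.le_self_pow (n := 2) (by norm_num) a.natAbs]
  rw [Set.mem_Icc]
  omega

private lemma FTh0_psfin (i : ℕ) : {a : ℕ | a ^ 2 + a = i}.Finite := by
  refine Set.Finite.subset (Set.finite_Iic i) ?_
  intro a ha
  simp only [Set.mem_ofPred_eq] at ha
  rw [Set.mem_Iic]
  omega

private lemma FTh0_thA (i : ℕ) :
    PowerSeries.coeff i thA = (Set.ncard {a : ℤ | a.natAbs ^ 2 = i} : ℤ) := by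
  unfold thA
  rw [PowerSeries.coeff_mk]
  split_ifs with h0 h1
  · subst h0
    have : {a : ℤ | a.natAbs ^ 2 = 0} = {0} := by
      ext a
      simp
    rw [this, Set.ncard_singleton]
    rfl
  · obtain ⟨n, hn⟩ := h1
    have hn0 : n ≠ 0 := by
      rintro rfl
      exact h0 (by rw [← hn]; rfl)
    have : {a : ℤ | a.natAbs ^ 2 = i} = {(n : ℤ), -(n : ℤ)} := by
      ext a
      simp only [Set.mem_ofPred_eq, Set.mem_insert_iff, Set.mem_singleton_iff]
      rw [← hn]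
      constructor
      · intro h
        have h2 : a.natAbs = n := Nat.pow_left_injective (n := 2) (by norm_num) h
        omega
      · rintro (rfl | rfl) <;> simp
    rw [this, Set.ncard_pair (by omega)]
    rfl
  · have : {a : ℤ | a.natAbs ^ 2 = i} = ∅ := by
      ext a
      simp only [Set.mem_ofPred_eq, Set.mem_empty_iff_false, iff_false]
      intro h
      exact h1 ⟨_, h⟩
    rw [this, Set.ncard_empty]
    rfl

private lemma FTh0_psi (i : ℕ) :
    PowerSeries.coeff i psi = (Set.ncard {a : ℕ | a ^ 2 + a = i} : ℤ) := by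
  unfold psi
  rw [PowerSeries.coeff_mk]
  split_ifs with h
  · obtain ⟨n, hn⟩ := h
    have : {a : ℕ | a ^ 2 + a = i} = {n} := by
      ext a
      simp only [Set.mem_ofPred_eq, Set.mem_singleton_iff]
      rw [← hn]
      constructor
      · intro h
        rcases lt_trichotomy a n with h1 | h1 | h1
        · nlinarith
        · exact h1
        · nlinarith
      · rintro rfl
        rfl
    rw [this, Set.ncard_singleton]
    rfl
  · have : {a : ℕ | a ^ 2 + a = i} = ∅ := by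
      ext a
      simp only [Set.mem_ofPred_eq, Set.mem_empty_iff_false, iff_false]
      intro h1
      exact h ⟨a, h1⟩
    rw [this, Set.ncard_empty]
    rfl

/-- the even pairs -/
private lemma FTh0_even (l m : ℕ) :
    {p : ℤ × ℤ | Even p.1 ∧ Even p.2 ∧ p.1 ^ 2 + l * p.2 ^ 2 = 4 * m} =
      (fun p : ℤ × ℤ => (2 * p.1, 2 * p.2)) '' {p : ℤ × ℤ | p.1.natAbs ^ 2 + l * p.2.natAbs ^ 2 = m} := by
  ext ⟨u, v⟩
  simp only [Set.mem_ofPred_eq, Set.mem_image, Prod.mk.injEq, Prod.exists]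
  constructor
  · rintro ⟨⟨a, ha⟩, ⟨c, hc⟩, h⟩
    refine ⟨a, c, ?_, by omega, by omega⟩
    have h1 : (a ^ 2 + l * c ^ 2 : ℤ) = m := by
      have : (4 : ℤ) * (a ^ 2 + l * c ^ 2) = 4 * m := by
        rw [← h, ha, hc]
        ring
      linarith
    have h2 : ((a.natAbs ^ 2 + l * c.natAbs ^ 2 : ℕ) : ℤ) = (m : ℕ) := by
      push_cast
      rw [sq_abs, sq_abs]
      exact h1
    exact_mod_cast h2
  · rintro ⟨a, c, h, rfl, rfl⟩
    refine ⟨even_two_mul _, even_two_mul _, ?_⟩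
    have h2 : ((a.natAbs ^ 2 + l * c.natAbs ^ 2 : ℕ) : ℤ) = (m : ℕ) := by rw [h]
    push_cast at h2
    rw [sq_abs, sq_abs] at h2
    rw [← h2]
    ring

private def FTh0_s (b : Bool) : ℤ := if b then 1 else -1

private lemma FTh0_s_sq (b : Bool) : FTh0_s b ^ 2 = 1 := by
  cases b <;> simp [FTh0_s]

private def FTh0_F (p : (Bool × Bool) × (ℕ × ℕ)) : ℤ × ℤ :=
  (FTh0_s p.1.1 * (2 * p.2.1 + 1), FTh0_s p.1.2 * (2 * p.2.2 + 1))

private lemma FTh0_F_inj : Function.Injective FTh0_F := by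
  rintro ⟨⟨s, t⟩, a, c⟩ ⟨⟨s', t'⟩, a', c'⟩ h
  simp only [FTh0_F, Prod.mk.injEq] at h
  obtain ⟨h1, h2⟩ := h
  have key : ∀ (b b' : Bool) (n n' : ℕ), FTh0_s b * (2 * (n : ℤ) + 1) = FTh0_s b' * (2 * (n' : ℤ) + 1) →
      b = b' ∧ n = n' := by
    intro b b' n n' h
    cases b <;> cases b' <;> simp [FTh0_s] at h ⊢ <;> omega
  obtain ⟨e1, e2⟩ := key _ _ _ _ h1
  obtain ⟨e3, e4⟩ := key _ _ _ _ h2
  rw [e1, e2, e3, e4]

private lemma FTh0_odd (l m : ℕ) (hl : l % 8 = 7) :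
    {p : ℤ × ℤ | Odd p.1 ∧ Odd p.2 ∧ p.1 ^ 2 + l * p.2 ^ 2 = 4 * m} =
      FTh0_F '' (Set.univ ×ˢ {p : ℕ × ℕ | (p.1 ^ 2 + p.1) + l * (p.2 ^ 2 + p.2) + (l + 1) / 4 = m}) := by
  obtain ⟨k, hk⟩ : ∃ k, l + 1 = 4 * k := ⟨(l + 1) / 4, by omega⟩
  have hk' : (l + 1) / 4 = k := by omega
  have hkz : (l : ℤ) + 1 = 4 * k := by exact_mod_cast hk
  rw [hk']
  ext ⟨u, v⟩
  simp only [Set.mem_ofPred_eq, Set.mem_image, Set.mem_prod, Set.mem_univ, true_and, Prod.exists]
  have key : ∀ w : ℤ, Odd w → ∃ (b : Bool) (n : ℕ), FTh0_s b * (2 * (n : ℤ) + 1) = w := by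
    rintro w ⟨n, hn⟩
    rcases le_or_gt 0 w with h | h
    · refine ⟨true, n.toNat, ?_⟩
      simp only [FTh0_s, if_true]
      omega
    · refine ⟨false, (-n - 1).toNat, ?_⟩
      simp only [FTh0_s, Bool.false_eq_true, if_false]
      omega
  have calc1 : ∀ (s t : Bool) (a c : ℕ), (FTh0_s s * (2 * (a : ℤ) + 1)) ^ 2 +
      l * (FTh0_s t * (2 * (c : ℤ) + 1)) ^ 2 =
      4 * (((a : ℤ) ^ 2 + a) + l * ((c : ℤ) ^ 2 + c) + k) := by
    intro s t a c
    rw [mul_pow, mul_pow, FTh0_s_sq, FTh0_s_sq]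
    linear_combination hkz
  constructor
  · rintro ⟨hu, hv, h⟩
    obtain ⟨s, a, rfl⟩ := key u hu
    obtain ⟨t, c, rfl⟩ := key v hv
    refine ⟨s, t, a, c, ?_, rfl⟩
    rw [calc1] at h
    have h3 : ((a : ℤ) ^ 2 + a) + l * ((c : ℤ) ^ 2 + c) + k = m := by linarith
    exact_mod_cast h3
  · rintro ⟨s, t, a, c, h, h2⟩
    simp only [FTh0_F, Prod.mk.injEq] at h2
    obtain ⟨rfl, rfl⟩ := h2
    have odd1 : ∀ (b : Bool) (n : ℕ), Odd (FTh0_s b * (2 * (n : ℤ) + 1)) := by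
      intro b n
      refine Odd.mul ?_ ⟨n, rfl⟩
      cases b
      · exact ⟨-1, by simp [FTh0_s]⟩
      · exact ⟨0, by simp [FTh0_s]⟩
    refine ⟨odd1 _ _, odd1 _ _, ?_⟩
    rw [calc1]
    have h3 : (((a ^ 2 + a) + l * (c ^ 2 + c) + k : ℕ) : ℤ) = (m : ℕ) := by rw [h]
    push_cast at h3
    rw [h3]

theorem th0_eq (l : ℕ) (hl : l % 8 = 7) (x y : ℤ) (hx : Odd x) (hy : Odd y) :
    th l x y 0 = thA * PowerSeries.expand l (by omega) thA +
      4 * (X ^ ((l + 1) / 4) * (psi * PowerSeries.expand l (by omega) psi)) := by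
  have hl0 : 0 < l := by omega
  ext m
  have h4 : (4 : PowerSeries ℤ) = PowerSeries.C (4 : ℤ) := rfl
  rw [map_add, h4, PowerSeries.coeff_C_mul, PowerSeries.coeff_X_pow_mul',
    FTh0_prod _ _ FTh0_sqfin FTh0_sqfin l hl0 (by omega) thA thA FTh0_thA FTh0_thA,
    FTh0_prod _ _ FTh0_psfin FTh0_psfin l hl0 (by omega) psi psi FTh0_psi FTh0_psi]
  unfold th
  rw [PowerSeries.coeff_mk]
  unfold cnt
  have hfin := cnt_finite l (by omega) x y 0 m
  have hsplit : {p : ℤ × ℤ | (2 : ℤ) ^ (0 + 1) ∣ p.1 * y - x * p.2 ∧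
      p.1 ^ 2 + l * p.2 ^ 2 = 2 ^ (0 + 2) * m} =
      {p : ℤ × ℤ | Even p.1 ∧ Even p.2 ∧ p.1 ^ 2 + l * p.2 ^ 2 = 4 * m} ∪
      {p : ℤ × ℤ | Odd p.1 ∧ Odd p.2 ∧ p.1 ^ 2 + l * p.2 ^ 2 = 4 * m} := by
    ext ⟨u, v⟩
    simp only [Set.mem_ofPred_eq, Set.mem_union]
    have e1 : (2 : ℤ) ^ (0 + 1) ∣ u * y - x * v ↔ (Even u ↔ Even v) := by
      rw [zero_add, pow_one, ← even_iff_two_dvd, Int.even_sub, Int.even_mul, Int.even_mul]
      have hx' := Int.not_even_iff_odd.2 hx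
      have hy' := Int.not_even_iff_odd.2 hy
      tauto
    have e2 : (2 : ℤ) ^ (0 + 2) * (m : ℤ) = 4 * m := by norm_num
    rw [e1, e2, ← Int.not_even_iff_odd, ← Int.not_even_iff_odd]
    tauto
  rw [hsplit] at hfin ⊢
  rw [Set.ncard_union_eq (by
    rw [Set.disjoint_left]
    rintro ⟨u, v⟩ h1 h2
    exact (Int.not_even_iff_odd.2 h2.1) h1.1) (hfin.subset Set.subset_union_left)
      (hfin.subset Set.subset_union_right),
    FTh0_even, FTh0_odd l m hl, Set.ncard_image_of_injective _ (by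
      rintro ⟨a, b⟩ ⟨a', b'⟩ h
      simp only [Prod.mk.injEq] at h
      obtain ⟨h1, h2⟩ := h
      ext <;> simp <;> omega), Set.ncard_image_of_injective _ FTh0_F_inj, Set.ncard_prod]
  have h5 : Set.ncard (Set.univ : Set (Bool × Bool)) = 4 := by
    rw [Set.ncard_univ]
    simp
  rw [h5]
  push_cast
  congr 1
  split_ifs with hm
  · congr 3
    ext ⟨a, c⟩
    simp only [Set.mem_ofPred_eq]
    omega
  · have : {p : ℕ × ℕ | (p.1 ^ 2 + p.1) + l * (p.2 ^ 2 + p.2) + (l + 1) / 4 = m} = ∅ := by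
      ext ⟨a, c⟩
      simp only [Set.mem_ofPred_eq, Set.mem_empty_iff_false, iff_false]
      intro h
      apply hm
      omega
    rw [this]
    simp

end MT2
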