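import Pool.Agent.Lib_MP_bfd926_fm.FFin
import Pool.Agent.Lib_MP_bfd926_fm.FNumO

/-!
# Theorem F

For every even `k ≥ 10 ^ 24` the characteristic polynomial of `T₂` on `S_k(SL₂(ℤ))` has an irreducible factor
over `ℚ` of degree at least `10 ^ 6`.
-/

open UpperHalfPlane
open scoped MatrixGroups

namespace MT2

theorem thmF (k : ℕ) (hk : Even k) (hk0 : 10 ^ 24 ≤ k) :
    ∃ (_ : FiniteDimensional ℂ (CuspForm 𝒮ℒ (k : ℤ))) (T : Module.End ℂ (CuspForm 𝒮ℒ (k : ℤ))),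
      (∀ (f : CuspForm 𝒮ℒ (k : ℤ)) (z : ℍ),
        T f z = 2 ^ ((k : ℤ) - 1) * f (ofComplex (2 * z)) +
          (f (ofComplex (z / 2)) + f (ofComplex ((z + 1) / 2))) / 2) ∧
      ∃ Q : Polynomial ℚ, Irreducible Q ∧ Q.map (algebraMap ℚ ℂ) ∣ T.charpoly ∧
        10 ^ 6 ≤ Q.natDegree := by
  haveI : Fact (Nat.Prime 1000002505031) := ⟨num_prime_l⟩
  obtain ⟨x, y, hx, hy, hxy⟩ := num_main
  refine thmFg 1000002505031 2002621 (10 ^ 6) 125000313129 k x y (by norm_num) (by norm_num)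
    num_prime_n (by norm_num) hx hy hxy (fun i hi hi2 => num_B i hi hi2) hk ?_
  refine le_trans ?_ (Nat.mul_le_mul_left 2 hk0)
  norm_num

end MT2
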