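import Pool.Agent.Lib_MP_bfd926_fm.MDefs

/-!
# The Vieta-Lucas polynomials

`vl_eval`, `vl_two`, `vl_der`: induction on `n` (two steps). `vl_root`: `K` is algebraically closed, so
`μ = z + z⁻¹` for a root `z` of `X ^ 2 - μ X + 1`, and `z ^ n + (z ^ n)⁻¹ = 2` gives `(z ^ n - 1) ^ 2 = 0`.
`vl_map`: the image of `VL ℤ n`.
-/

open Polynomial

namespace MT2

private theorem fvl_zero (R : Type) [CommRing R] : VL R 0 = 2 := by
  rw [VL]

private theorem fvl_one (R : Type) [CommRing R] : VL R 1 = X := by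
  rw [VL]

private theorem fvl_succ (R : Type) [CommRing R] (n : ℕ) :
    VL R (n + 2) = X * VL R (n + 1) - VL R n := by
  rw [VL]

theorem vl_map (R : Type) [CommRing R] (n : ℕ) : (VL ℤ n).map (Int.castRingHom R) = VL R n := by
  induction n using Nat.twoStepInduction with
  | zero => rw [fvl_zero, fvl_zero, Polynomial.map_ofNat]
  | one => rw [fvl_one, fvl_one, map_X]
  | more n h0 h1 =>
    rw [fvl_succ, fvl_succ, Polynomial.map_sub, Polynomial.map_mul, map_X, h0, h1]

theorem vl_eval {K : Type} [Field K] {z : K} (hz : z ≠ 0) (n : ℕ) :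
    (VL K n).eval (z + z⁻¹) = z ^ n + (z ^ n)⁻¹ := by
  induction n using Nat.twoStepInduction with
  | zero =>
    rw [fvl_zero, eval_ofNat, pow_zero, inv_one]
    norm_num
  | one => rw [fvl_one, eval_X, pow_one]
  | more n h0 h1 =>
    rw [fvl_succ, eval_sub, eval_mul, eval_X, h0, h1]
    have hn : z ^ n ≠ 0 := pow_ne_zero _ hz
    rw [pow_succ, pow_succ, mul_inv, mul_inv]
    field_simp
    ring

theorem vl_two (R : Type) [CommRing R] (n : ℕ) : (VL R n).eval 2 = 2 := by
  induction n using Nat.twoStepInduction with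
  | zero => rw [fvl_zero, eval_ofNat]
  | one => rw [fvl_one, eval_X]
  | more n h0 h1 =>
    rw [fvl_succ, eval_sub, eval_mul, eval_X, h0, h1]
    ring

theorem vl_der (R : Type) [CommRing R] (n : ℕ) : (derivative (VL R n)).eval 2 = (n : R) ^ 2 := by
  induction n using Nat.twoStepInduction with
  | zero =>
    rw [fvl_zero, derivative_ofNat, eval_zero]
    simp
  | one =>
    rw [fvl_one, derivative_X, eval_one]
    simp
  | more n h0 h1 =>
    rw [fvl_succ, derivative_sub, derivative_mul, derivative_X, one_mul, eval_sub, eval_add,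
      eval_mul, eval_X, h0, h1, vl_two]
    push_cast
    ring

theorem vl_root {K : Type} [Field K] [IsAlgClosed K] {n : ℕ} {μ : K}
    (h : (VL K n).eval μ = 2) : ∃ z : K, z ≠ 0 ∧ z ^ n = 1 ∧ μ = z + z⁻¹ := by
  obtain ⟨z, hz⟩ : ∃ z : K, z ^ 2 - μ * z + 1 = 0 := by
    have hd : (X ^ 2 - C μ * X + 1 : K[X]).degree = 2 := by
      have e : (X ^ 2 - C μ * X + 1 : K[X]) = C 1 * X ^ 2 + C (-μ) * X + C 1 := by
        rw [map_neg, C_1]
        ring
      rw [e]
      exact degree_quadratic one_ne_zero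
    obtain ⟨z, hz⟩ := IsAlgClosed.exists_root (X ^ 2 - C μ * X + 1 : K[X]) (by rw [hd]; norm_num)
    refine ⟨z, ?_⟩
    simpa [IsRoot.def] using hz
  have hz0 : z ≠ 0 := by
    rintro rfl
    simp at hz
  have hμ : μ = z + z⁻¹ := by
    field_simp
    linear_combination -hz
  refine ⟨z, hz0, ?_, hμ⟩
  rw [hμ, vl_eval hz0] at h
  have hn : z ^ n ≠ 0 := pow_ne_zero _ hz0
  have h2 : (z ^ n - 1) ^ 2 = 0 := by
    have h3 : (z ^ n + (z ^ n)⁻¹) * z ^ n = 2 * z ^ n := by rw [h]
    rw [add_mul, inv_mul_cancel₀ hn] at h3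
    linear_combination h3
  exact sub_eq_zero.1 (pow_eq_zero_iff two_ne_zero |>.1 h2)

end MT2
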