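import Pool.Agent.Lib_MP_bfd926_sq.SMc

/-!
# Modular forms of level one modulo a prime: definitions

* `dd`: the operator `X d/dX`; `tt c = U₂ + c V₂`.
* `e2`: the Eisenstein series of weight two, `1 - 24 X - 72 X ^ 2 - …` (as a power series over `ℤ`).
* `Mk R k`: the span of the `E₄ ^ a * E₆ ^ b`, `4 * a + 6 * b = k`, in `R⟦X⟧`.
* `cnt l x y j m`, `th l x y j`: the theta series of the class of the `j`-th power of the prime above `2` in the
  imaginary quadratic field of discriminant `-l`, where `x ^ 2 + l * y ^ 2 = 2 ^ (n + 2)`.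
* `psi`: the series `∑ X ^ (m ^ 2 + m)`, `m ≥ 0`.
* `VL j`: the Vieta-Lucas polynomial, `VL j (z + 1 / z) = z ^ j + 1 / z ^ j`.
-/

open PowerSeries

namespace MT2

/-- `X d/dX`. -/
noncomputable def dd {R : Type} [CommRing R] : PowerSeries R →ₗ[R] PowerSeries R where
  toFun φ := PowerSeries.mk fun n => (n : R) * PowerSeries.coeff n φ
  map_add' φ ψ := by
    ext n
    simp [mul_add]
  map_smul' a φ := by
    ext n
    simp only [PowerSeries.coeff_mk, PowerSeries.coeff_smul, RingHom.id_apply, smul_eq_mul]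
    ring

/-- `U₂ + c V₂`. -/
noncomputable def tt {R : Type} [CommRing R] (c : R) : PowerSeries R →ₗ[R] PowerSeries R where
  toFun φ := uu φ + c • dbl φ
  map_add' φ ψ := by
    unfold uu dbl
    ext n
    simp only [map_add, PowerSeries.coeff_mk, smul_add]
    ring
  map_smul' a φ := by
    unfold uu dbl
    ext n
    simp only [map_add, PowerSeries.coeff_mk, PowerSeries.coeff_smul, RingHom.id_apply, smul_eq_mul,
      map_smul]
    ring

/-- The Eisenstein series of weight two. -/
noncomputable def e2 : PowerSeries ℤ := 6 * dd be * beI + (2 * al - be)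

/-- The level one modular forms of weight `k` with coefficients in `R`, as power series. -/
noncomputable def Mk (R : Type) [CommRing R] (k : ℕ) : Submodule R (PowerSeries R) :=
  Submodule.span R {φ | ∃ a b : ℕ, 4 * a + 6 * b = k ∧ φ = up R ser4 ^ a * up R ser6 ^ b}

/-- The number of the pairs `(u, v)` with `2 ^ (j + 1) ∣ u * y - x * v` and
`u ^ 2 + l * v ^ 2 = 2 ^ (j + 2) * m`. -/
noncomputable def cnt (l : ℕ) (x y : ℤ) (j m : ℕ) : ℕ :=
  Set.ncard {p : ℤ × ℤ | (2 : ℤ) ^ (j + 1) ∣ p.1 * y - x * p.2 ∧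
    p.1 ^ 2 + l * p.2 ^ 2 = 2 ^ (j + 2) * m}

/-- The theta series. -/
noncomputable def th (l : ℕ) (x y : ℤ) (j : ℕ) : PowerSeries ℤ :=
  PowerSeries.mk fun m => (cnt l x y j m : ℤ)

open scoped Classical in
/-- The series `∑ X ^ (m ^ 2 + m)`. -/
noncomputable def psi : PowerSeries ℤ :=
  PowerSeries.mk fun m => if ∃ n : ℕ, n ^ 2 + n = m then 1 else 0

/-- The Vieta-Lucas polynomials: `VL 0 = 2`, `VL 1 = X`, `VL (j + 2) = X * VL (j + 1) - VL j`. -/
noncomputable def VL (R : Type) [CommRing R] : ℕ → Polynomial R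
  | 0 => 2
  | 1 => Polynomial.X
  | (j + 2) => Polynomial.X * VL R (j + 1) - VL R j

end MT2
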