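import Pool.Agent.Lib_MP_bfd926_fm.MDefs

/-!
# Products

`mul_mem`: `Submodule.span_induction` twice. `ser4_mem`, `ser6_mem`: `a = 1`, `b = 0` and `a = 0`, `b = 1`.
-/

open PowerSeries

namespace MT2

theorem mul_mem {R : Type} [CommRing R] {k k' : ℕ} {φ ψ : PowerSeries R} (h : φ ∈ Mk R k)
    (h' : ψ ∈ Mk R k') : φ * ψ ∈ Mk R (k + k') := by
  unfold Mk at h h'
  refine Submodule.span_induction (p := fun φ _ => φ * ψ ∈ Mk R (k + k')) ?_ ?_ ?_ ?_ h
  · rintro _ ⟨a, b, hab, rfl⟩
    refine Submodule.span_induction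
      (p := fun ψ _ => up R ser4 ^ a * up R ser6 ^ b * ψ ∈ Mk R (k + k')) ?_ ?_ ?_ ?_ h'
    · rintro _ ⟨c, d, hcd, rfl⟩
      refine Submodule.subset_span ⟨a + c, b + d, by omega, ?_⟩
      rw [pow_add, pow_add]
      ring
    · rw [mul_zero]
      exact Submodule.zero_mem _
    · intro x y _ _ hx hy
      rw [mul_add]
      exact Submodule.add_mem _ hx hy
    · intro r x _ hx
      rw [mul_smul_comm]
      exact Submodule.smul_mem _ r hx
  · rw [zero_mul]
    exact Submodule.zero_mem _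
  · intro x y _ _ hx hy
    rw [add_mul]
    exact Submodule.add_mem _ hx hy
  · intro r x _ hx
    rw [smul_mul_assoc]
    exact Submodule.smul_mem _ r hx

theorem ser4_mem (R : Type) [CommRing R] : up R ser4 ∈ Mk R 4 :=
  Submodule.subset_span ⟨1, 0, by norm_num, by rw [pow_one, pow_zero, mul_one]⟩

theorem ser6_mem (R : Type) [CommRing R] : up R ser6 ∈ Mk R 6 :=
  Submodule.subset_span ⟨0, 1, by norm_num, by rw [pow_one, pow_zero, one_mul]⟩

private theorem MMul_one_mem (R : Type) [CommRing R] : (1 : PowerSeries R) ∈ Mk R 0 :=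
  Submodule.subset_span ⟨0, 0, by norm_num, by rw [pow_zero, pow_zero, one_mul]⟩

theorem pow_mem {R : Type} [CommRing R] {k : ℕ} {φ : PowerSeries R} (h : φ ∈ Mk R k) (n : ℕ) :
    φ ^ n ∈ Mk R (n * k) := by
  induction n with
  | zero =>
    rw [pow_zero, Nat.zero_mul]
    exact MMul_one_mem R
  | succ m ih =>
    rw [pow_succ, Nat.succ_mul]
    exact mul_mem ih h

end MT2
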