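import Pool.Agent.Lib_MP_bfd926_fm.MDer

/-!
# The derivative of the Hauptmodul

`wr`: let `a = thA`, `b = thB`, `D = 4 * (b * dd a - a * dd b) - a * b * (a ^ 4 - b ^ 4)` in `ℤ⟦X⟧`.
`a ^ 2 + b ^ 2 = 2 * dbl a ^ 2` (`th_sq`), `a * b = dbl b ^ 2` (`th_mul`). Apply `dd` (`dd_mul`, `dd_dbl`):
`a * dd a + b * dd b = 4 * dbl a * dbl (dd a)`, `a * dd b + b * dd a = 4 * dbl b * dbl (dd b)`. A computation
gives `8 * dbl a * dbl b * dbl D = (a ^ 2 - b ^ 2) * D`, that is
`dbl a * dbl b * dbl D = thO * dbl (dbl a) * D`. The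
coefficients `0` and `1` of `D` vanish (`a = 1 + 2 X + …`, `b = 1 - 2 X + …`). If `D ≠ 0` has order `r ≥ 2` then
the left side has order `2 r`, the right side `r + 1`: contradiction. So `D = 0`.

`dd_ff`: differentiate `16 * ff * be ^ 2 = al * (al - be)` (`ff_eq`), `al = a ^ 4`, `be = b ^ 4`; with `wr`:
`be * dd al - al * dd be = al * be * (al - be)` (from `dd al = 4 * a ^ 3 * dd a`, …), so
`16 * be ^ 2 * dd ff = …`; cancel `16 * be ^ 2` (`be` is a unit; `ℤ⟦X⟧` is a domain).
-/

open PowerSeries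

namespace MT2

private theorem MWr_dbl_even (φ : PowerSeries ℤ) (m : ℕ) :
    coeff (2 * m) (dbl φ) = coeff m φ := by
  unfold dbl
  rw [coeff_expand, if_pos (Dvd.intro m rfl)]
  have h4 : (2 * m) / 2 = m := by omega
  rw [h4]

private theorem MWr_dbl_odd (φ : PowerSeries ℤ) {n : ℕ} (h : ¬ 2 ∣ n) :
    coeff n (dbl φ) = 0 := by
  unfold dbl
  rw [coeff_expand, if_neg h]

private theorem MWr_dbl_mul (φ ψ : PowerSeries ℤ) : dbl (φ * ψ) = dbl φ * dbl ψ := by
  unfold dbl
  exact map_mul _ _ _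

private theorem MWr_dbl_sub (φ ψ : PowerSeries ℤ) : dbl (φ - ψ) = dbl φ - dbl ψ := by
  unfold dbl
  exact map_sub _ _ _

private theorem MWr_dbl_pow (φ : PowerSeries ℤ) (n : ℕ) : dbl (φ ^ n) = dbl φ ^ n := by
  unfold dbl
  exact map_pow _ _ _

private theorem MWr_dbl_four : dbl (4 : PowerSeries ℤ) = 4 := by
  unfold dbl
  exact map_ofNat _ 4

private theorem MWr_dbl_const (φ : PowerSeries ℤ) :
    constantCoeff (dbl φ) = constantCoeff φ := by
  unfold dbl
  exact constantCoeff_expand 2 two_ne_zero φ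

private theorem MWr_two_ne : (2 : PowerSeries ℤ) ≠ 0 := by
  intro h
  have h1 := congrArg constantCoeff h
  rw [map_ofNat, map_zero] at h1
  norm_num at h1

private theorem MWr_eight_ne : (8 : PowerSeries ℤ) ≠ 0 := by
  intro h
  have h1 := congrArg constantCoeff h
  rw [map_ofNat, map_zero] at h1
  norm_num at h1

private theorem MWr_dd_two : dd (2 : PowerSeries ℤ) = 0 := by
  have h := dd_natCast (R := ℤ) 2
  exact_mod_cast h

private theorem MWr_thA0 : coeff 0 thA = 1 := by
  unfold thA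
  rw [coeff_mk, if_pos rfl]

private theorem MWr_thA1 : coeff 1 thA = 2 := by
  unfold thA
  rw [coeff_mk, if_neg one_ne_zero, if_pos ⟨1, one_pow 2⟩]

private theorem MWr_thO0 : coeff 0 thO = 0 := by
  unfold thO
  rw [coeff_mk, if_neg]
  rintro ⟨n, h1, h2⟩
  have h3 : n = 0 := by
    rcases Nat.eq_zero_or_pos n with h | h
    · exact h
    · have : 0 < n ^ 2 := pow_pos h 2
      omega
  omega

private theorem MWr_thO1 : coeff 1 thO = 1 := by
  unfold thO
  rw [coeff_mk, if_pos ⟨1, rfl, one_pow 2⟩]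

private theorem MWr_thB (m : ℕ) : coeff m thB = (-1) ^ m * coeff m thA := by
  unfold thB
  rw [evalNegHom, coeff_rescale]

private theorem MWr_thB0 : coeff 0 thB = 1 := by
  rw [MWr_thB, MWr_thA0, pow_zero, one_mul]

private theorem MWr_thB1 : coeff 1 thB = -2 := by
  rw [MWr_thB, MWr_thA1, pow_one]
  norm_num

/-- The relation of the first derivatives, from `th_sq`. -/
private theorem MWr_one :
    thA * dd thA + thB * dd thB = 4 * (dbl thA * dbl (dd thA)) := by
  have h := congrArg dd th_sq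
  rw [map_add, pow_two, pow_two, pow_two, dd_mul, dd_mul, dd_mul, dd_mul, MWr_dd_two, dd_dbl] at h
  have h2 : (2 : PowerSeries ℤ) * (thA * dd thA + thB * dd thB) =
      2 * (4 * (dbl thA * dbl (dd thA))) := by
    linear_combination h
  exact mul_left_cancel₀ MWr_two_ne h2

/-- The relation of the first derivatives, from `th_mul`. -/
private theorem MWr_two :
    thA * dd thB + thB * dd thA = 4 * (dbl thB * dbl (dd thB)) := by
  have h := congrArg dd th_mul
  rw [pow_two, dd_mul, dd_mul, dd_dbl] at h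
  linear_combination h

private noncomputable def MWr_D : PowerSeries ℤ :=
  4 * (thB * dd thA - thA * dd thB) - thA * thB * (thA ^ 4 - thB ^ 4)

private theorem MWr_dblD : dbl MWr_D =
    4 * (dbl thB * dbl (dd thA) - dbl thA * dbl (dd thB)) -
      dbl thA * dbl thB * (dbl thA ^ 4 - dbl thB ^ 4) := by
  unfold MWr_D
  rw [MWr_dbl_sub, MWr_dbl_mul, MWr_dbl_mul, MWr_dbl_mul, MWr_dbl_sub, MWr_dbl_sub, MWr_dbl_mul,
    MWr_dbl_mul, MWr_dbl_pow, MWr_dbl_pow, MWr_dbl_four]

private theorem MWr_rel :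
    8 * (dbl thA * dbl thB * dbl MWr_D) = (thA ^ 2 - thB ^ 2) * MWr_D := by
  rw [MWr_dblD]
  unfold MWr_D
  have h1 := MWr_one
  have h2 := MWr_two
  have h3 := th_sq
  have h4 := th_mul
  -- names
  generalize dd thA = P at *
  generalize dd thB = Q at *
  generalize dbl P = P' at *
  generalize dbl Q = Q' at *
  generalize dbl thA = A at *
  generalize dbl thB = B at *
  generalize thA = a at *
  generalize thB = b at *
  linear_combination (-8 * B ^ 2) * h1 + (8 * A ^ 2) * h2 +
    (4 * (a * Q + b * P) + (a * b) * ((a ^ 2 + b ^ 2) ^ 2 + (a ^ 2 + b ^ 2) * (2 * A ^ 2) +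
      (2 * A ^ 2) ^ 2) - 4 * (a * b) ^ 3) * h3 +
    (-8 * (a * P + b * Q) + (2 * A ^ 2) ^ 3 -
      4 * (2 * A ^ 2) * ((a * b) ^ 2 + (a * b) * B ^ 2 + (B ^ 2) ^ 2)) * h4

private theorem MWr_rel2 :
    dbl thA * dbl thB * dbl MWr_D = thO * (dbl (dbl thA) * MWr_D) := by
  have h := MWr_rel
  have h1 : thA ^ 2 - thB ^ 2 = 8 * (thO * dbl (dbl thA)) := by
    have h2 : thA ^ 2 - thB ^ 2 = (thA - thB) * (thA + thB) := by ring
    rw [h2, th_sub, th_add]
    ring
  rw [h1] at h
  have h3 : (8 : PowerSeries ℤ) * (dbl thA * dbl thB * dbl MWr_D) =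
      8 * (thO * (dbl (dbl thA) * MWr_D)) := by
    linear_combination h
  exact mul_left_cancel₀ MWr_eight_ne h3

private theorem MWr_D0 : coeff 0 MWr_D = 0 := by
  have h := congrArg constantCoeff MWr_rel2
  have hO : constantCoeff thO = 0 := by
    rw [← coeff_zero_eq_constantCoeff_apply]
    exact MWr_thO0
  have hA : constantCoeff thA = 1 := by
    rw [← coeff_zero_eq_constantCoeff_apply]
    exact MWr_thA0
  have hB : constantCoeff thB = 1 := by
    rw [← coeff_zero_eq_constantCoeff_apply]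
    exact MWr_thB0
  rw [map_mul, map_mul, map_mul, hO, zero_mul, MWr_dbl_const, MWr_dbl_const, MWr_dbl_const, hA, hB,
    one_mul, one_mul] at h
  rw [coeff_zero_eq_constantCoeff_apply]
  exact h

private theorem MWr_c1 (φ ψ : PowerSeries ℤ) :
    coeff 1 (φ * ψ) = coeff 0 φ * coeff 1 ψ + coeff 1 φ * coeff 0 ψ := by
  rw [coeff_mul, Finset.Nat.sum_antidiagonal_eq_sum_range_succ_mk, Finset.sum_range_succ,
    Finset.sum_range_one]

private theorem MWr_c0 (φ ψ : PowerSeries ℤ) :
    coeff 0 (φ * ψ) = coeff 0 φ * coeff 0 ψ := by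
  rw [coeff_zero_eq_constantCoeff_apply, map_mul, coeff_zero_eq_constantCoeff_apply,
    coeff_zero_eq_constantCoeff_apply]

private theorem MWr_p1 (φ : PowerSeries ℤ) (h : coeff 0 φ = 1) :
    coeff 1 (φ ^ 4) = 4 * coeff 1 φ := by
  have e : φ ^ 4 = (φ * φ) * (φ * φ) := by ring
  rw [e, MWr_c1, MWr_c1, MWr_c0, h]
  ring

private theorem MWr_p0 (φ : PowerSeries ℤ) (h : coeff 0 φ = 1) :
    coeff 0 (φ ^ 4) = 1 := by
  have e : φ ^ 4 = (φ * φ) * (φ * φ) := by ring
  rw [e, MWr_c0, MWr_c0, h]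
  norm_num

private theorem MWr_D1 : coeff 1 MWr_D = 0 := by
  unfold MWr_D
  have e : 4 * (thB * dd thA - thA * dd thB) - thA * thB * (thA ^ 4 - thB ^ 4) =
      thB * dd thA + thB * dd thA + thB * dd thA + thB * dd thA
        - (thA * dd thB + thA * dd thB + thA * dd thB + thA * dd thB)
        - thA * thB * (thA ^ 4 - thB ^ 4) := by ring
  rw [e]
  have h1 : coeff 1 (thB * dd thA) = 2 := by
    rw [MWr_c1, coeff_dd, coeff_dd, MWr_thB0, MWr_thA1]
    norm_num
  have h2 : coeff 1 (thA * dd thB) = -2 := by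
    rw [MWr_c1, coeff_dd, coeff_dd, MWr_thA0, MWr_thB1]
    norm_num
  have h3 : coeff 1 (thA * thB * (thA ^ 4 - thB ^ 4)) = 16 := by
    rw [MWr_c1, MWr_c0, map_sub, map_sub, MWr_p1 _ MWr_thA0, MWr_p1 _ MWr_thB0,
      MWr_p0 _ MWr_thA0, MWr_p0 _ MWr_thB0, MWr_thA0, MWr_thB0, MWr_thA1, MWr_thB1]
    norm_num
  rw [map_sub, map_sub, map_add, map_add, map_add, map_add, map_add, map_add, h1, h2, h3]
  norm_num

private theorem MWr_Dn (n : ℕ) : ∀ m < n, coeff m MWr_D = 0 := by
  induction n with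
  | zero => intro m hm; omega
  | succ n ih =>
    intro m hm
    rcases Nat.lt_succ_iff_lt_or_eq.mp hm with h | rfl
    · exact ih m h
    by_cases h0 : m = 0
    · rw [h0]; exact MWr_D0
    by_cases h1 : m = 1
    · rw [h1]; exact MWr_D1
    obtain ⟨E, hE⟩ := X_pow_dvd_iff.mpr ih
    have hO : thO = X * (PowerSeries.mk fun n => coeff (n + 1) thO) := by
      ext k
      cases k with
      | zero => rw [MWr_thO0, coeff_zero_eq_constantCoeff_apply, map_mul, constantCoeff_X, zero_mul]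
      | succ k => rw [coeff_succ_X_mul, coeff_mk]
    have hdb : (X : PowerSeries ℤ) ^ (m + 2) ∣ dbl MWr_D := by
      rw [X_pow_dvd_iff]
      intro k hk
      by_cases h2 : 2 ∣ k
      · obtain ⟨j, rfl⟩ := h2
        rw [MWr_dbl_even]
        exact ih j (by omega)
      · exact MWr_dbl_odd _ h2
    obtain ⟨G, hG⟩ := hdb
    have hr := MWr_rel2
    have e1 : dbl thA * dbl thB * dbl MWr_D = X ^ (m + 2) * (dbl thA * dbl thB * G) := by
      rw [hG]; ring
    have e2 : thO * (dbl (dbl thA) * MWr_D) =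
        X ^ (m + 1) * ((PowerSeries.mk fun n => coeff (n + 1) thO) * (dbl (dbl thA) * E)) := by
      conv_lhs => rw [hO, hE]
      ring
    rw [e1, e2] at hr
    have hc := congrArg (coeff (m + 1)) hr
    rw [coeff_X_pow_mul', if_neg (by omega), coeff_X_pow_mul', if_pos le_rfl, Nat.sub_self,
      coeff_zero_eq_constantCoeff_apply, map_mul, map_mul, MWr_dbl_const, MWr_dbl_const] at hc
    have k1 : constantCoeff (PowerSeries.mk fun n => coeff (n + 1) thO) = 1 := by
      rw [← coeff_zero_eq_constantCoeff_apply, coeff_mk]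
      exact MWr_thO1
    have k2 : constantCoeff thA = 1 := by
      rw [← coeff_zero_eq_constantCoeff_apply]
      exact MWr_thA0
    rw [k1, k2, one_mul, one_mul] at hc
    have k3 : coeff m MWr_D = constantCoeff E := by
      rw [hE, coeff_X_pow_mul', if_pos le_rfl, Nat.sub_self, coeff_zero_eq_constantCoeff_apply]
    rw [k3, ← hc]

private theorem MWr_Dzero : MWr_D = 0 := by
  ext n
  rw [MWr_Dn (n + 1) n (Nat.lt_succ_self n), map_zero]

theorem wr : 4 * (thB * dd thA - thA * dd thB) = thA * thB * (al - be) := by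
  have h := MWr_Dzero
  unfold MWr_D at h
  unfold al be
  exact sub_eq_zero.mp h

private theorem MWr_wr2 : be * dd al - al * dd be = al * be * (al - be) := by
  have h := wr
  have h1 : dd al = 4 * (thA ^ 3 * dd thA) := by
    unfold al
    have e : thA ^ 4 = (thA * thA) * (thA * thA) := by ring
    rw [e, dd_mul, dd_mul]
    ring
  have h2 : dd be = 4 * (thB ^ 3 * dd thB) := by
    unfold be
    have e : thB ^ 4 = (thB * thB) * (thB * thB) := by ring
    rw [e, dd_mul, dd_mul]
    ring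
  rw [h1, h2]
  have h3 : al = thA ^ 4 := rfl
  have h4 : be = thB ^ 4 := rfl
  have h5 : be * (4 * (thA ^ 3 * dd thA)) - al * (4 * (thB ^ 3 * dd thB)) =
      thA ^ 3 * thB ^ 3 * (4 * (thB * dd thA - thA * dd thB)) := by
    rw [h3, h4]
    ring
  rw [h5, h]
  rw [h3, h4]
  ring

private theorem MWr_be_ne : be ≠ 0 := by
  intro h
  have h1 := be_zero
  rw [h, map_zero] at h1
  exact zero_ne_one h1

private theorem MWr_sixteen_ne : (16 : PowerSeries ℤ) ≠ 0 := by
  intro h
  have h1 := congrArg constantCoeff h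
  rw [map_ofNat, map_zero] at h1
  norm_num at h1

private theorem MWr_dd16 (φ : PowerSeries ℤ) : dd (16 * φ) = 16 * dd φ := by
  have h := dd_natCast (R := ℤ) 16
  have h2 : dd (16 : PowerSeries ℤ) = 0 := by exact_mod_cast h
  rw [dd_mul, h2, zero_mul, zero_add]

theorem dd_ff : dd ff = ff * (2 * al - be) := by
  have h0 := ff_eq
  have h := congrArg dd h0
  have e1 : 16 * ff * be ^ 2 = 16 * (ff * (be * be)) := by ring
  rw [e1, MWr_dd16, dd_mul, dd_mul, dd_mul, map_sub] at h
  have hw := MWr_wr2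
  have key : (16 * be ^ 3) * dd ff = (16 * be ^ 3) * (ff * (2 * al - be)) := by
    generalize dd ff = F at *
    generalize dd al = P at *
    generalize dd be = Q at *
    linear_combination be * h - (2 * Q + be * (2 * al - be)) * h0 + (2 * al - be) * hw
  exact mul_left_cancel₀ (mul_ne_zero MWr_sixteen_ne (pow_ne_zero 3 MWr_be_ne)) key

end MT2
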